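import Pool.Agent.Lib.MP_a0a715_lc_OD.HRed
import Pool.Agent.Lib.MP_a0a715_lc_TL.PTRed

/-!
# The reduction is computed in polynomial time
-/

namespace Pool.Agent.MPa0a715.OD

open Pool.Agent.MPa0a715 Pool.Agent.PolyTime
open Pool.Agent.MPa0a715.TL (ptime_litNames neg)

section
variable {α β γ : Type} [Enc α] [Enc β] [Enc γ]

theorem ptime_beq {f g : α → Bool} (hf : PTime f) (hg : PTime g) :
    PTime (fun a => f a == g a) :=
  (PTime.xor hf hg).not.of_eq fun a => by cases f a <;> cases g a <;> rfl

theorem ptime_neg' {f : α → ℕ × Bool} (hf : PTime f) : PTime (fun a => neg (f a)) :=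
  hf.fst'.pair hf.snd'.not

/-! ### circuits for conditions -/

theorem ptime_t1 {f : α → Cnd ℕ} (hf : PTime f) : PTime (fun a => t1 (f a)) :=
  PTime.iteP hf.fst'.boolP (PTime.map (g := fun (_ : α) (p : ℕ × Bool) => neg p) hf.snd'
    (ptime_neg' PTime.snd)) hf.snd'

theorem ptime_headD' {f : α → NT} (hf : PTime f) : PTime (fun a => (f a).headD (0, false)) := by
  refine (PTime.getD hf.head? (PTime.const ((0, false) : ℕ × Bool))).of_eq fun a => ?_
  cases f a <;> rfl

theorem ptime_t2 {b : Bool} {f : α → Cnd ℕ} (hf : PTime f) : PTime (fun a => t2 b (f a)) :=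
  PTime.iteP (hf.fst'.and (PTime.const b)).boolP
    ((ptime_neg' (ptime_headD' hf.snd')).cons hf.snd'.tail) (ptime_t1 hf)

theorem ptime_t3 {b : Bool} {f : α → Cnd ℕ} (hf : PTime f) : PTime (fun a => t3 b (f a)) :=
  PTime.iteP (hf.fst'.and (PTime.const b)).boolP hf.snd' (ptime_t1 hf)

theorem ptime_condCircuit {β₁ β₂ : Bool} {N : α → ℕ} {Ds : α → List (Cnd ℕ)} (hN : PU N)
    (hDs : PTime Ds) : PTime (fun a => condCircuit β₁ β₂ (N a) (Ds a)) := by
  have hin : PTime (fun a => inNames (N a)) :=
    PTime.map (g := fun (_ : α) (i : ℕ) => ((0, i) : Name)) hN.range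
      ((PTime.const 0).pair PTime.snd)
  have hl : PU (fun a => (Ds a).length) := PU.ofLength hDs
  have hget : PTime (fun p : α × ℕ => (Ds p.1).getD p.2 (false, [])) :=
    PTime.listGetD (hDs.comp PTime.fst) PTime.snd (PTime.const _)
  have hG : PTime (fun a => toG 1 (cblocks β₁ β₂ (N a) (Ds a))) := by
    unfold cblocks
    refine ptime_toG_cons hN ?_ (ptime_toG_cons hl ?_ (ptime_toG_cons hl ?_
      (ptime_toG_cons hl ?_ (ptime_toG_cons hl ?_ (PTime.const _)))))
    · exact (PTime.const none).pair (((PTime.const 0).pair PTime.snd).cons (PTime.const []))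
    · exact (PTime.const (some true)).pair (ptime_litNames (ptime_t1 hget))
    · exact (PTime.const (some true)).pair (ptime_litNames (ptime_t2 hget))
    · exact (PTime.const (some true)).pair (ptime_litNames (ptime_t3 hget))
    · exact (PTime.const (some false)).pair (((PTime.const 2).pair PTime.snd).cons
        (((PTime.const 3).pair PTime.snd).cons (((PTime.const 4).pair PTime.snd).cons
          (PTime.const []))))
  exact ptime_compile hin hG (ptime_ws hl.range)

/-! ### the conditions -/

variable {Us : α → List NT} {k j : α → ℕ}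

theorem ptime_up {U : α → NT} (hU : PTime U) : PTime (fun a => up (U a)) :=
  PTime.map (g := fun (_ : α) (p : ℕ × Bool) => (((0, p.1), p.2) : VV × Bool)) hU
    (((PTime.const 0).pair (PTime.fst' PTime.snd)).pair (PTime.snd' PTime.snd))

theorem ptime_uu (hU : PTime Us) (hk : PTime k) : PTime (fun a => uu (Us a) (k a)) :=
  PTime.listGetD hU (hk.div (PTime.const 3)) (PTime.const [])

theorem ptime_rt (hU : PTime Us) (hk : PTime k) (hj : PTime j) :
    PTime (fun a => rt (Us a) (k a) (j a)) :=
  PTime.listGetD (ptime_uu hU hk) ((hk.add hj).mod (PTime.const 3)) (PTime.const (0, false))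

theorem ptime_okp (hU : PTime Us) (hk : PTime k) : PTime (fun a => okp (Us a) (k a)) :=
  PTime.lt (hk.mod (PTime.const 3)) (PTime.length (ptime_uu hU hk))

theorem ptime_restL (hU : PTime Us) (hk : PTime k) : PTime (fun a => restL (Us a) (k a)) := by
  refine ptime_up (PTime.filter (g := fun (a : α) (p : ℕ × Bool) =>
    decide (p.1 ≠ (rt (Us a) (k a) 0).1)) (ptime_uu hU hk) ?_)
  exact PTime.notP (PTime.eq (PTime.fst' PTime.snd)
    ((ptime_rt hU hk (PTime.const 0)).fst'.comp PTime.fst))

/-- range with a bound -/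
def rg (m k : ℕ) : List ℕ := List.range (min k m)

theorem rg_eq {m k : ℕ} (h : k ≤ m) : rg m k = List.range k := by
  unfold rg
  rw [min_eq_left h]

theorem ptime_rg {m k : α → ℕ} (hm : PU m) (hk : PTime k) : PTime (fun a => rg (m a) (k a)) := by
  refine PTime.rangeLe (g := fun a => List.replicate (m a) ()) ?_ hm ?_
  · refine (PTime.iteP (PTime.le hk hm.toNat) hk hm.toNat).of_eq fun a => ?_
    split_ifs with h
    · exact (min_eq_left h).symm
    · exact (min_eq_right (by omega)).symm
  · intro a
    rw [List.length_replicate]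
    exact min_le_right _ _

/-- as `fixL`, with a bound for the range -/
def fixL' (Us : List NT) (k : ℕ) : List (VV × Bool) :=
  if okp Us k = true then
    up (uu Us k) ++ ((rg (3 * Us.length) (3 * (k / 3))).filter fun k' => okp Us k' &&
      decide (rt Us k' 0 = ((rt Us k 0).1, !(rt Us k 0).2))).map fun k' => ((1, k'), false)
  else [((0, 0), true), ((0, 0), false)]

theorem ptime_fixL (hU : PTime Us) (hk : PTime k) : PTime (fun a => fixL' (Us a) (k a)) := by
  have hl : PU (fun a => 3 * (Us a).length) := (PU.const 3).mul (PU.ofLength hU)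
  have h1 : PTime (fun a => rg (3 * (Us a).length) (3 * (k a / 3))) :=
    ptime_rg hl ((PTime.const 3).mul (hk.div (PTime.const 3)))
  have hU' : PTime (fun p : α × ℕ => Us p.1) := hU.comp PTime.fst
  have hk' : PTime (fun p : α × ℕ => k p.1) := hk.comp PTime.fst
  have h2 : PTime₂ (fun (a : α) (k' : ℕ) => okp (Us a) k' &&
      decide (rt (Us a) k' 0 = ((rt (Us a) (k a) 0).1, !(rt (Us a) (k a) 0).2))) := by
    refine PTime.and (ptime_okp hU' PTime.snd) (PTime.eq
      (ptime_rt hU' PTime.snd (PTime.const 0)) ?_)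
    have h3 := ptime_rt hU' hk' (PTime.const 0)
    exact h3.fst'.pair h3.snd'.not
  have h4 := PTime.map (g := fun (_ : α) (k' : ℕ) => (((1, k'), false) : VV × Bool))
    (PTime.filter h1 h2) (((PTime.const 1).pair PTime.snd).pair (PTime.const false))
  exact PTime.iteP (ptime_okp hU hk).boolP (PTime.append (ptime_up (ptime_uu hU hk)) h4)
    (PTime.const _)

/-- as `selL`, with a bound for the range -/
def selL' (m k : ℕ) : List (VV × Bool) :=
  ((2, k), true) :: (rg m k).map fun k' => ((2, k'), false)

theorem ptime_selL {m : α → ℕ} (hm : PU m) (hk : PTime k) : PTime (fun a => selL' (m a) (k a)) :=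
  (((PTime.const 2).pair hk).pair (PTime.const true)).cons
    (PTime.map (g := fun (_ : α) (k' : ℕ) => (((2, k'), false) : VV × Bool)) (ptime_rg hm hk)
      (((PTime.const 2).pair PTime.snd).pair (PTime.const false)))

theorem ptime_naL (hU : PTime Us) (hk : PTime k) : PTime (fun a => naL (Us a) (k a)) := by
  have hl : PU (fun a => 3 * (Us a).length) := (PU.const 3).mul (PU.ofLength hU)
  have hU' : PTime (fun p : α × ℕ => Us p.1) := hU.comp PTime.fst
  have hk' : PTime (fun p : α × ℕ => k p.1) := hk.comp PTime.fst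
  have h2 : PTime₂ (fun (a : α) (k' : ℕ) => okp (Us a) k' &&
      decide ((rt (Us a) k' 0).1 = k a)) :=
    PTime.and (ptime_okp hU' PTime.snd) (PTime.eq
      (ptime_rt hU' PTime.snd (PTime.const 0)).fst' hk')
  exact PTime.map (g := fun (_ : α) (k' : ℕ) => (((3, k'), false) : VV × Bool))
    (PTime.filter hl.range h2) (((PTime.const 3).pair PTime.snd).pair (PTime.const false))

theorem ptime_mcaL (hU : PTime Us) (hk : PTime k) : PTime (fun a => mcaL (Us a) (k a)) := by
  have h0 := ptime_rt hU hk (PTime.const 0)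
  have h2 := ptime_rt hU hk (PTime.const 2)
  exact (((PTime.const 4).pair h2.fst').pair (PTime.const false)).cons
    ((((PTime.const 0).pair h0.fst').pair h0.snd'.not).cons (PTime.const []))

theorem ptime_mcbL (hU : PTime Us) (hk : PTime k) : PTime (fun a => mcbL (Us a) (k a)) := by
  have h0 := ptime_rt hU hk (PTime.const 0)
  have h2 := ptime_rt hU hk (PTime.const 2)
  exact (((PTime.const 4).pair h2.fst').pair (PTime.const false)).cons
    ((((PTime.const 0).pair h0.fst').pair h0.snd').cons (PTime.const []))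

theorem ptime_rho (hU : PTime Us) (hk : PTime k) (hj : PTime j) :
    PTime (fun a => rho (Us a) (k a) (j a)) := by
  have h0 := ptime_rt hU hk hj
  have h1 := ptime_rt hU hk (hj.sub (PTime.const 3))
  exact PTime.iteP (PTime.lt hj (PTime.const 3)) (((PTime.const 0).pair h0.fst').pair h0.snd')
    (PTime.iteP (PTime.lt hj (PTime.const 5))
      (((PTime.const 4).pair h1.fst').pair (PTime.const false))
      ((hj.pair hk).pair (PTime.const true)))

theorem ptime_mp (hU : PTime Us) (hk : PTime k) (L : List (Cnd ℕ)) :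
    PTime (fun a => L.map (mp (rho (Us a) (k a)))) := by
  refine PTime.constList L (f := fun c a => mp (rho (Us a) (k a)) c) fun c _ => ?_
  refine (PTime.const c.1).pair (PTime.map (g := fun (a : α) (p : ℕ × Bool) =>
    (((rho (Us a) (k a) p.1).1, (rho (Us a) (k a) p.1).2 == p.2) : VV × Bool))
    (PTime.const c.2) ?_)
  have h1 : PTime (fun q : α × (ℕ × Bool) => rho (Us q.1) (k q.1) q.2.1) :=
    ptime_rho (hU.comp PTime.fst) (hk.comp PTime.fst) (PTime.fst' PTime.snd)
  exact h1.fst'.pair (ptime_beq h1.snd' (PTime.snd' PTime.snd))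

theorem ptime_blk (hU : PTime Us) (hk : PTime k) : PTime (fun a => blk (Us a) (k a)) := by
  have hq : PTime (fun a => (Us a).getD (k a) []) := PTime.listGetD hU hk (PTime.const [])
  have hl := PTime.length hq
  have h3 : PTime (fun a => 3 * k a) := (PTime.const 3).mul hk
  have h4 : ∀ {i : α → ℕ}, PTime i → PTime (fun a => hd (Us a) (i a)) := fun hi =>
    ptime_mp hU hi hardL
  refine PTime.iteP (PTime.eq hl (PTime.const 3)) (PTime.append (h4 h3) (PTime.append
    (h4 (h3.add (PTime.const 1))) (h4 (h3.add (PTime.const 2))))) (PTime.iteP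
    (PTime.eq hl (PTime.const 0)) (PTime.const []) ?_)
  exact ((PTime.const false).pair (ptime_up hq)).cons (PTime.const [])

theorem ptime_sbk (hU : PTime Us) (hk : PTime k) : PTime (fun a => sbk (Us a) (k a)) := by
  have hq : PTime (fun a => (Us a).getD (k a) []) := PTime.listGetD hU hk (PTime.const [])
  have hl := PTime.length hq
  have h3 : PTime (fun a => 3 * k a) := (PTime.const 3).mul hk
  have h4 : ∀ {i : α → ℕ}, PTime i → PTime (fun a => sd (Us a) (i a)) := fun hi =>
    ptime_mp hU hi softL
  exact PTime.iteP (PTime.eq hl (PTime.const 3)) (PTime.append (h4 h3) (PTime.append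
    (h4 (h3.add (PTime.const 1))) (h4 (h3.add (PTime.const 2))))) (PTime.const [])

theorem ptime_gd {g : α → VV} {L : α → List (VV × Bool)} (hg : PTime g) (hL : PTime L) :
    PTime (fun a => gd (g a) (L a)) := by
  have h1 : PTime (fun a => (L a).map fun p => ((false, [(g a, true), (p.1, !p.2)]) : CV)) := by
    refine PTime.map (g := fun (a : α) (p : VV × Bool) =>
      ((false, [(g a, true), (p.1, !p.2)]) : CV)) hL ?_
    have hg' : PTime (fun q : α × (VV × Bool) => g q.1) := hg.comp PTime.fst
    have h2 : PTime (fun q : α × (VV × Bool) => q.2) := PTime.snd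
    exact (PTime.const false).pair ((hg'.pair (PTime.const true)).cons
      ((h2.fst'.pair h2.snd'.not).cons (PTime.const [])))
  exact PTime.append h1 (((PTime.const false).pair ((hg.pair (PTime.const false)).cons
    (PTime.const []))).cons (PTime.const []))

theorem ptime_pG {κ : ℕ} {m : α → ℕ} {L : α → ℕ → List (VV × Bool)} (hm : PU m)
    (hL : PTime (fun p : α × ℕ => L p.1 p.2)) : PTime (fun a => pG κ (m a) (L a)) :=
  PTime.flatMap (g := fun (a : α) (k : ℕ) => gd (κ, k) (L a k)) hm.range
    (ptime_gd ((PTime.const κ).pair PTime.snd) hL)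

theorem pG_congr {κ m : ℕ} {L L' : ℕ → List (VV × Bool)} (h : ∀ k < m, L k = L' k) :
    pG κ m L = pG κ m L' := by
  unfold pG
  rw [List.flatMap_def, List.flatMap_def]
  congr 1
  refine List.map_congr_left fun k hk => ?_
  rw [h k (List.mem_range.1 hk)]

theorem ptime_conds {N : α → ℕ} (hU : PTime Us) (hN : PU N) :
    PTime (fun a => conds (Us a) (N a)) := by
  have hl : PU (fun a => 3 * (Us a).length) := (PU.const 3).mul (PU.ofLength hU)
  have hU' : PTime (fun p : α × ℕ => Us p.1) := hU.comp PTime.fst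
  have hs : PTime (fun p : α × ℕ => p.2) := PTime.snd
  have hA : PTime (fun a => pA (Us a)) :=
    PTime.flatMap (g := fun (a : α) (k : ℕ) => blk (Us a) k) (PU.ofLength hU).range
      (ptime_blk hU' hs)
  have hS : PTime (fun a => pS (Us a)) :=
    PTime.flatMap (g := fun (a : α) (k : ℕ) => sbk (Us a) k) (PU.ofLength hU).range
      (ptime_sbk hU' hs)
  have h1 := ptime_pG (κ := 1) hl (L := fun a k => restL (Us a) k) (ptime_restL hU' hs)
  have h2 := ptime_pG (κ := 2) hl (L := fun a k => fixL' (Us a) k) (ptime_fixL hU' hs)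
  have h3 := ptime_pG (κ := 3) hl (L := fun a k => selL' (3 * (Us a).length) k)
    (ptime_selL (hl.comp PTime.fst) hs)
  have h4 := ptime_pG (κ := 4) hN (L := fun a k => naL (Us a) k) (ptime_naL hU' hs)
  have h5 := ptime_pG (κ := 5) hl (L := fun a k => mcaL (Us a) k) (ptime_mcaL hU' hs)
  have h6 := ptime_pG (κ := 6) hl (L := fun a k => mcbL (Us a) k) (ptime_mcbL hU' hs)
  refine (PTime.append hA (PTime.append h1 (PTime.append h2 (PTime.append h3 (PTime.append h4
    (PTime.append h5 (PTime.append h6 hS))))))).of_eq fun a => ?_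
  unfold conds
  congr 2
  have e2 : pG 2 (3 * (Us a).length) (fixL' (Us a)) = pG 2 (3 * (Us a).length) (fixL (Us a)) :=
    pG_congr fun k hk => by
      unfold fixL' fixL
      rw [rg_eq (by omega)]
  have e3 : pG 3 (3 * (Us a).length) (selL' (3 * (Us a).length)) =
      pG 3 (3 * (Us a).length) selL :=
    pG_congr fun k hk => by
      unfold selL' selL
      rw [rg_eq (by omega)]
  rw [← e2, ← e3]

/-! ### normal forms -/

theorem ptime_n2 {p q : α → ℕ × Bool} (hp : PTime p) (hq : PTime q) :
    PTime (fun a => n2 (p a) (q a)) :=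
  PTime.iteP (PTime.eq hp.fst' hq.fst') (PTime.iteP (PTime.eq hp.snd' hq.snd')
    (hp.cons (PTime.const [])) (PTime.const [])) (hp.cons (hq.cons (PTime.const [])))

theorem ptime_n3 {p q r : α → ℕ × Bool} (hp : PTime p) (hq : PTime q) (hr : PTime r) :
    PTime (fun a => n3 (p a) (q a) (r a)) :=
  PTime.iteP (PTime.eq hp.fst' hq.fst') (PTime.iteP (PTime.eq hp.snd' hq.snd')
    (ptime_n2 hq hr) (PTime.const [])) (PTime.iteP (PTime.eq hp.fst' hr.fst')
    (PTime.iteP (PTime.eq hp.snd' hr.snd') (ptime_n2 hp hq) (PTime.const []))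
    (PTime.iteP (PTime.eq hq.fst' hr.fst') (PTime.iteP (PTime.eq hq.snd' hr.snd')
      (ptime_n2 hp hq) (PTime.const [])) (hp.cons (hq.cons (hr.cons (PTime.const []))))))

theorem ptime_nT : PTime nT := by
  have ht : PTime (fun T : NT => T.length) := PTime.length PTime.id
  have hget : ∀ i : ℕ, PTime (fun T : NT => T.getD i (0, false)) := fun i =>
    PTime.listGetD PTime.id (PTime.const i) (PTime.const (0, false))
  refine (PTime.iteP (PTime.eq ht (PTime.const 1)) ((hget 0).cons (PTime.const []))
    (PTime.iteP (PTime.eq ht (PTime.const 2)) (ptime_n2 (hget 0) (hget 1))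
      (PTime.iteP (PTime.eq ht (PTime.const 3)) (ptime_n3 (hget 0) (hget 1) (hget 2))
        (PTime.const [])))).of_eq fun T => ?_
  match T with
  | [] => rfl
  | [p] => rfl
  | [p, q] => rfl
  | [p, q, r] => rfl
  | p :: q :: r :: s :: T => simp [nT]

theorem ptime_uC {β₁ β₂ : Bool} {N : α → ℕ} {Ts : α → List NT} (hN : PU N) (hT : PTime Ts) :
    PTime (fun a => uC β₁ β₂ (N a) (Ts a)) := by
  have hU : PTime (fun a => nUs (Ts a)) :=
    PTime.reverse (PTime.map (g := fun (_ : α) (T : NT) => nT T) hT (ptime_nT.comp PTime.snd))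
  have hB : PU (fun a => bB (N a) (Ts a)) :=
    (hN.add ((PU.const 3).mul (PU.ofLength hT))).add (PU.const 1)
  have hc := ptime_conds hU hN
  have hD : PTime (fun a => uDs (N a) (Ts a)) := by
    refine PTime.reverse (PTime.map (g := fun (a : α) (c : CV) => numC (bB (N a) (Ts a)) c) hc ?_)
    have h2 : PTime (fun q : α × CV => q.2) := PTime.snd
    refine h2.fst'.pair (PTime.map (g := fun (q : α × CV) (p : VV × Bool) =>
      ((nm (bB (N q.1) (Ts q.1)) p.1, p.2) : ℕ × Bool)) h2.snd' ?_)
    have h3 : PTime (fun r : (α × CV) × (VV × Bool) => r.2) := PTime.snd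
    have hB' : PTime (fun r : (α × CV) × (VV × Bool) => bB (N r.1.1) (Ts r.1.1)) :=
      hB.toNat.comp (PTime.fst' PTime.fst)
    exact ((h3.fst'.fst'.mul hB').add h3.fst'.snd').pair h3.snd'
  exact ptime_condCircuit ((PU.const 14).mul hB) hD

end

end Pool.Agent.MPa0a715.OD
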