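import Pool.Agent.Lib.MP_a0a715_lc.Defs

/-!
# Circuits whose outputs are given functions of few inputs
-/

namespace Pool.Agent.MPa0a715.OD

open Pool.Agent.MPa0a715

/-- Boolean functions of `k` arguments. -/
structure BFun where
  k : ℕ
  f : (Fin k → Bool) → Bool

/-- What may be substituted for an argument: a constant, or an input or its negation. -/
inductive Arg
  | const (b : Bool)
  | lit (i : ℕ) (b : Bool)

/-- The value on the input `x`: `lit i true` is the `i`-th bit of `x`, and `lit i false` is its
negation. -/
def Arg.val (x : List Bool) : Arg → Bool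
  | .const b => b
  | .lit i b => x.getD i false == b

/-- The input exists. -/
def Arg.Ok (n : ℕ) : Arg → Prop
  | .const _ => True
  | .lit i _ => i < n

/-- Every output of the circuit is obtained from a function in `Φ` by substituting constants,
inputs and negated inputs for the arguments. -/
def _root_.Pool.Agent.MPa0a715.Circuit.OutsIn (Φ : List BFun) (C : Circuit) : Prop :=
  ∀ o ∈ C.outs, ∃ φ ∈ Φ, ∃ σ : Fin φ.k → Arg, (∀ j, (σ j).Ok C.n) ∧
    ∀ x : List Bool, x.length = C.n → (C.wires x).getD o false = φ.f fun j => (σ j).val x

/-- Change the coordinates in `S`. -/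
def chg {k : ℕ} (a : Fin k → Bool) (S : Finset (Fin k)) : Fin k → Bool :=
  fun j => if j ∈ S then !a j else a j

/-- There are a point `a` and disjoint sets `U, V, W` of arguments such that the function is true
at `a`, and false when the arguments in `U`, `V`, `W`, `U ∪ V` or `U ∪ W` are changed. -/
def BFun.Pattern (φ : BFun) : Prop :=
  ∃ (a : Fin φ.k → Bool) (U V W : Finset (Fin φ.k)),
    Disjoint U V ∧ Disjoint U W ∧ Disjoint V W ∧
    φ.f a = true ∧ φ.f (chg a U) = false ∧ φ.f (chg a V) = false ∧ φ.f (chg a W) = false ∧
    φ.f (chg a (U ∪ V)) = false ∧ φ.f (chg a (U ∪ W)) = false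

end Pool.Agent.MPa0a715.OD
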