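import Pool.Agent.Lib.MP_a0a715_lc_OD.HRed
import Pool.Agent.Lib.MP_a0a715_lc_OD.Defs

/-!
# The outputs of the constructed circuit
-/

namespace Pool.Agent.MPa0a715.OD

open Pool.Agent.MPa0a715 Pool.Agent.PolyTime

/-- negate if `b` is true -/
def Arg.tw (b : Bool) : Arg → Arg
  | .const c => .const (c ^^ b)
  | .lit i c => .lit i (c ^^ b)

theorem Arg.tw_val (b : Bool) (A : Arg) (x : List Bool) : (A.tw b).val x = (A.val x ^^ b) := by
  cases A with
  | const c => rfl
  | lit i c =>
    simp only [Arg.tw, Arg.val]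
    cases x.getD i false <;> cases c <;> cases b <;> rfl

theorem Arg.tw_ok {n : ℕ} {b : Bool} {A : Arg} (h : A.Ok n) : (A.tw b).Ok n := by
  cases A with
  | const c => trivial
  | lit i c => exact h

/-- the function with pattern as a function of three arguments -/
theorem pattern_fun {φ : BFun} (h : φ.Pattern) : ∃ β₁ β₂ : Bool, ∀ A₀ A₁ A₂ : Arg,
    ∃ σ : Fin φ.k → Arg,
      (∀ n, A₀.Ok n → A₁.Ok n → A₂.Ok n → ∀ j, (σ j).Ok n) ∧
      ∀ x : List Bool, φ.f (fun j => (σ j).val x) =
        gval β₁ β₂ (A₀.val x) (A₁.val x) (A₂.val x) := by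
  classical
  obtain ⟨a, U, V, W, hUV, hUW, hVW, h0, h1, h2, h3, h4, h5⟩ := h
  refine ⟨φ.f (chg a (V ∪ W)), φ.f (chg a (U ∪ (V ∪ W))), fun A₀ A₁ A₂ => ?_⟩
  refine ⟨fun j => if j ∈ U then A₀.tw (a j) else if j ∈ V then A₁.tw (a j) else
    if j ∈ W then A₂.tw (a j) else .const (a j), ?_, ?_⟩
  · intro n ok0 ok1 ok2 j
    dsimp only
    split_ifs
    · exact Arg.tw_ok ok0
    · exact Arg.tw_ok ok1
    · exact Arg.tw_ok ok2
    · trivial
  · intro x
    have key : (fun j => (if j ∈ U then A₀.tw (a j) else if j ∈ V then A₁.tw (a j) else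
        if j ∈ W then A₂.tw (a j) else Arg.const (a j)).val x) =
        fun j => if j ∈ U then (A₀.val x ^^ a j) else if j ∈ V then (A₁.val x ^^ a j) else
        if j ∈ W then (A₂.val x ^^ a j) else a j := by
      funext j
      split_ifs
      · rw [Arg.tw_val]
      · rw [Arg.tw_val]
      · rw [Arg.tw_val]
      · rfl
    rw [key]
    have d1 : ∀ j, j ∈ U → j ∉ V := fun j h h' => Finset.disjoint_left.1 hUV h h'
    have d2 : ∀ j, j ∈ U → j ∉ W := fun j h h' => Finset.disjoint_left.1 hUW h h'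
    have d3 : ∀ j, j ∈ V → j ∉ W := fun j h h' => Finset.disjoint_left.1 hVW h h'
    generalize A₀.val x = c
    generalize A₁.val x = u
    generalize A₂.val x = v
    have fin : ∀ S : Finset (Fin φ.k), (∀ j, j ∈ S ↔ ((j ∈ U ∧ c = true) ∨ (j ∈ V ∧ u = true) ∨
        (j ∈ W ∧ v = true))) → (fun j => if j ∈ U then (c ^^ a j) else if j ∈ V then (u ^^ a j)
        else if j ∈ W then (v ^^ a j) else a j) = chg a S := by
      intro S hS
      funext j
      unfold chg
      by_cases hU : j ∈ U
      · rw [if_pos hU]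
        cases c
        · rw [if_neg (by rw [hS]; simp [d1 j hU, d2 j hU])]
          simp
        · rw [if_pos (by rw [hS]; simp [hU])]
          simp
      · rw [if_neg hU]
        by_cases hV : j ∈ V
        · rw [if_pos hV]
          cases u
          · rw [if_neg (by rw [hS]; simp [hU, d3 j hV])]
            simp
          · rw [if_pos (by rw [hS]; simp [hV])]
            simp
        · rw [if_neg hV]
          by_cases hW : j ∈ W
          · rw [if_pos hW]
            cases v
            · rw [if_neg (by rw [hS]; simp [hU, hV])]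
              simp
            · rw [if_pos (by rw [hS]; simp [hW])]
              simp
          · rw [if_neg hW, if_neg (by rw [hS]; simp [hU, hV, hW])]
    cases c <;> cases u <;> cases v
    · rw [fin ∅ (by simp)]
      have : chg a ∅ = a := by
        funext j
        simp [chg]
      rw [this, h0]
      rfl
    · rw [fin W (by simp), h3]
      rfl
    · rw [fin V (by simp), h2]
      rfl
    · rw [fin (V ∪ W) (by simp)]
      rfl
    · rw [fin U (by simp), h1]
      rfl
    · rw [fin (U ∪ W) (by simp), h5]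
      rfl
    · rw [fin (U ∪ V) (by simp), h4]
      rfl
    · rw [fin (U ∪ (V ∪ W)) (by simp)]
      rfl

/-- the argument of a literal -/
def ofLit (p : ℕ × Bool) : Arg := .lit p.1 p.2

theorem ofLit_val (p : ℕ × Bool) (x : List Bool) :
    (ofLit p).val x = lv (fun i => x.getD i false) p := rfl

/-- the outputs of the circuit are as desired -/
theorem uC_outs {Φ : List BFun} {φ : BFun} (hφ : φ ∈ Φ) (h : φ.Pattern) :
    ∃ β₁ β₂ : Bool, ∀ (N : ℕ) (Ts : List NT), TOk N Ts → (uC β₁ β₂ N Ts).OutsIn Φ := by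
  obtain ⟨β₁, β₂, h⟩ := pattern_fun h
  refine ⟨β₁, β₂, fun N Ts hT o ho => ?_⟩
  have hok := uDs_ok hT
  obtain ⟨c, hc, hcx⟩ := cc_conds (β₁ := β₁) (β₂ := β₂) hok ho
  obtain ⟨hs, hb⟩ := hok c hc
  have key : ∃ A₀ A₁ A₂ : Arg, (A₀.Ok (14 * bB N Ts) ∧ A₁.Ok (14 * bB N Ts) ∧
      A₂.Ok (14 * bB N Ts)) ∧ ∀ x : List Bool, cv β₁ β₂ (fun i => x.getD i false) c =
        gval β₁ β₂ (A₀.val x) (A₁.val x) (A₂.val x) := by
    obtain ⟨t, L⟩ := c
    rcases hs with ⟨h1, h2 | h2⟩ | ⟨h1, h2⟩
    · dsimp only at h1 h2 hb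
      subst h1
      match L, h2, hb with
      | [p], _, hb =>
        refine ⟨(ofLit p).tw true, .const false, .const false, ⟨Arg.tw_ok (hb p (by simp)),
          trivial, trivial⟩, fun x => ?_⟩
        rw [Arg.tw_val, ofLit_val]
        simp only [cv, Arg.val, gval, List.all_cons, List.all_nil]
        cases lv (fun i => x.getD i false) p <;> rfl
    · dsimp only at h1 h2 hb
      subst h1
      match L, h2, hb with
      | [p, q], _, hb =>
        refine ⟨(ofLit p).tw true, (ofLit q).tw true, .const false,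
          ⟨Arg.tw_ok (hb p (by simp)), Arg.tw_ok (hb q (by simp)), trivial⟩, fun x => ?_⟩
        rw [Arg.tw_val, Arg.tw_val, ofLit_val, ofLit_val]
        simp only [cv, Arg.val, gval, List.all_cons, List.all_nil]
        cases lv (fun i => x.getD i false) p <;> cases lv (fun i => x.getD i false) q <;> rfl
    · dsimp only at h1 h2 hb
      subst h1
      match L, h2, hb with
      | [p, q, r], _, hb =>
        refine ⟨ofLit p, ofLit q, ofLit r, ⟨hb p (by simp), hb q (by simp), hb r (by simp)⟩,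
          fun x => ?_⟩
        rw [ofLit_val, ofLit_val, ofLit_val]
        rfl
  obtain ⟨A₀, A₁, A₂, ⟨ok0, ok1, ok2⟩, hA⟩ := key
  obtain ⟨σ, hσ1, hσ2⟩ := h A₀ A₁ A₂
  refine ⟨φ, hφ, σ, ?_, ?_⟩
  · rw [uC_n]
    exact hσ1 _ ok0 ok1 ok2
  · intro x hx
    rw [uC_n] at hx
    rw [hσ2, ← hA]
    exact hcx x hx

end Pool.Agent.MPa0a715.OD
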