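import Pool.Agent.Lib.MP_a0a715_lc_OD.Local2

/-!
# The system which simulates a list of conjunctions of at most three literals
-/

namespace Pool.Agent.MPa0a715.OD

/-- variables: kind and number -/
abbrev VV := ℕ × ℕ

/-- conditions on these variables -/
abbrev CV := Cnd VV

/-- a conjunction: variables and signs -/
abbrev NT := List (ℕ × Bool)

/-- the conjunction as a list of literals of the variables of kind `0` -/
def up (U : NT) : List (VV × Bool) := U.map fun p => ((0, p.1), p.2)

section
variable (Us : List NT)

/-- the conjunction that belongs to the number `k` -/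
def uu (k : ℕ) : NT := Us.getD (k / 3) []

/-- the literals of the conjunction with number `k`, starting from the position of `k` -/
def rt (k j : ℕ) : ℕ × Bool := (uu Us k).getD ((k + j) % 3) (0, false)

/-- the position exists -/
def okp (k : ℕ) : Bool := decide (k % 3 < (uu Us k).length)

/-- all other literals -/
def restL (k : ℕ) : List (VV × Bool) := up ((uu Us k).filter fun p => decide (p.1 ≠ (rt Us k 0).1))

/-- flipping the variable at this position is an improvement -/
def fixL (k : ℕ) : List (VV × Bool) :=
  if okp Us k = true then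
    up (uu Us k) ++ ((List.range (3 * (k / 3))).filter fun k' => okp Us k' &&
      decide (rt Us k' 0 = ((rt Us k 0).1, !(rt Us k 0).2))).map fun k' => ((1, k'), false)
  else [((0, 0), true), ((0, 0), false)]

/-- the first position where flipping is an improvement -/
def selL (k : ℕ) : List (VV × Bool) :=
  ((2, k), true) :: (List.range k).map fun k' => ((2, k'), false)

/-- the variable is not selected -/
def naL (x : ℕ) : List (VV × Bool) :=
  ((List.range (3 * Us.length)).filter fun k => okp Us k &&
    decide ((rt Us k 0).1 = x)).map fun k => ((3, k), false)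

/-- first mode for the third literal -/
def mcaL (k : ℕ) : List (VV × Bool) :=
  [((4, (rt Us k 2).1), false), ((0, (rt Us k 0).1), !(rt Us k 0).2)]

/-- second mode for the third literal -/
def mcbL (k : ℕ) : List (VV × Bool) :=
  [((4, (rt Us k 2).1), false), ((0, (rt Us k 0).1), (rt Us k 0).2)]

/-- the literals that the variables of the gadget stand for -/
def rho (k : ℕ) (i : ℕ) : VV × Bool :=
  if i < 3 then ((0, (rt Us k i).1), (rt Us k i).2) else
  if i < 5 then ((4, (rt Us k (i - 3)).1), false) else ((i, k), true)

end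

/-- translation of conditions of the gadget -/
def mp (ρ : ℕ → VV × Bool) (c : Cnd ℕ) : CV :=
  (c.1, c.2.map fun p => ((ρ p.1).1, (ρ p.1).2 == p.2))

/-- the conditions for a gate: `g` is the conjunction of the literals in `L` -/
def gd (g : VV) (L : List (VV × Bool)) : List CV :=
  L.map (fun p => (false, [(g, true), (p.1, !p.2)])) ++ [(false, [(g, false)])]

section
variable (Us : List NT)

/-- the important conditions of a gadget -/
def hd (k : ℕ) : List CV := hardL.map (mp (rho Us k))

/-- the unimportant conditions of a gadget -/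
def sd (k : ℕ) : List CV := softL.map (mp (rho Us k))

/-- the conditions for a conjunction -/
def blk (q : ℕ) : List CV :=
  if (Us.getD q []).length = 3 then hd Us (3 * q) ++ (hd Us (3 * q + 1) ++ hd Us (3 * q + 2))
  else if (Us.getD q []).length = 0 then [] else [(false, up (Us.getD q []))]

/-- the unimportant conditions for a conjunction -/
def sbk (q : ℕ) : List CV :=
  if (Us.getD q []).length = 3 then sd Us (3 * q) ++ (sd Us (3 * q + 1) ++ sd Us (3 * q + 2))
  else []

/-- first part -/
def pA : List CV := (List.range Us.length).flatMap (blk Us)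

/-- the gates of one kind -/
def pG (κ m : ℕ) (L : ℕ → List (VV × Bool)) : List CV :=
  (List.range m).flatMap fun k => gd (κ, k) (L k)

/-- last part -/
def pS : List CV := (List.range Us.length).flatMap (sbk Us)

/-- all conditions, the most important one first -/
def conds (N : ℕ) : List CV :=
  pA Us ++ (pG 1 (3 * Us.length) (restL Us) ++ (pG 2 (3 * Us.length) (fixL Us) ++
    (pG 3 (3 * Us.length) selL ++ (pG 4 N (naL Us) ++ (pG 5 (3 * Us.length) (mcaL Us) ++
    (pG 6 (3 * Us.length) (mcbL Us) ++ pS Us))))))

end

/-! ### general facts on improvements -/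

section
variable {V : Type} {β₁ β₂ : Bool} {X X' : V → Bool} {L L' : List (Cnd V)}

/-- no condition becomes true -/
def Ni (β₁ β₂ : Bool) (X X' : V → Bool) (L : List (Cnd V)) : Prop :=
  ∀ c ∈ L, cv β₁ β₂ X' c = true → cv β₁ β₂ X c = true

theorem ni_iff : ni β₁ β₂ X X' L = true ↔ Ni β₁ β₂ X X' L := by
  unfold ni Ni
  rw [List.all_eq_true]
  refine forall₂_congr fun c _ => ?_
  cases cv β₁ β₂ X c <;> cases cv β₁ β₂ X' c <;> simp

theorem Ni.append (h : Ni β₁ β₂ X X' L) (h' : Ni β₁ β₂ X X' L') : Ni β₁ β₂ X X' (L ++ L') := by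
  intro c hc
  rcases List.mem_append.1 hc with hc | hc
  · exact h c hc
  · exact h' c hc

theorem imp_left (h : imp β₁ β₂ X X' L = true) : imp β₁ β₂ X X' (L ++ L') = true := by
  induction L with
  | nil => exact absurd h (by simp [imp])
  | cons c L ih =>
    rw [List.cons_append]
    unfold imp at h ⊢
    revert h
    cases cv β₁ β₂ X c <;> cases cv β₁ β₂ X' c <;> simp <;> exact ih

theorem imp_right (h : Ni β₁ β₂ X X' L) (h' : imp β₁ β₂ X X' L' = true) :
    imp β₁ β₂ X X' (L ++ L') = true := by
  induction L with
  | nil => exact h'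
  | cons c L ih =>
    rw [List.cons_append]
    exact imp_tail (h c List.mem_cons_self) (ih fun c hc => h c (List.mem_cons_of_mem _ hc))

theorem imp_cons {c : Cnd V} : imp β₁ β₂ X X' (c :: L) = if cv β₁ β₂ X c then
    (!cv β₁ β₂ X' c) || imp β₁ β₂ X X' L else (!cv β₁ β₂ X' c) && imp β₁ β₂ X X' L := rfl

theorem imp_append_cases (h : imp β₁ β₂ X X' (L ++ L') = true) :
    imp β₁ β₂ X X' L = true ∨ (Ni β₁ β₂ X X' L ∧ imp β₁ β₂ X X' L' = true) := by
  induction L with
  | nil => exact Or.inr ⟨fun c hc => absurd hc List.not_mem_nil, h⟩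
  | cons c L ih =>
    rw [List.cons_append, imp_cons] at h
    rw [imp_cons]
    by_cases h1 : cv β₁ β₂ X c = true <;> by_cases h2 : cv β₁ β₂ X' c = true
    · rw [if_pos h1] at h ⊢
      rw [h2] at h ⊢
      simp only [Bool.not_true, Bool.false_or] at h ⊢
      rcases ih h with h3 | ⟨h3, h4⟩
      · exact Or.inl h3
      · refine Or.inr ⟨fun c' hc' _ => ?_, h4⟩
        rcases List.mem_cons.1 hc' with rfl | hc'
        · exact h1
        · exact h3 c' hc' ‹_›
    · left
      rw [if_pos h1]
      simp [h2]
    · rw [if_neg h1, h2] at h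
      simp at h
    · rw [if_neg h1] at h ⊢
      rw [Bool.not_eq_true] at h2
      rw [h2] at h ⊢
      simp only [Bool.not_false, Bool.true_and] at h ⊢
      rcases ih h with h3 | ⟨h3, h4⟩
      · exact Or.inl h3
      · refine Or.inr ⟨fun c' hc' h5 => ?_, h4⟩
        rcases List.mem_cons.1 hc' with rfl | hc'
        · rw [h2] at h5
          exact absurd h5 (by simp)
        · exact h3 c' hc' h5

theorem Ni.flatMap {g : ℕ → List (Cnd V)} {m : ℕ} (h : ∀ k < m, Ni β₁ β₂ X X' (g k)) :
    Ni β₁ β₂ X X' ((List.range m).flatMap g) := by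
  intro c hc
  obtain ⟨k, hk, hc⟩ := List.mem_flatMap.1 hc
  exact h k (List.mem_range.1 hk) c hc

theorem imp_flatMap {g : ℕ → List (Cnd V)} {m k : ℕ} (hk : k < m)
    (h : ∀ j < k, Ni β₁ β₂ X X' (g j)) (h' : imp β₁ β₂ X X' (g k) = true) :
    imp β₁ β₂ X X' ((List.range m).flatMap g) = true := by
  have e : m = k + (1 + (m - k - 1)) := by omega
  rw [e, List.range_add, List.flatMap_append]
  refine imp_right (Ni.flatMap h) ?_
  rw [Nat.add_comm 1, List.range_succ_eq_map, List.map_cons, List.flatMap_cons]
  exact imp_left h'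

theorem ni_of_eq [DecidableEq V] {v : V} (h : ∀ c ∈ L, ∀ p ∈ c.2, p.1 ≠ v) :
    Ni β₁ β₂ X (flv X v) L := by
  intro c hc h1
  rw [← h1]
  exact cv_congr fun p hp => (flv_ne _ (h c hc p hp)).symm

end

/-! ### gates -/

section
variable {β₁ β₂ : Bool} {X : VV → Bool}

/-- the gate is wrong: flipping it is an improvement -/
theorem gd_imp {g : VV} {L : List (VV × Bool)} (hg : ∀ p ∈ L, p.1 ≠ g)
    (h : X g ≠ L.all (lv X)) : imp β₁ β₂ X (flv X g) (gd g L) = true := by
  cases hX : X g with
  | false =>
    rw [hX] at h
    have hall : L.all (lv X) = true := by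
      revert h
      cases L.all (lv X) <;> simp
    rw [List.all_eq_true] at hall
    unfold gd
    refine imp_right ?_ ?_
    · intro c hc h1
      obtain ⟨p, hp, rfl⟩ := List.mem_map.1 hc
      exfalso
      have h2 := hall p hp
      simp only [cv, List.all_cons, List.all_nil, Bool.and_true, Bool.and_eq_true, lv] at h1 h2
      rw [flv_ne _ (hg p hp)] at h1
      revert h1 h2
      cases X p.1 <;> cases p.2 <;> simp
    · refine imp_head ?_ ?_
      · simp [cv, lv, hX]
      · simp [cv, lv, flv_self, hX]
  | true =>
    rw [hX] at h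
    have hall : ∃ p ∈ L, lv X p = false := by
      by_contra hcon
      push Not at hcon
      apply h
      symm
      rw [List.all_eq_true]
      intro p hp
      exact (Bool.not_eq_false _).mp (hcon p hp)
    obtain ⟨p, hp, hp'⟩ := hall
    unfold gd
    refine imp_left ?_
    -- the first wrong literal
    have : ∀ K : List (VV × Bool), p ∈ K → imp β₁ β₂ X (flv X g)
        (K.map fun p => ((false, [(g, true), (p.1, !p.2)]) : CV)) = true := by
      intro K
      induction K with
      | nil => intro h; exact absurd h List.not_mem_nil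
      | cons a K ih =>
        intro h
        rw [List.map_cons]
        have hfl : cv β₁ β₂ (flv X g) (false, [(g, true), (a.1, !a.2)]) = false := by
          simp [cv, lv, flv_self, hX]
        rcases List.mem_cons.1 h with rfl | h
        · refine imp_head ?_ hfl
          simp only [cv, lv, List.all_cons, List.all_nil, hX]
          simp only [lv] at hp'
          revert hp'
          cases X p.1 <;> cases p.2 <;> simp
        · refine imp_tail ?_ (ih h)
          rw [hfl]
          simp
    exact this L hp

/-- kinds of variables that occur -/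
def Av (κ : ℕ) (L : List CV) : Prop := ∀ c ∈ L, ∀ p ∈ c.2, p.1.1 ≠ κ

theorem Av.append {κ : ℕ} {L L' : List CV} (h : Av κ L) (h' : Av κ L') : Av κ (L ++ L') := by
  intro c hc
  rcases List.mem_append.1 hc with hc | hc
  · exact h c hc
  · exact h' c hc

theorem Av.ni {κ k : ℕ} {L : List CV} (h : Av κ L) : Ni β₁ β₂ X (flv X (κ, k)) L := by
  refine ni_of_eq fun c hc p hp e => h c hc p hp ?_
  rw [e]

theorem av_gd {κ : ℕ} {g : VV} {L : List (VV × Bool)} (hg : g.1 ≠ κ) (hL : ∀ p ∈ L, p.1.1 ≠ κ) :
    Av κ (gd g L) := by
  intro c hc p hp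
  unfold gd at hc
  rcases List.mem_append.1 hc with hc | hc
  · obtain ⟨q, hq, rfl⟩ := List.mem_map.1 hc
    simp only [List.mem_cons, List.not_mem_nil, or_false] at hp
    rcases hp with rfl | rfl
    · exact hg
    · exact hL q hq
  · rw [List.mem_singleton] at hc
    subst hc
    rw [List.mem_singleton] at hp
    subst hp
    exact hg

theorem av_pG {κ κ' m : ℕ} {L : ℕ → List (VV × Bool)} (h : κ' ≠ κ)
    (hL : ∀ k < m, ∀ p ∈ L k, p.1.1 ≠ κ) : Av κ (pG κ' m L) := by
  intro c hc
  obtain ⟨k, hk, hc⟩ := List.mem_flatMap.1 hc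
  exact av_gd h (hL k (List.mem_range.1 hk)) c hc

/-- in a local minimum all gates are right -/
theorem gate_right {κ m : ℕ} {L : ℕ → List (VV × Bool)} {P Q : List CV} {k : ℕ} (hk : k < m)
    (hP : Av κ P) (hL : ∀ k < m, ∀ p ∈ L k, p.1.1 ≠ κ)
    (h : imp β₁ β₂ X (flv X (κ, k)) (P ++ (pG κ m L ++ Q)) = false) :
    X (κ, k) = (L k).all (lv X) := by
  by_contra hcon
  have h1 : imp β₁ β₂ X (flv X (κ, k)) (P ++ (pG κ m L ++ Q)) = true := by
    refine imp_right hP.ni (imp_left (imp_flatMap hk ?_ (gd_imp ?_ hcon)))
    · intro j hj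
      refine ni_of_eq fun c hc p hp => ?_
      unfold gd at hc
      have hL' : ∀ q ∈ L j, q.1 ≠ (κ, k) := fun q hq e => hL j (by omega) q hq (by rw [e])
      have hjk : ((κ, j) : VV) ≠ (κ, k) := by
        intro e
        have := congrArg Prod.snd e
        simp at this
        omega
      rcases List.mem_append.1 hc with hc | hc
      · obtain ⟨q, hq, rfl⟩ := List.mem_map.1 hc
        simp only [List.mem_cons, List.not_mem_nil, or_false] at hp
        rcases hp with rfl | rfl
        · exact hjk
        · exact hL' q hq
      · rw [List.mem_singleton] at hc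
        subst hc
        rw [List.mem_singleton] at hp
        subst hp
        exact hjk
    · intro p hp e
      exact hL k hk p hp (by rw [e])
  rw [h1] at h
  exact absurd h (by simp)

end

end Pool.Agent.MPa0a715.OD
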