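import Pool.Agent.Lib.MP_a0a715_lc_TL.TC
import Pool.Agent.Lib.MP_a0a715_lc_TL.TwoSat
import Pool.Agent.Lib.MP_a0a715_lc_OD.Sys

/-!
# Circuits whose outputs are given conditions
-/

namespace Pool.Agent.MPa0a715.OD

open Pool.Agent.MPa0a715 Pool.Agent.PolyTime
open Pool.Agent.MPa0a715.TL (neg litNames)

/-- first conjunction of a condition -/
def t1 (c : Cnd ℕ) : NT := if c.1 = true then c.2.map neg else c.2

/-- second conjunction of a condition -/
def t2 (β : Bool) (c : Cnd ℕ) : NT :=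
  if (c.1 && β) = true then neg (c.2.headD (0, false)) :: c.2.tail else t1 c

/-- third conjunction of a condition -/
def t3 (β : Bool) (c : Cnd ℕ) : NT := if (c.1 && β) = true then c.2 else t1 c

/-- the shape of the conditions -/
def Shape {V : Type} (c : Cnd V) : Prop :=
  (c.1 = false ∧ (c.2.length = 1 ∨ c.2.length = 2)) ∨ (c.1 = true ∧ c.2.length = 3)

/-- the conditions are in order -/
def DOk (N : ℕ) (Ds : List (Cnd ℕ)) : Prop := ∀ c ∈ Ds, Shape c ∧ ∀ p ∈ c.2, p.1 < N

theorem lv_neg (X : ℕ → Bool) (p : ℕ × Bool) : lv X (neg p) = !lv X p := by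
  unfold lv neg
  cases X p.1 <;> cases p.2 <;> rfl

theorem cv_eq {β₁ β₂ : Bool} {X : ℕ → Bool} {c : Cnd ℕ} (hc : Shape c) :
    cv β₁ β₂ X c = ((t1 c).all (lv X) || (t2 β₁ c).all (lv X) || (t3 β₂ c).all (lv X)) := by
  obtain ⟨t, L⟩ := c
  rcases hc with ⟨h1, _⟩ | ⟨h1, h2⟩
  · dsimp only at h1
    subst h1
    simp [cv, t1, t2, t3]
  · dsimp only at h1 h2
    subst h1
    match L, h2 with
    | [a, b, c], _ =>
      cases β₁ <;> cases β₂ <;> simp only [cv, gval, t1, t2, t3, Bool.true_and, if_true,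
        Bool.false_eq_true, if_false, List.map_cons, List.map_nil, List.all_cons, List.all_nil,
        lv_neg, List.headD_cons, List.tail_cons] <;> cases lv X a <;> cases lv X b <;>
        cases lv X c <;> rfl

theorem t1_ok {N : ℕ} {c : Cnd ℕ} (hc : Shape c) (h : ∀ p ∈ c.2, p.1 < N) :
    t1 c ≠ [] ∧ ∀ p ∈ t1 c, p.1 < N := by
  have hne : c.2 ≠ [] := by
    intro e
    rcases hc with ⟨_, h1 | h1⟩ | ⟨_, h1⟩ <;> simp [e] at h1
  unfold t1
  split_ifs
  · refine ⟨fun e => hne (List.map_eq_nil_iff.1 e), ?_⟩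
    rw [List.forall_mem_map]
    exact h
  · exact ⟨hne, h⟩

theorem t2_ok {β : Bool} {N : ℕ} {c : Cnd ℕ} (hc : Shape c) (h : ∀ p ∈ c.2, p.1 < N) :
    t2 β c ≠ [] ∧ ∀ p ∈ t2 β c, p.1 < N := by
  have hne : c.2 ≠ [] := by
    intro e
    rcases hc with ⟨_, h1 | h1⟩ | ⟨_, h1⟩ <;> simp [e] at h1
  unfold t2
  split_ifs
  · refine ⟨List.cons_ne_nil _ _, ?_⟩
    intro p hp
    obtain ⟨a, l, hal⟩ := List.exists_cons_of_ne_nil hne
    rw [hal] at hp h
    rcases List.mem_cons.1 hp with rfl | hp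
    · exact h a List.mem_cons_self
    · exact h p (List.mem_cons_of_mem _ hp)
  · exact t1_ok hc h

theorem t3_ok {β : Bool} {N : ℕ} {c : Cnd ℕ} (hc : Shape c) (h : ∀ p ∈ c.2, p.1 < N) :
    t3 β c ≠ [] ∧ ∀ p ∈ t3 β c, p.1 < N := by
  have hne : c.2 ≠ [] := by
    intro e
    rcases hc with ⟨_, h1 | h1⟩ | ⟨_, h1⟩ <;> simp [e] at h1
  unfold t3
  split_ifs
  · exact ⟨hne, h⟩
  · exact t1_ok hc h

/-- the gates -/
def cblocks (β₁ β₂ : Bool) (N : ℕ) (Ds : List (Cnd ℕ)) : List Blk :=
  [ (N, fun i => (none, [(0, i)])),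
    (Ds.length, fun q => (some true, litNames (t1 (Ds.getD q (false, []))))),
    (Ds.length, fun q => (some true, litNames (t2 β₁ (Ds.getD q (false, []))))),
    (Ds.length, fun q => (some true, litNames (t3 β₂ (Ds.getD q (false, []))))),
    (Ds.length, fun q => (some false, [(2, q), (3, q), (4, q)])) ]

/-- the circuit -/
def condCircuit (β₁ β₂ : Bool) (N : ℕ) (Ds : List (Cnd ℕ)) : Circuit :=
  compile (inNames N) (toG 1 (cblocks β₁ β₂ N Ds)) (ws 5 (List.range Ds.length))

section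
variable {β₁ β₂ : Bool} {N : ℕ} {Ds : List (Cnd ℕ)}

theorem getD_ok (h : DOk N Ds) {q : ℕ} (hq : q < Ds.length) :
    Shape (Ds.getD q (false, [])) ∧ ∀ p ∈ (Ds.getD q (false, [])).2, p.1 < N := by
  refine h _ ?_
  rw [List.getD_eq_getElem _ _ hq]
  exact List.getElem_mem hq

theorem and_ok {T : NT} {b q : ℕ} (hT : T ≠ [] ∧ ∀ p ∈ T, p.1 < N) (hb : 2 ≤ b) :
    litNames T ≠ [] ∧ ∀ r ∈ litNames T, r.2 < cnt N (cblocks β₁ β₂ N Ds) r.1 ∧ nlt r (b, q) := by
  refine ⟨?_, ?_⟩
  · unfold litNames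
    intro hcon
    exact hT.1 (List.map_eq_nil_iff.1 hcon)
  · intro r hr
    unfold litNames at hr
    obtain ⟨p, hp, rfl⟩ := List.mem_map.1 hr
    have := hT.2 p hp
    cases hb' : p.2
    · exact ⟨this, Or.inl (by dsimp only; simp; omega)⟩
    · exact ⟨this, Or.inl (by dsimp only; simp; omega)⟩

theorem cblocks_ok (h : DOk N Ds) :
    AllB (BlkOK N (cblocks β₁ β₂ N Ds)) 1 (cblocks β₁ β₂ N Ds) := by
  refine ⟨?_, ?_, ?_, ?_, ?_, trivial⟩
  · intro i hi
    refine ⟨List.cons_ne_nil _ _, ?_⟩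
    intro r hr
    change r ∈ [(0, i)] at hr
    rw [List.mem_singleton] at hr
    subst hr
    exact ⟨hi, Or.inl Nat.zero_lt_one⟩
  · intro q hq
    obtain ⟨h1, h2⟩ := getD_ok h hq
    exact and_ok (t1_ok h1 h2) (by omega)
  · intro q hq
    obtain ⟨h1, h2⟩ := getD_ok h hq
    exact and_ok (t2_ok h1 h2) (by omega)
  · intro q hq
    obtain ⟨h1, h2⟩ := getD_ok h hq
    exact and_ok (t3_ok h1 h2) (by omega)
  · intro q hq
    refine ⟨List.cons_ne_nil _ _, ?_⟩
    intro r hr
    change r ∈ [(2, q), (3, q), (4, q)] at hr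
    change q < Ds.length at hq
    simp only [List.mem_cons, List.not_mem_nil, or_false] at hr
    rcases hr with rfl | rfl | rfl
    · exact ⟨hq, Or.inl (by simp)⟩
    · exact ⟨hq, Or.inl (by simp)⟩
    · exact ⟨hq, Or.inl (by simp)⟩

theorem cc_wf (h : DOk N Ds) : WF (inNames N) (toG 1 (cblocks β₁ β₂ N Ds)) :=
  wf_blocks (cblocks_ok h)

theorem cc_outs {o : Name} (ho : o ∈ ws 5 (List.range Ds.length)) :
    o ∈ (toG 1 (cblocks β₁ β₂ N Ds)).map Prod.fst := by
  obtain ⟨h1, h2⟩ := mem_ws.1 ho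
  exact toG_names.2 ⟨4, _, rfl, by omega, List.mem_range.1 h2⟩

theorem cc_valid (h : DOk N Ds) : (condCircuit β₁ β₂ N Ds).Valid :=
  compile_valid (cc_wf h) fun _ ho => cc_outs ho

theorem cc_n : (condCircuit β₁ β₂ N Ds).n = N := length_inNames N

theorem cc_env (h : DOk N Ds) {x : List Bool} (hx : x.length = N) {q : ℕ}
    (hq : q < Ds.length) :
    cenv (inNames N) (toG 1 (cblocks β₁ β₂ N Ds)) (ws 5 (List.range Ds.length)) x (5, q) =
      cv β₁ β₂ (fun i => x.getD i false) (Ds.getD q (false, [])) := by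
  have hx' : x.length = (inNames N).length := by rw [length_inNames, hx]
  have hE := compile_sat (cc_wf (β₁ := β₁) (β₂ := β₂) h)
    (fun o ho => cc_outs (N := N) (Ds := Ds) (o := o) ho) hx'
  set E := cenv (inNames N) (toG 1 (cblocks β₁ β₂ N Ds)) (ws 5 (List.range Ds.length)) x
    with hEdef
  have h0 : ∀ i < N, E (0, i) = x.getD i false := by
    intro i hi
    have h1 := cenv_input (outs := ws 5 (List.range Ds.length)) (cc_wf (β₁ := β₁) (β₂ := β₂) h)
      hx' (i := i) (by rw [length_inNames]; exact hi)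
    have h2 : (inNames N)[i]'(by rw [length_inNames]; exact hi) = (0, i) := by
      unfold inNames
      rw [List.getElem_map, List.getElem_range]
    rw [h2] at h1
    exact h1
  have h1 : ∀ i < N, E (1, i) = !x.getD i false := by
    intro i hi
    rw [← h0 i hi]
    exact sat_not (sat_blocks hE (i := 0) rfl i hi)
  have hlit : ∀ T : NT, (∀ p ∈ T, p.1 < N) → ((∀ r ∈ litNames T, E r = true) ↔
      T.all (lv fun i => x.getD i false) = true) := by
    intro T hT
    rw [List.all_eq_true]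
    unfold litNames
    rw [List.forall_mem_map]
    refine forall₂_congr fun p hp => ?_
    unfold lv
    cases hb : p.2 with
    | false =>
      simp only [Bool.false_eq_true, if_false]
      rw [h1 _ (hT p hp)]
      simp
    | true =>
      simp only [if_true]
      rw [h0 _ (hT p hp)]
      simp
  obtain ⟨hs, hlt⟩ := getD_ok h hq
  have e2 := sat_and (sat_blocks hE (i := 1) rfl q hq)
  have e3 := sat_and (sat_blocks hE (i := 2) rfl q hq)
  have e4 := sat_and (sat_blocks hE (i := 3) rfl q hq)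
  have e5 := sat_or (sat_blocks hE (i := 4) rfl q hq)
  change E (2, q) = true ↔ ∀ r ∈ litNames (t1 (Ds.getD q (false, []))), E r = true at e2
  change E (3, q) = true ↔ ∀ r ∈ litNames (t2 β₁ (Ds.getD q (false, []))), E r = true at e3
  change E (4, q) = true ↔ ∀ r ∈ litNames (t3 β₂ (Ds.getD q (false, []))), E r = true at e4
  change E (5, q) = true ↔ ∃ r ∈ [(2, q), (3, q), (4, q)], E r = true at e5
  rw [hlit _ (t1_ok hs hlt).2] at e2
  rw [hlit _ (t2_ok hs hlt).2] at e3
  rw [hlit _ (t3_ok hs hlt).2] at e4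
  rw [cv_eq hs, Bool.eq_iff_iff, e5, Bool.or_eq_true, Bool.or_eq_true, ← e2, ← e3, ← e4]
  simp only [List.mem_cons, List.not_mem_nil, or_false, exists_eq_or_imp, exists_eq_left]
  rw [or_assoc]

theorem cc_out (h : DOk N Ds) {x : List Bool} (hx : x.length = N) :
    (condCircuit β₁ β₂ N Ds).out x = Ds.map (cv β₁ β₂ fun i => x.getD i false) := by
  unfold condCircuit
  rw [compile_out]
  unfold ws
  rw [List.map_map]
  refine List.ext_getElem (by simp) fun q h1 h2 => ?_
  have hq : q < Ds.length := by simpa using h2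
  rw [List.getElem_map, List.getElem_map, List.getElem_range]
  have h3 := cc_env (β₁ := β₁) (β₂ := β₂) h hx hq
  rw [List.getD_eq_getElem _ _ hq] at h3
  exact h3

/-- the value of an output -/
theorem cc_conds (h : DOk N Ds) {o : ℕ} (ho : o ∈ (condCircuit β₁ β₂ N Ds).outs) :
    ∃ c ∈ Ds, ∀ x : List Bool, x.length = N →
      ((condCircuit β₁ β₂ N Ds).wires x).getD o false =
        cv β₁ β₂ (fun i => x.getD i false) c := by
  unfold condCircuit compile at ho
  dsimp only at ho
  obtain ⟨o', ho', rfl⟩ := List.mem_map.1 ho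
  obtain ⟨h1, h2⟩ := mem_ws.1 ho'
  rw [List.mem_range] at h2
  have hc : Ds.getD o'.2 (false, []) ∈ Ds := by
    rw [List.getD_eq_getElem _ _ h2]
    exact List.getElem_mem h2
  refine ⟨_, hc, fun x hx => ?_⟩
  have h3 := cc_env (β₁ := β₁) (β₂ := β₂) h hx h2
  rw [← h3]
  have e : o' = (5, o'.2) := by rw [← h1]
  rw [← e]
  rfl

/-! ### improvements and costs -/

theorem imp_val {V : Type} {X X' : V → Bool} {L : List (Cnd V)}
    (h : imp β₁ β₂ X X' L = true) :
    val ((L.map (cv β₁ β₂ X')).reverse) < val ((L.map (cv β₁ β₂ X)).reverse) := by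
  induction L with
  | nil => exact absurd h (by simp [imp])
  | cons c L ih =>
    have e : ∀ Y : V → Bool, val (((c :: L).map (cv β₁ β₂ Y)).reverse) =
        val ((L.map (cv β₁ β₂ Y)).reverse) + 2 ^ L.length * (cv β₁ β₂ Y c).toNat := by
      intro Y
      rw [List.map_cons, List.reverse_cons, val_append, List.length_reverse, List.length_map]
      simp [val]
    rw [e, e]
    have h4 := MPa0a715.val_lt ((L.map (cv β₁ β₂ X')).reverse)
    rw [List.length_reverse, List.length_map] at h4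
    rw [imp_cons] at h
    by_cases h1 : cv β₁ β₂ X c = true <;> by_cases h2 : cv β₁ β₂ X' c = true
    · rw [if_pos h1, h2] at h
      simp only [Bool.not_true, Bool.false_or] at h
      rw [h1, h2]
      have := ih h
      omega
    · rw [Bool.not_eq_true] at h2
      rw [h1, h2]
      simp only [Bool.toNat_false, Bool.toNat_true, Nat.mul_zero, Nat.mul_one]
      omega
    · rw [if_neg h1, h2] at h
      simp at h
    · rw [Bool.not_eq_true] at h1 h2
      rw [if_neg (by simp [h1]), h2] at h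
      simp only [Bool.not_false, Bool.true_and] at h
      rw [h1, h2]
      have := ih h
      omega

end

end Pool.Agent.MPa0a715.OD
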