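import Pool.Agent.Lib.MP_a0a715_lc_OD.Corr2
import Pool.Agent.Lib.MP_a0a715_lc_OD.DC
import Pool.Agent.Lib.MP_a0a715_lc_TL.Red

/-!
# The reduction for functions with pattern
-/

namespace Pool.Agent.MPa0a715.OD

open Pool.Agent.MPa0a715 Pool.Agent.PolyTime
open Pool.Agent.MPa0a715.TL (termCircuit tc_out tc_n)

/-! ### normal forms of conjunctions -/

/-- normal form of a conjunction of two literals -/
def n2 (p q : ℕ × Bool) : NT := if p.1 = q.1 then (if p.2 = q.2 then [p] else []) else [p, q]

/-- normal form of a conjunction of three literals -/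
def n3 (p q r : ℕ × Bool) : NT :=
  if p.1 = q.1 then (if p.2 = q.2 then n2 q r else []) else
  if p.1 = r.1 then (if p.2 = r.2 then n2 p q else []) else
  if q.1 = r.1 then (if q.2 = r.2 then n2 p q else []) else [p, q, r]

/-- normal form of a conjunction of at most three literals; the empty list if it is false -/
def nT : NT → NT
  | [] => []
  | [p] => [p]
  | [p, q] => n2 p q
  | [p, q, r] => n3 p q r
  | _ => []

theorem n2_sub {p q r : ℕ × Bool} (h : r ∈ n2 p q) : r = p ∨ r = q := by
  unfold n2 at h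
  split_ifs at h
  · simp at h
    exact Or.inl h
  · simp at h
  · simpa using h

theorem n2_ok (p q : ℕ × Bool) : (n2 p q).length ≤ 2 ∧ ((n2 p q).map Prod.fst).Nodup := by
  unfold n2
  split_ifs with h1 h2
  · simp
  · simp
  · simp [h1]

theorem n2_iff (X : ℕ → Bool) (p q : ℕ × Bool) :
    (n2 p q ≠ [] ∧ ∀ r ∈ n2 p q, X r.1 = r.2) ↔ (X p.1 = p.2 ∧ X q.1 = q.2) := by
  obtain ⟨p1, p2⟩ := p
  obtain ⟨q1, q2⟩ := q
  unfold n2
  split_ifs with h1 h2
  · dsimp only at h1 h2
    subst h1 h2
    simp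
  · dsimp only at h1 h2
    subst h1
    simp only [ne_eq, not_true_eq_false, false_and, false_iff]
    rintro ⟨h3, h4⟩
    exact h2 (h3.symm.trans h4)
  · simp

theorem n3_sub {p q r s : ℕ × Bool} (h : s ∈ n3 p q r) : s = p ∨ s = q ∨ s = r := by
  unfold n3 at h
  split_ifs at h
  · exact Or.inr (n2_sub h)
  · simp at h
  · rcases n2_sub h with h | h
    · exact Or.inl h
    · exact Or.inr (Or.inl h)
  · simp at h
  · rcases n2_sub h with h | h
    · exact Or.inl h
    · exact Or.inr (Or.inl h)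
  · simp at h
  · simpa using h

theorem n3_ok (p q r : ℕ × Bool) : (n3 p q r).length ≤ 3 ∧ ((n3 p q r).map Prod.fst).Nodup := by
  unfold n3
  split_ifs with h1 h2 h3 h4 h5 h6
  · exact ⟨(n2_ok q r).1.trans (by omega), (n2_ok q r).2⟩
  · simp
  · exact ⟨(n2_ok p q).1.trans (by omega), (n2_ok p q).2⟩
  · simp
  · exact ⟨(n2_ok p q).1.trans (by omega), (n2_ok p q).2⟩
  · simp
  · simp [h1, h3, h5]

theorem n3_iff (X : ℕ → Bool) (p q r : ℕ × Bool) :
    (n3 p q r ≠ [] ∧ ∀ s ∈ n3 p q r, X s.1 = s.2) ↔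
      (X p.1 = p.2 ∧ X q.1 = q.2 ∧ X r.1 = r.2) := by
  have hbad : ∀ a b : ℕ × Bool, a.1 = b.1 → a.2 ≠ b.2 → ¬ (X a.1 = a.2 ∧ X b.1 = b.2) := by
    rintro ⟨a1, a2⟩ ⟨b1, b2⟩ h1 h2 ⟨h3, h4⟩
    dsimp only at h1 h2 h3 h4
    subst h1
    exact h2 (h3.symm.trans h4)
  unfold n3
  split_ifs with h1 h2 h3 h4 h5 h6
  · rw [n2_iff, h1, h2]
    tauto
  · have := hbad p q h1 h2
    simp only [ne_eq, not_true_eq_false, false_and, false_iff]
    tauto
  · rw [n2_iff, h3, h4]
    tauto
  · have := hbad p r h3 h4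
    simp only [ne_eq, not_true_eq_false, false_and, false_iff]
    tauto
  · rw [n2_iff, ← h5, ← h6]
    tauto
  · have := hbad q r h5 h6
    simp only [ne_eq, not_true_eq_false, false_and, false_iff]
    tauto
  · simp

theorem nT_sub {T : NT} {s : ℕ × Bool} (h : s ∈ nT T) : s ∈ T := by
  match T, h with
  | [], h => exact h
  | [p], h => exact h
  | [p, q], h => simpa using n2_sub h
  | [p, q, r], h => simpa using n3_sub h
  | p :: q :: r :: s :: T, h => exact absurd h List.not_mem_nil

theorem nT_ok (T : NT) : (nT T).length ≤ 3 ∧ ((nT T).map Prod.fst).Nodup := by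
  match T with
  | [] => simp [nT]
  | [p] => simp [nT]
  | [p, q] => exact ⟨(n2_ok p q).1.trans (by omega), (n2_ok p q).2⟩
  | [p, q, r] => exact n3_ok p q r
  | p :: q :: r :: s :: T => simp [nT]

theorem nT_iff (X : VV → Bool) {T : NT} (h0 : T ≠ []) (h : T.length ≤ 3) :
    tU X (nT T) ↔ ∀ p ∈ T, X (0, p.1) = p.2 := by
  match T, h0, h with
  | [], h0, _ => exact absurd rfl h0
  | [p], _, _ => simp [tU, nT]
  | [p, q], _, _ =>
    have := n2_iff (fun i => X (0, i)) p q
    unfold tU nT
    rw [this]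
    simp
  | [p, q, r], _, _ =>
    have := n3_iff (fun i => X (0, i)) p q r
    unfold tU nT
    rw [this]
    simp
  | p :: q :: r :: s :: T, _, h =>
    simp only [List.length_cons] at h
    omega

/-! ### numbers of variables -/

/-- number of a variable -/
def nm (B : ℕ) (v : VV) : ℕ := v.1 * B + v.2

/-- the condition, with numbers of variables -/
def numC (B : ℕ) (c : CV) : Cnd ℕ := (c.1, c.2.map fun p => (nm B p.1, p.2))

theorem nm_lt {B : ℕ} {v : VV} (h1 : v.1 < 14) (h2 : v.2 < B) : nm B v < 14 * B := by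
  unfold nm
  calc v.1 * B + v.2 < v.1 * B + B := by omega
    _ = (v.1 + 1) * B := by ring
    _ ≤ 14 * B := Nat.mul_le_mul_right _ h1

theorem nm_inj {B : ℕ} {v w : VV} (h1 : v.2 < B) (h2 : w.2 < B) (h : nm B v = nm B w) :
    v = w := by
  unfold nm at h
  have hB : 0 < B := by omega
  have e1 : v.1 = w.1 := by
    have := congrArg (· / B) h
    simpa [Nat.add_comm (_ * B), Nat.add_mul_div_right _ _ hB, Nat.div_eq_of_lt h1,
      Nat.div_eq_of_lt h2] using this
  refine Prod.ext e1 ?_
  rw [e1] at h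
  omega

section
variable {β₁ β₂ : Bool}

theorem cv_numC (Y : ℕ → Bool) (B : ℕ) (c : CV) :
    cv β₁ β₂ Y (numC B c) = cv β₁ β₂ (fun v => Y (nm B v)) c := by
  obtain ⟨t, L⟩ := c
  match t, L with
  | false, L =>
    change (L.map _).all (lv Y) = L.all _
    rw [List.all_map]
    rfl
  | true, [] => rfl
  | true, [a] => rfl
  | true, [a, b] => rfl
  | true, [a, b, c] => rfl
  | true, a :: b :: c :: d :: L => rfl

/-! ### shapes and bounds -/

/-- the variables are in range -/
def InB (B : ℕ) (v : VV) : Prop := v.1 < 14 ∧ v.2 < B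

/-- the conditions are in order -/
def COk (B : ℕ) (L : List CV) : Prop := ∀ c ∈ L, Shape c ∧ ∀ p ∈ c.2, InB B p.1

theorem COk.append {B : ℕ} {L L' : List CV} (h : COk B L) (h' : COk B L') :
    COk B (L ++ L') := by
  intro c hc
  rcases List.mem_append.1 hc with hc | hc
  · exact h c hc
  · exact h' c hc

theorem cok_gd {B : ℕ} {g : VV} {L : List (VV × Bool)} (hg : InB B g)
    (hL : ∀ p ∈ L, InB B p.1) : COk B (gd g L) := by
  intro c hc
  unfold gd at hc
  rcases List.mem_append.1 hc with hc | hc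
  · obtain ⟨q, hq, rfl⟩ := List.mem_map.1 hc
    refine ⟨Or.inl ⟨rfl, Or.inr rfl⟩, ?_⟩
    intro p hp
    simp only [List.mem_cons, List.not_mem_nil, or_false] at hp
    rcases hp with rfl | rfl
    · exact hg
    · exact hL q hq
  · rw [List.mem_singleton] at hc
    subst hc
    refine ⟨Or.inl ⟨rfl, Or.inl rfl⟩, ?_⟩
    intro p hp
    rw [List.mem_singleton] at hp
    subst hp
    exact hg

theorem cok_pG {B κ m : ℕ} {L : ℕ → List (VV × Bool)} (hκ : κ < 14) (hm : m ≤ B)
    (hL : ∀ k < m, ∀ p ∈ L k, InB B p.1) : COk B (pG κ m L) := by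
  intro c hc
  obtain ⟨k, hk, hc⟩ := List.mem_flatMap.1 hc
  rw [List.mem_range] at hk
  exact cok_gd ⟨hκ, by show k < B; omega⟩ (hL k hk) c hc

theorem hard_shape : ∀ c ∈ hardL, (c.1 = false ∧ (c.2.length = 1 ∨ c.2.length = 2)) ∨
    (c.1 = true ∧ c.2.length = 3) := by decide

theorem soft_shape : ∀ c ∈ softL, (c.1 = false ∧ (c.2.length = 1 ∨ c.2.length = 2)) ∨
    (c.1 = true ∧ c.2.length = 3) := by decide

theorem mp_shape {ρ : ℕ → VV × Bool} {c : Cnd ℕ} (h : Shape c) : Shape (mp ρ c) := by
  unfold Shape mp at *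
  simpa using h

theorem numC_shape {B : ℕ} {c : CV} (h : Shape c) : Shape (numC B c) := by
  unfold Shape numC at *
  simpa using h

variable {N : ℕ} {Us : List NT}

theorem uu_mem (hU : UOk N Us) {k : ℕ} {p : ℕ × Bool} (hp : p ∈ uu Us k) : p.1 < N := by
  unfold uu at hp
  by_cases h : k / 3 < Us.length
  · exact (hU _ (mem_Us h)).2.2 p hp
  · rw [List.getD_eq_default _ _ (by omega)] at hp
    exact absurd hp List.not_mem_nil

theorem rt_lt (hU : UOk N Us) (k j : ℕ) : (rt Us k j).1 < N + 3 * Us.length + 1 := by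
  unfold rt
  by_cases h : (k + j) % 3 < (uu Us k).length
  · have := uu_mem hU (k := k) (p := (uu Us k).getD ((k + j) % 3) (0, false)) (by
      rw [List.getD_eq_getElem _ _ h]
      exact List.getElem_mem h)
    omega
  · rw [List.getD_eq_default _ _ (by omega)]
    show 0 < _
    omega

theorem up_in {B : ℕ} (hB : N ≤ B) {U : NT} (h : ∀ p ∈ U, p.1 < N) :
    ∀ p ∈ up U, InB B p.1 := by
  intro p hp
  unfold up at hp
  obtain ⟨q, hq, rfl⟩ := List.mem_map.1 hp
  have := h q hq
  exact ⟨by simp, by show q.1 < B; omega⟩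

theorem rho_in (hU : UOk N Us) {k i : ℕ} (hk : k < 3 * Us.length) (hi : i < 14) :
    InB (N + 3 * Us.length + 1) (rho Us k i).1 := by
  unfold rho
  split_ifs
  · exact ⟨by simp, rt_lt hU _ _⟩
  · exact ⟨by simp, rt_lt hU _ _⟩
  · exact ⟨hi, by show k < _; omega⟩

theorem cok_mp (hU : UOk N Us) {k : ℕ} (hk : k < 3 * Us.length) {L : List (Cnd ℕ)}
    (hL : ∀ c ∈ L, Shape c ∧ ∀ p ∈ c.2, p.1 < 14) :
    COk (N + 3 * Us.length + 1) (L.map (mp (rho Us k))) := by
  intro c hc
  obtain ⟨c', hc', rfl⟩ := List.mem_map.1 hc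
  refine ⟨mp_shape (hL c' hc').1, ?_⟩
  intro p hp
  unfold mp at hp
  obtain ⟨q, hq, rfl⟩ := List.mem_map.1 hp
  exact rho_in hU hk ((hL c' hc').2 q hq)

theorem cok_hd (hU : UOk N Us) {k : ℕ} (hk : k < 3 * Us.length) :
    COk (N + 3 * Us.length + 1) (hd Us k) :=
  cok_mp hU hk fun c hc => ⟨hard_shape c hc, fun p hp =>
    lists_lt c (List.mem_append_left _ hc) p hp⟩

theorem cok_sd (hU : UOk N Us) {k : ℕ} (hk : k < 3 * Us.length) :
    COk (N + 3 * Us.length + 1) (sd Us k) :=
  cok_mp hU hk fun c hc => ⟨soft_shape c hc, fun p hp =>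
    lists_lt c (List.mem_append_right _ hc) p hp⟩

theorem cok_conds (hU : UOk N Us) : COk (N + 3 * Us.length + 1) (conds Us N) := by
  unfold conds
  refine COk.append ?_ (COk.append ?_ (COk.append ?_ (COk.append ?_ (COk.append ?_
    (COk.append ?_ (COk.append ?_ ?_))))))
  · -- conjunctions
    intro c hc
    obtain ⟨q, hq, hc⟩ := List.mem_flatMap.1 hc
    rw [List.mem_range] at hq
    unfold blk at hc
    split_ifs at hc with h1 h2
    · exact (cok_hd hU (by omega)).append ((cok_hd hU (by omega)).append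
        (cok_hd hU (by omega))) c hc
    · exact absurd hc List.not_mem_nil
    · rw [List.mem_singleton] at hc
      subst hc
      have h3 := hU _ (mem_Us hq)
      refine ⟨Or.inl ⟨rfl, ?_⟩, up_in (by omega) h3.2.2⟩
      unfold up
      rw [List.length_map]
      omega
  · refine cok_pG (by omega) (by omega) fun k _ => ?_
    intro p hp
    unfold restL at hp
    refine up_in (by omega) (U := _) (N := N) ?_ p hp
    intro q hq
    exact uu_mem hU (List.mem_filter.1 hq).1
  · refine cok_pG (by omega) (by omega) fun k hk => ?_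
    intro p hp
    unfold fixL at hp
    split_ifs at hp
    · rcases List.mem_append.1 hp with hp | hp
      · exact up_in (by omega) (fun q hq => uu_mem hU hq) p hp
      · obtain ⟨k', hk', rfl⟩ := List.mem_map.1 hp
        have := List.mem_range.1 (List.mem_filter.1 hk').1
        exact ⟨by simp, by show k' < _; omega⟩
    · simp only [List.mem_cons, List.not_mem_nil, or_false] at hp
      rcases hp with rfl | rfl
      · exact ⟨by simp, by simp⟩
      · exact ⟨by simp, by simp⟩
  · refine cok_pG (by omega) (by omega) fun k hk => ?_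
    intro p hp
    unfold selL at hp
    rcases List.mem_cons.1 hp with rfl | hp
    · exact ⟨by simp, by show k < _; omega⟩
    · obtain ⟨k', hk', rfl⟩ := List.mem_map.1 hp
      rw [List.mem_range] at hk'
      exact ⟨by simp, by show k' < _; omega⟩
  · refine cok_pG (by omega) (by omega) fun k hk => ?_
    intro p hp
    unfold naL at hp
    obtain ⟨k', hk', rfl⟩ := List.mem_map.1 hp
    have := List.mem_range.1 (List.mem_filter.1 hk').1
    exact ⟨by simp, by show k' < _; omega⟩
  · refine cok_pG (by omega) (by omega) fun k hk => ?_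
    intro p hp
    unfold mcaL at hp
    simp only [List.mem_cons, List.not_mem_nil, or_false] at hp
    rcases hp with rfl | rfl
    · exact ⟨by simp, rt_lt hU _ _⟩
    · exact ⟨by simp, rt_lt hU _ _⟩
  · refine cok_pG (by omega) (by omega) fun k hk => ?_
    intro p hp
    unfold mcbL at hp
    simp only [List.mem_cons, List.not_mem_nil, or_false] at hp
    rcases hp with rfl | rfl
    · exact ⟨by simp, rt_lt hU _ _⟩
    · exact ⟨by simp, rt_lt hU _ _⟩
  · intro c hc
    obtain ⟨q, hq, hc⟩ := List.mem_flatMap.1 hc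
    rw [List.mem_range] at hq
    unfold sbk at hc
    split_ifs at hc with h1
    · exact (cok_sd hU (by omega)).append ((cok_sd hU (by omega)).append
        (cok_sd hU (by omega))) c hc
    · exact absurd hc List.not_mem_nil

end

/-! ### the circuit -/

/-- the normalised conjunctions, the most important one first -/
def nUs (Ts : List NT) : List NT := (Ts.map nT).reverse

/-- bound for the second part of the numbers of variables -/
def bB (N : ℕ) (Ts : List NT) : ℕ := N + 3 * Ts.length + 1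

/-- the conditions of the circuit, the least important one first -/
def uDs (N : ℕ) (Ts : List NT) : List (Cnd ℕ) :=
  ((conds (nUs Ts) N).map (numC (bB N Ts))).reverse

/-- the circuit -/
def uC (β₁ β₂ : Bool) (N : ℕ) (Ts : List NT) : Circuit :=
  condCircuit β₁ β₂ (14 * bB N Ts) (uDs N Ts)

section
variable {β₁ β₂ : Bool} {N : ℕ} {Ts : List NT}

/-- the given conjunctions are in order -/
def TOk (N : ℕ) (Ts : List NT) : Prop := ∀ T ∈ Ts, (T ≠ [] ∧ ∀ p ∈ T, p.1 < N) ∧ T.length ≤ 3

theorem length_nUs : (nUs Ts).length = Ts.length := by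
  unfold nUs
  simp

theorem nUs_ok (h : TOk N Ts) : UOk N (nUs Ts) := by
  intro U hU
  unfold nUs at hU
  rw [List.mem_reverse] at hU
  obtain ⟨T, hT, rfl⟩ := List.mem_map.1 hU
  exact ⟨(nT_ok T).1, (nT_ok T).2, fun p hp => (h T hT).1.2 p (nT_sub hp)⟩

theorem uDs_ok (h : TOk N Ts) : DOk (14 * bB N Ts) (uDs N Ts) := by
  intro c hc
  unfold uDs at hc
  rw [List.mem_reverse] at hc
  obtain ⟨c', hc', rfl⟩ := List.mem_map.1 hc
  obtain ⟨h1, h2⟩ := cok_conds (nUs_ok h) c' hc'
  refine ⟨numC_shape h1, ?_⟩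
  intro p hp
  unfold numC at hp
  obtain ⟨q, hq, rfl⟩ := List.mem_map.1 hp
  obtain ⟨h3, h4⟩ := h2 q hq
  rw [length_nUs] at h4
  exact nm_lt h3 h4

theorem uC_valid (h : TOk N Ts) : (uC β₁ β₂ N Ts).Valid := cc_valid (uDs_ok h)

theorem uC_n : (uC β₁ β₂ N Ts).n = 14 * bB N Ts := cc_n

/-- local minima have no improvement -/
theorem uC_min (h : TOk N Ts) {s : List Bool} (hs : (uC β₁ β₂ N Ts).IsLocalMin s) :
    Mn β₁ β₂ N (nUs Ts) (fun v => s.getD (nm (bB N Ts) v) false) := by
  obtain ⟨hl, hmin⟩ := hs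
  rw [uC_n] at hl hmin
  intro v hv1 hv2
  rw [length_nUs] at hv2
  change v.2 < bB N Ts at hv2
  have hok := cok_conds (nUs_ok h)
  rw [length_nUs] at hok
  change COk (bB N Ts) _ at hok
  by_contra hcon
  rw [Bool.not_eq_false] at hcon
  set i := nm (bB N Ts) v with hi
  have hiN : i < 14 * bB N Ts := nm_lt hv1 hv2
  -- the flipped state
  have e1 : imp β₁ β₂ (fun v => s.getD (nm (bB N Ts) v) false)
      (fun v => (flip s i).getD (nm (bB N Ts) v) false) (conds (nUs Ts) N) = true := by
    rw [← hcon]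
    refine imp_congr (fun _ _ => rfl) fun c hc => cv_congr fun p hp => ?_
    obtain ⟨h1, h2⟩ := (hok c hc).2 p hp
    rw [getD_flip _ _ _ (by rw [hl]; exact nm_lt h1 h2)]
    by_cases e : p.1 = v
    · rw [e, if_pos rfl, flv_self]
    · rw [if_neg fun e' => e (nm_inj h2 hv2 e'.symm), flv_ne _ e]
  have e2 : imp β₁ β₂ (fun i => s.getD i false) (fun j => (flip s i).getD j false)
      ((conds (nUs Ts) N).map (numC (bB N Ts))) = true := by
    rw [← e1]
    have aux : ∀ (L : List CV) (Y Y' : ℕ → Bool),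
        imp β₁ β₂ Y Y' (L.map (numC (bB N Ts))) = imp β₁ β₂ (fun v => Y (nm (bB N Ts) v))
          (fun v => Y' (nm (bB N Ts) v)) L := by
      intro L Y Y'
      induction L with
      | nil => rfl
      | cons c L ih =>
        rw [List.map_cons, imp_cons, imp_cons, cv_numC, cv_numC, ih]
    exact aux _ _ _
  have e3 := imp_val e2
  have e4 := hmin i hiN
  rw [Circuit.cost_eq, Circuit.cost_eq] at e4
  unfold uC at e4
  rw [cc_out (uDs_ok h) hl, cc_out (uDs_ok h) (by rw [length_flip]; exact hl)] at e4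
  unfold uDs at e4
  rw [List.map_reverse, List.map_reverse] at e4
  omega

theorem nUs_getD {q : ℕ} (hq : q < Ts.length) :
    (nUs Ts).getD q [] = nT (Ts.getD (Ts.length - 1 - q) []) := by
  unfold nUs
  rw [List.getD_eq_getElem _ _ (by simpa using hq), List.getElem_reverse, List.getElem_map,
    List.getD_eq_getElem _ _ (by omega)]
  simp

theorem red_min (h : TOk N Ts) {s : List Bool} (hs : (uC β₁ β₂ N Ts).IsLocalMin s) :
    (termCircuit N Ts).IsLocalMin (s.take N) := by
  have hM := uC_min h hs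
  obtain ⟨hl, -⟩ := hs
  rw [uC_n] at hl
  have hNB : N < bB N Ts := by unfold bB; omega
  have hlt : (s.take N).length = N := by
    rw [List.length_take, hl]
    omega
  refine ⟨by rw [hlt, tc_n], ?_⟩
  intro i hi
  rw [tc_n] at hi
  by_contra hcon
  rw [not_le, Circuit.cost_eq, Circuit.cost_eq] at hcon
  have hval : val ((termCircuit N Ts).out (flip (s.take N) i)) <
      val ((termCircuit N Ts).out (s.take N)) := by omega
  have h' : ∀ T ∈ Ts, T ≠ [] ∧ ∀ p ∈ T, p.1 < N := fun T hT => (h T hT).1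
  rw [tc_out h' hlt, tc_out h' (by rw [length_flip]; exact hlt),
    MPa0a715.val_lt_iff _ _ (by rw [List.length_map, List.length_map])] at hval
  obtain ⟨r, hr, h1, h2, h3⟩ := hval
  rw [List.length_map] at hr h3
  set X : VV → Bool := fun v => s.getD (nm (bB N Ts) v) false with hX
  -- bits
  have hget : ∀ (x : List Bool) (r : ℕ), r < Ts.length →
      (Ts.map fun T => decide (∀ p ∈ T, x.getD p.1 false = p.2)).getD r false =
        decide (∀ p ∈ Ts.getD r [], x.getD p.1 false = p.2) := by
    intro x r hr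
    rw [List.getD_eq_getElem _ _ (by rw [List.length_map]; exact hr), List.getElem_map,
      List.getD_eq_getElem _ _ hr]
  have hXs : ∀ j < N, (s.take N).getD j false = X (0, j) := by
    intro j hj
    change _ = s.getD (nm (bB N Ts) (0, j)) false
    unfold nm
    rw [Nat.zero_mul, Nat.zero_add, List.getD_eq_getElem _ _ (by rw [hlt]; exact hj),
      List.getElem_take, List.getD_eq_getElem _ _ (by omega)]
  have hXf : ∀ j < N, (flip (s.take N) i).getD j false = flv X (0, i) (0, j) := by
    intro j hj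
    rw [getD_flip _ _ _ (by rw [hlt]; exact hj)]
    by_cases e : i = j
    · rw [if_pos e, ← e, flv_self, hXs i hi]
    · rw [if_neg e, flv_ne _ (fun e' => e (congrArg Prod.snd e').symm), hXs j hj]
  have hmemT : ∀ r < Ts.length, Ts.getD r [] ∈ Ts := by
    intro r hr
    rw [List.getD_eq_getElem _ _ hr]
    exact List.getElem_mem hr
  have key1 : ∀ q < Ts.length, (tU X ((nUs Ts).getD q []) ↔
      ((Ts.map fun T => decide (∀ p ∈ T, (s.take N).getD p.1 false = p.2)).getD
        (Ts.length - 1 - q) false = true)) := by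
    intro q hq
    have hT := h _ (hmemT (Ts.length - 1 - q) (by omega))
    rw [nUs_getD hq, nT_iff X hT.1.1 hT.2, hget _ _ (by omega), decide_eq_true_eq]
    exact forall₂_congr fun p hp => by rw [hXs _ (hT.1.2 p hp)]
  have key2 : ∀ q < Ts.length, (tU (flv X (0, i)) ((nUs Ts).getD q []) ↔
      ((Ts.map fun T => decide (∀ p ∈ T, (flip (s.take N) i).getD p.1 false = p.2)).getD
        (Ts.length - 1 - q) false = true)) := by
    intro q hq
    have hT := h _ (hmemT (Ts.length - 1 - q) (by omega))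
    rw [nUs_getD hq, nT_iff _ hT.1.1 hT.2, hget _ _ (by omega), decide_eq_true_eq]
    exact forall₂_congr fun p hp => by rw [hXf _ (hT.1.2 p hp)]
  have hq : Ts.length - 1 - (Ts.length - 1 - r) = r := by omega
  refine main (nUs_ok h) hM (x := i) (q := Ts.length - 1 - r) (by rw [length_nUs]; omega)
    ?_ ?_ ?_
  · rw [key1 _ (by omega), hq]
    exact h2
  · rw [key2 _ (by omega), hq, h1]
    simp
  · intro q' hq' ht
    rw [key2 _ (by omega)] at ht
    rw [key1 _ (by omega)]
    rw [← h3 _ (by omega) (by omega)]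
    exact ht

end

end Pool.Agent.MPa0a715.OD
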