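import Pool.Agent.Lib.MP_a0a715_lc_OD.Alts
import Pool.Agent.Lib.MP_a0a715_lc_TL.TwoSat
import Pool.Agent.Lib.MP_a0a715_lc.Copies

/-!
# The solver for functions without pattern
-/

namespace Pool.Agent.MPa0a715.OD

open Pool.Agent.MPa0a715
open Pool.Agent.MPa0a715.TL (sat sat_iff)

/-! ### satisfiability of clauses -/

/-- the values of the forbidden conjunctions -/
def vk (K : List NT) (x : List Bool) : List Bool := K.map fun c => c.all (lv fun i => x.getD i false)

/-- decision procedure -/
def sol (n : ℕ) (K : List NT) : Bool := sat n (vk K) (List.range K.length)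

/-- the clauses are short -/
def Short (n : ℕ) (K : List NT) : Prop := ∀ c ∈ K, c.length ≤ 2 ∧ ∀ p ∈ c, p.1 < n

theorem Short.append {n : ℕ} {K K' : List NT} (h : Short n K) (h' : Short n K') :
    Short n (K ++ K') := by
  intro c hc
  rcases List.mem_append.1 hc with hc | hc
  · exact h c hc
  · exact h' c hc

theorem vk_getD {K : List NT} {x : List Bool} {t : ℕ} (ht : t < K.length) :
    (vk K x).getD t false = (K.getD t []).all (lv fun i => x.getD i false) := by
  unfold vk
  rw [List.getD_eq_getElem _ _ (by simpa using ht), List.getElem_map,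
    List.getD_eq_getElem K _ ht]

theorem sol_iff {n : ℕ} (hn : 0 < n) {K : List NT} (hK : Short n K) :
    sol n K = true ↔ ∃ x : List Bool, x.length = n ∧ Ok K x := by
  unfold sol
  rw [sat_iff hn (fun t => K.getD t [])]
  · refine exists_congr fun x => and_congr_right fun _ => ?_
    constructor
    · intro h c hc
      obtain ⟨t, ht, rfl⟩ := List.getElem_of_mem hc
      have := h t (List.mem_range.2 ht)
      rw [vk_getD ht, List.getD_eq_getElem K _ ht] at this
      exact this
    · intro h t ht
      rw [List.mem_range] at ht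
      rw [vk_getD ht, List.getD_eq_getElem K _ ht]
      exact h _ (List.getElem_mem ht)
  · intro t ht
    rw [List.mem_range] at ht
    have h1 := hK (K.getD t []) (by
      rw [List.getD_eq_getElem _ _ ht]
      exact List.getElem_mem ht)
    refine ⟨h1.1, h1.2, fun x _ => ?_⟩
    rw [vk_getD ht, List.all_eq_true]
    refine forall₂_congr fun p _ => ?_
    unfold lv
    rw [beq_iff_eq]

/-! ### the greedy procedure -/

/-- add the first consistent alternative -/
def pick (n : ℕ) (Z : List NT) (A : List (List NT)) : List NT :=
  match A.find? (fun K => sol n (K ++ Z)) with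
  | none => Z
  | some K => K ++ Z

theorem pick_cases (n : ℕ) (Z : List NT) (A : List (List NT)) :
    (pick n Z A = Z ∧ ∀ K ∈ A, sol n (K ++ Z) = false) ∨
    ∃ K ∈ A, pick n Z A = K ++ Z ∧ sol n (K ++ Z) = true := by
  unfold pick
  cases h : A.find? (fun K => sol n (K ++ Z)) with
  | none =>
    left
    rw [List.find?_eq_none] at h
    refine ⟨rfl, fun K hK => ?_⟩
    have := h K hK
    rwa [Bool.not_eq_true] at this
  | some K =>
    right
    exact ⟨K, List.mem_of_find?_eq_some h, rfl,
      List.find?_some (p := fun K => sol n (K ++ Z)) h⟩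

/-- all steps -/
def grd (n : ℕ) (L : List (List (List NT))) : List NT := L.foldl (pick n) []

theorem foldl_mono (n : ℕ) (L : List (List (List NT))) (Z : List NT) :
    ∀ c ∈ Z, c ∈ L.foldl (pick n) Z := by
  induction L generalizing Z with
  | nil => intro c hc; exact hc
  | cons A L ih =>
    intro c hc
    rw [List.foldl_cons]
    refine ih _ c ?_
    rcases pick_cases n Z A with ⟨h, -⟩ | ⟨K, -, h, -⟩
    · rw [h]
      exact hc
    · rw [h]
      exact List.mem_append_right _ hc

/-- every clause comes from an alternative that is used completely -/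
theorem foldl_from (n : ℕ) (L : List (List (List NT))) (Z : List NT) :
    ∀ c ∈ L.foldl (pick n) Z, c ∈ Z ∨ ∃ A ∈ L, ∃ K ∈ A, c ∈ K ∧ ∀ d ∈ K, d ∈ L.foldl (pick n) Z := by
  induction L generalizing Z with
  | nil => intro c hc; exact Or.inl hc
  | cons A L ih =>
    intro c hc
    rw [List.foldl_cons] at hc ⊢
    rcases ih _ c hc with h | ⟨A', hA', K, hK, hcK, hd⟩
    · rcases pick_cases n Z A with ⟨h1, -⟩ | ⟨K, hK, h1, -⟩
      · rw [h1] at h
        exact Or.inl h
      · rw [h1] at h
        rcases List.mem_append.1 h with h | h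
        · right
          refine ⟨A, List.mem_cons_self, K, hK, h, fun d hd => ?_⟩
          refine foldl_mono n L _ d ?_
          rw [h1]
          exact List.mem_append_left _ hd
        · exact Or.inl h
    · exact Or.inr ⟨A', List.mem_cons_of_mem _ hA', K, hK, hcK, hd⟩

section
variable {n : ℕ} (hn : 0 < n)

include hn

/-- the alternatives are short -/
theorem foldl_short {L : List (List (List NT))} (hL : ∀ A ∈ L, ∀ K ∈ A, Short n K) {Z : List NT}
    (hZ : Short n Z) : Short n (L.foldl (pick n) Z) := by
  intro c hc
  rcases foldl_from n L Z c hc with h | ⟨A, hA, K, hK, hcK, -⟩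
  · exact hZ c h
  · exact hL A hA K hK c hcK

theorem foldl_sat {L : List (List (List NT))} (hL : ∀ A ∈ L, ∀ K ∈ A, Short n K) {Z : List NT}
    (hZ : Short n Z) (h : ∃ x : List Bool, x.length = n ∧ Ok Z x) :
    ∃ x : List Bool, x.length = n ∧ Ok (L.foldl (pick n) Z) x := by
  induction L generalizing Z with
  | nil => exact h
  | cons A L ih =>
    rw [List.foldl_cons]
    have hL' : ∀ A ∈ L, ∀ K ∈ A, Short n K := fun A' hA' => hL A' (List.mem_cons_of_mem _ hA')
    rcases pick_cases n Z A with ⟨h1, -⟩ | ⟨K, hK, h1, h2⟩
    · rw [h1]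
      exact ih hL' hZ h
    · rw [h1]
      have hs : Short n (K ++ Z) := (hL A List.mem_cons_self K hK).append hZ
      exact ih hL' hs ((sol_iff hn hs).1 h2)

/-- an alternative is used if one of them is consistent -/
theorem foldl_used {L1 L2 : List (List (List NT))} {A : List (List NT)}
    (hL : ∀ A ∈ L1, ∀ K ∈ A, Short n K) (hA : ∀ K ∈ A, Short n K)
    (h : ∃ K ∈ A, ∃ x : List Bool, x.length = n ∧ Ok K x ∧ Ok (grd n L1) x) :
    ∃ K ∈ A, ∀ c ∈ K, c ∈ grd n (L1 ++ A :: L2) := by
  have hs1 : Short n (grd n L1) := foldl_short hn hL (fun c hc => absurd hc List.not_mem_nil)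
  have e : grd n (L1 ++ A :: L2) = L2.foldl (pick n) (pick n (grd n L1) A) := by
    unfold grd
    rw [List.foldl_append, List.foldl_cons]
  rw [e]
  rcases pick_cases n (grd n L1) A with ⟨-, h1⟩ | ⟨K, hK, h1, -⟩
  · obtain ⟨K, hK, x, hx, hx1, hx2⟩ := h
    exfalso
    have h2 := h1 K hK
    have h3 : sol n (K ++ grd n L1) = true := by
      rw [sol_iff hn ((hA K hK).append hs1)]
      refine ⟨x, hx, ?_⟩
      intro c hc
      rcases List.mem_append.1 hc with hc | hc
      · exact hx1 c hc
      · exact hx2 c hc
    rw [h2] at h3
    exact absurd h3 (by simp)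
  · refine ⟨K, hK, fun c hc => foldl_mono n L2 _ c ?_⟩
    rw [h1]
    exact List.mem_append_left _ hc

end

/-- all alternatives, in the order of importance -/
def allAlts (r : ℕ) (Rs : List Rec) (C : Circuit) : List (List (List NT)) :=
  C.outs.reverse.map (alts r Rs C) ++
    (List.range C.n).map fun i => [[[(i, true)]], [[(i, false)]]]

/-- the solver -/
def solver (r : ℕ) (Rs : List Rec) (C : Circuit) : List Bool :=
  (List.range C.n).map fun i => decide ([(i, false)] ∈ grd C.n (allAlts r Rs C))

theorem length_solver (r : ℕ) (Rs : List Rec) (C : Circuit) :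
    (solver r Rs C).length = C.n := by
  unfold solver
  simp

section
variable {r : ℕ} {Rs : List Rec} {Φ : List BFun} {C : Circuit}

theorem solver_correct (hΦ : ∀ φ ∈ Φ, φ.k ≤ r ∧ ¬ φ.Pattern) (hR : ∀ ρ ∈ Rs, ρ.Good ∧ ρ.m ≤ r)
    (hR' : ∀ m ≤ r, ∀ g : (Fin m → Bool) → Bool, (PF fun y => g y = false) → ∃ ρ ∈ Rs, ρ.m = m ∧
      ∀ y : List Bool, y.length = m → (y ∈ ρ.tab ↔ g (fn m y) = true))
    (hC : C.OutsIn Φ) : C.IsLocalMin (solver r Rs C) := by
  refine ⟨length_solver _ _ _, ?_⟩
  intro i hi
  have hn : 0 < C.n := by omega
  set L := allAlts r Rs C with hLdef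
  set Z := grd C.n L with hZdef
  set x := solver r Rs C with hxdef
  have hx : x.length = C.n := length_solver _ _ _
  have hfew : ∀ o ∈ C.outs, FewOut Φ C o := hC
  -- all alternatives are short
  have hS1 : ∀ A ∈ C.outs.reverse.map (alts r Rs C), ∀ K ∈ A, Short C.n K := by
    intro A hA K hK
    obtain ⟨o, -, rfl⟩ := List.mem_map.1 hA
    exact alts_short hR hK
  have hS2 : ∀ A ∈ (List.range C.n).map fun i => [[[(i, true)]], [[(i, false)]]],
      ∀ K ∈ A, Short C.n K := by
    intro A hA K hK c hc
    obtain ⟨j, hj, rfl⟩ := List.mem_map.1 hA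
    rw [List.mem_range] at hj
    simp only [List.mem_cons, List.not_mem_nil, or_false] at hK
    rcases hK with rfl | rfl
    · rw [List.mem_singleton] at hc
      subst hc
      exact ⟨by simp, by simpa using hj⟩
    · rw [List.mem_singleton] at hc
      subst hc
      exact ⟨by simp, by simpa using hj⟩
  have hS : ∀ A ∈ L, ∀ K ∈ A, Short C.n K := by
    intro A hA
    rcases List.mem_append.1 hA with hA | hA
    · exact hS1 A hA
    · exact hS2 A hA
  -- a solution of all clauses
  obtain ⟨y, hy, hyZ⟩ : ∃ y : List Bool, y.length = C.n ∧ Ok Z y :=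
    foldl_sat hn hS (fun c hc => absurd hc List.not_mem_nil)
      ⟨List.replicate C.n false, by simp, fun c hc => absurd hc List.not_mem_nil⟩
  have hxy : x = y := by
    refine ext_getD (by rw [hx, hy]) fun j hj => ?_
    rw [hx] at hj
    have e1 : x.getD j false = decide ([(j, false)] ∈ Z) := by
      rw [hxdef]
      unfold solver
      rw [List.getD_eq_getElem _ _ (by simpa using hj), List.getElem_map, List.getElem_range]
    rw [e1]
    by_cases hm : [(j, false)] ∈ Z
    · rw [decide_eq_true hm]
      have h1 := hyZ _ hm
      simp only [lv, List.all_cons, List.all_nil, Bool.and_true] at h1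
      revert h1
      cases y.getD j false <;> simp
    · rw [decide_eq_false hm]
      -- the alternatives for this input
      have hsplit : L = (C.outs.reverse.map (alts r Rs C) ++
          (List.range j).map fun i => [[[(i, true)]], [[(i, false)]]]) ++
          [[[(j, true)]], [[(j, false)]]] ::
          ((List.range (C.n - j - 1)).map fun i => [[[(j + 1 + i, true)]], [[(j + 1 + i, false)]]]) := by
        rw [hLdef]
        unfold allAlts
        rw [List.append_assoc]
        congr 1
        have e2 : C.n = j + (1 + (C.n - j - 1)) := by omega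
        conv_lhs => rw [e2]
        rw [List.range_add, List.map_append]
        congr 1
        rw [Nat.add_comm 1, List.range_succ_eq_map, List.map_cons, List.map_cons, List.map_map,
          List.map_map]
        congr 1
        refine List.map_congr_left fun a _ => ?_
        simp only [Function.comp_apply]
        have : j + a.succ = j + 1 + a := by omega
        rw [this]
      have hu := foldl_used hn (L1 := C.outs.reverse.map (alts r Rs C) ++
        (List.range j).map fun i => [[[(i, true)]], [[(i, false)]]])
        (L2 := (List.range (C.n - j - 1)).map fun i =>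
          [[[(j + 1 + i, true)]], [[(j + 1 + i, false)]]])
        (A := [[[(j, true)]], [[(j, false)]]]) ?_ ?_ ?_
      · rw [← hsplit] at hu
        change ∃ K ∈ [[[(j, true)]], [[(j, false)]]], ∀ c ∈ K, c ∈ Z at hu
        obtain ⟨K, hK, hKZ⟩ := hu
        simp only [List.mem_cons, List.not_mem_nil, or_false] at hK
        rcases hK with rfl | rfl
        · have h1 := hyZ _ (hKZ [(j, true)] (by simp))
          simp only [lv, List.all_cons, List.all_nil, Bool.and_true] at h1
          revert h1
          cases y.getD j false <;> simp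
        · exact absurd (hKZ [(j, false)] (by simp)) hm
      · intro A hA
        refine hS A ?_
        rw [hsplit]
        exact List.mem_append_left _ hA
      · refine hS _ ?_
        rw [hsplit]
        exact List.mem_append_right _ List.mem_cons_self
      · refine ⟨[[(j, !y.getD j false)]], ?_, y, hy, ?_, ?_⟩
        · cases y.getD j false <;> simp
        · intro c hc
          rw [List.mem_singleton] at hc
          subst hc
          simp [lv]
        · intro c hc
          refine hyZ c ?_
          rw [hZdef, hsplit]
          unfold grd at hc ⊢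
          rw [List.foldl_append]
          exact foldl_mono _ _ _ c hc
  rw [← hxy] at hyZ
  clear hxy hy y
  -- local minimum
  by_contra hcon
  rw [not_le, Circuit.cost_eq, Circuit.cost_eq] at hcon
  have hval : val (C.out (flip x i)) < val (C.out x) := by omega
  rw [MPa0a715.val_lt_iff _ _ (by unfold Circuit.out; rw [List.length_map, List.length_map])]
    at hval
  obtain ⟨s, hs, h1, h2, h3⟩ := hval
  unfold Circuit.out at hs h1 h2 h3
  rw [List.length_map] at hs h3
  have hget : ∀ (z : List Bool) (t : ℕ), t < C.outs.length →
      (C.outs.map (C.env z)).getD t false = C.env z (C.outs.getD t 0) := by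
    intro z t ht
    rw [List.getD_eq_getElem _ _ (by simpa using ht), List.getElem_map,
      List.getD_eq_getElem C.outs _ ht]
  rw [hget _ _ hs] at h1 h2
  have hfx : (flip x i).length = C.n := by rw [length_flip, hx]
  have hmem : ∀ t < C.outs.length, C.outs.getD t 0 ∈ C.outs := by
    intro t ht
    rw [List.getD_eq_getElem _ _ ht]
    exact List.getElem_mem ht
  have hΦ1 : ∀ φ ∈ Φ, φ.k ≤ r := fun φ hφ => (hΦ φ hφ).1
  -- split the outputs
  have hsplit : C.outs.reverse.map (alts r Rs C) =
      ((C.outs.drop (s + 1)).reverse.map (alts r Rs C)) ++ alts r Rs C (C.outs.getD s 0) ::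
        ((C.outs.take s).reverse.map (alts r Rs C)) := by
    have e : C.outs = C.outs.take s ++ C.outs.getD s 0 :: C.outs.drop (s + 1) := by
      rw [List.getD_eq_getElem _ _ hs, List.getElem_cons_drop, List.take_append_drop]
    conv_lhs => rw [e]
    rw [List.reverse_append, List.reverse_cons, List.append_assoc, List.map_append]
    rfl
  obtain ⟨K0, hK0, hok0⟩ := alts_cover hΦ hR hR' (hfew _ (hmem s hs)) hfx h1
  have hu := foldl_used hn (L1 := (C.outs.drop (s + 1)).reverse.map (alts r Rs C))
    (A := alts r Rs C (C.outs.getD s 0)) (L2 := ((C.outs.take s).reverse.map (alts r Rs C)) ++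
      (List.range C.n).map fun i => [[[(i, true)]], [[(i, false)]]]) ?_ ?_
    ⟨K0, hK0, flip x i, hfx, hok0, ?_⟩
  · have e : (C.outs.drop (s + 1)).reverse.map (alts r Rs C) ++ alts r Rs C (C.outs.getD s 0) ::
        (((C.outs.take s).reverse.map (alts r Rs C)) ++
          (List.range C.n).map fun i => [[[(i, true)]], [[(i, false)]]]) = L := by
      rw [hLdef]
      unfold allAlts
      rw [hsplit, List.append_assoc]
      rfl
    rw [e] at hu
    obtain ⟨K, hK, hKZ⟩ := hu
    have hokx : Ok K x := fun c hc => hyZ c (hKZ c hc)
    have := alts_zero hΦ1 hR (hfew _ (hmem s hs)) hK hx hokx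
    rw [h2] at this
    exact absurd this (by simp)
  · intro A hA K hK
    refine hS1 A ?_ K hK
    rw [hsplit]
    exact List.mem_append_left _ hA
  · intro K hK
    exact alts_short hR hK
  · -- the flipped point satisfies the more important clauses
    have hsub : ∀ c ∈ grd C.n ((C.outs.drop (s + 1)).reverse.map (alts r Rs C)), c ∈ Z := by
      intro c hc
      rw [hZdef, hLdef]
      unfold allAlts
      rw [hsplit, List.append_assoc]
      unfold grd at hc ⊢
      rw [List.foldl_append]
      exact foldl_mono _ _ _ c hc
    intro c hc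
    rcases foldl_from C.n _ [] c hc with h | ⟨A, hA, K, hK, hcK, hd⟩
    · exact absurd h List.not_mem_nil
    · obtain ⟨o, ho, rfl⟩ := List.mem_map.1 hA
      rw [List.mem_reverse] at ho
      have hoo : o ∈ C.outs := List.mem_of_mem_drop ho
      have hokx : Ok K x := fun d hdK => hyZ d (hsub d (hd d hdK))
      have hz := alts_zero hΦ1 hR (hfew o hoo) hK hx hokx
      -- the index of `o`
      obtain ⟨t, ht, rfl⟩ := List.getElem_of_mem ho
      rw [List.length_drop] at ht
      rw [List.getElem_drop] at hz hK hoo
      have h4 := h3 (s + 1 + t) (by omega) (by omega)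
      rw [hget _ _ (by omega), hget _ _ (by omega), List.getD_eq_getElem _ _ (by omega)] at h4
      rw [hz] at h4
      exact alts_step hΦ1 hR (hfew _ hoo) hK hx hokx hi h4 c hcK

end

end Pool.Agent.MPa0a715.OD
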