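import Pool.Agent.Lib.PolyTime.Converse
import Pool.Agent.Lib.MP_a0a715_lc.Easy
import Pool.Agent.Lib.MP_a0a715_lc_OD.Greedy

/-!
# The solver runs in polynomial time
-/

namespace Pool.Agent.MPa0a715.OD

open Pool.Agent.MPa0a715 Pool.Agent.PolyTime
open Pool.Agent.MPa0a715.TL (sat edge pstep rset conf lits pt neg foldl_const)

section
variable {α β γ : Type} [Enc α] [Enc β] [Enc γ]

/-! ### the decision procedure -/

theorem ptime_neg₂ {f : α → ℕ × Bool} (hf : PTime f) : PTime (fun a => neg (f a)) :=
  hf.fst'.pair hf.snd'.not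

theorem ptime_pt₂ {n : α → ℕ} {f g : α → ℕ × Bool} {b : Bool} (hn : PU n) (hf : PTime f)
    (hg : PTime g) : PTime (fun a => pt (n a) (f a) (g a) b) := by
  refine PTime.map (g := fun (a : α) (k : ℕ) => if k = (f a).1 then (f a).2 else
    if k = (g a).1 then (g a).2 else b) hn.range ?_
  have hf' : PTime (fun p : α × ℕ => f p.1) := hf.comp PTime.fst
  have hg' : PTime (fun p : α × ℕ => g p.1) := hg.comp PTime.fst
  exact PTime.iteP (PTime.eq PTime.snd hf'.fst') hf'.snd'
    (PTime.iteP (PTime.eq PTime.snd hg'.fst') hg'.snd' (PTime.const b))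

theorem ptime_beq₂ {f g : α → Bool} (hf : PTime f) (hg : PTime g) :
    PTime (fun a => f a == g a) :=
  (PTime.xor hf hg).not.of_eq fun a => by cases f a <;> cases g a <;> rfl

theorem ptime_vk {K : α → List NT} {x : α → List Bool} (hK : PTime K) (hx : PTime x) :
    PTime (fun a => vk (K a) (x a)) := by
  refine PTime.map (g := fun (a : α) (c : NT) => c.all (lv fun i => (x a).getD i false)) hK ?_
  refine PTime.all (g := fun (q : α × NT) (p : ℕ × Bool) => (x q.1).getD p.1 false == p.2)
    PTime.snd ?_
  have hp : PTime (fun r : (α × NT) × (ℕ × Bool) => r.2) := PTime.snd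
  have hx' : PTime (fun r : (α × NT) × (ℕ × Bool) => x r.1.1) := hx.comp (PTime.fst' PTime.fst)
  exact ptime_beq₂ (PTime.listGetD hx' hp.fst' (PTime.const false)) hp.snd'

theorem ptime_edge₂ {n : α → ℕ} {K : α → List NT} {f g : α → ℕ × Bool} (hn : PU n)
    (hK : PTime K) (hf : PTime f) (hg : PTime g) :
    PTime (fun a => edge (n a) (vk (K a)) (List.range (K a).length) (f a) (g a)) := by
  have h1 : ∀ b, PTime (fun a => vk (K a) (pt (n a) (f a) (neg (g a)) b)) := fun b =>
    ptime_vk hK (ptime_pt₂ hn hf (ptime_neg₂ hg))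
  refine PTime.and (PTime.not (PTime.eq hf hg)) (PTime.any (PTime.rangeLength hK) ?_)
  have h2 : ∀ b, PTime (fun p : α × ℕ =>
      (vk (K p.1) (pt (n p.1) (f p.1) (neg (g p.1)) b)).getD p.2 false) := fun b =>
    PTime.listGetD ((h1 b).comp PTime.fst) PTime.snd (PTime.const false)
  exact PTime.and (h2 false) (h2 true)

theorem ptime_lits₂ {n : α → ℕ} (hn : PU n) : PTime (fun a => lits (n a)) := by
  refine PTime.flatMap (g := fun (_ : α) (i : ℕ) => [(i, false), (i, true)]) hn.range ?_
  have hi : PTime (fun p : α × ℕ => p.2) := PTime.snd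
  exact (hi.pair (PTime.const false)).cons ((hi.pair (PTime.const true)).cons (PTime.const []))

theorem ptime_pstep₂ {n : α → ℕ} {K : α → List NT} {S : α → List (ℕ × Bool)} (hn : PU n)
    (hK : PTime K) (hS : PTime S) :
    PTime (fun a => pstep (n a) (vk (K a)) (List.range (K a).length) (S a)) := by
  refine PTime.filter (g := fun (a : α) (b : ℕ × Bool) => decide (b ∈ S a) ||
    (S a).any fun c => edge (n a) (vk (K a)) (List.range (K a).length) c b) (ptime_lits₂ hn) ?_
  refine PTime.or (PTime.mem PTime.snd (hS.comp PTime.fst)) (PTime.any (hS.comp PTime.fst) ?_)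
  have hn' : PU (fun p : (α × (ℕ × Bool)) × (ℕ × Bool) => n p.1.1) :=
    hn.comp (PTime.fst' PTime.fst)
  have hK' : PTime (fun p : (α × (ℕ × Bool)) × (ℕ × Bool) => K p.1.1) :=
    hK.comp (PTime.fst' PTime.fst)
  exact ptime_edge₂ hn' hK' PTime.snd (PTime.snd' PTime.fst)

theorem ptime_rset₂ {n : α → ℕ} {K : α → List NT} {f : α → ℕ × Bool} (hn : PU n)
    (hK : PTime K) (hf : PTime f) :
    PTime (fun a => rset (n a) (vk (K a)) (List.range (K a).length) (f a)) := by
  have hL := ptime_lits₂ hn
  have hg : PTime (fun a => [f a]) := hf.cons (PTime.const [])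
  obtain ⟨F, hF, _, hFs⟩ := hL.size_le
  obtain ⟨F', hF', _, hFs'⟩ := hg.size_le
  have hn' : PU (fun p : α × (List (ℕ × Bool) × (ℕ × Bool)) => n p.1) := hn.comp PTime.fst
  have hK' : PTime (fun p : α × (List (ℕ × Bool) × (ℕ × Bool)) => K p.1) := hK.comp PTime.fst
  refine PTime.foldl (h := fun a S _ => pstep (n a) (vk (K a)) (List.range (K a).length) S) hL hg
    (ptime_pstep₂ hn' hK' (PTime.fst' PTime.snd)) (B := fun k => F k + F' k) (hF.add hF') ?_
  intro a l₁ l₂ _
  rw [foldl_const]
  cases l₁.length with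
  | zero =>
    have := hFs' a
    rw [Function.iterate_zero, id]
    omega
  | succ k =>
    rw [Function.iterate_succ_apply']
    have h1 : size (enc (pstep (n a) (vk (K a)) (List.range (K a).length)
        ((pstep (n a) (vk (K a)) (List.range (K a).length))^[k] [f a]))) ≤
          size (enc (lits (n a))) := size_sublist List.filter_sublist
    have := hFs a
    omega

theorem ptime_conf₂ {n : α → ℕ} {S : α → List (ℕ × Bool)} (hn : PU n) (hS : PTime S) :
    PTime (fun a => conf (n a) (S a)) := by
  refine PTime.any hn.range ?_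
  have hS' : PTime (fun p : α × ℕ => S p.1) := hS.comp PTime.fst
  have hi : PTime (fun p : α × ℕ => p.2) := PTime.snd
  exact PTime.and (PTime.mem (hi.pair (PTime.const false)) hS')
    (PTime.mem (hi.pair (PTime.const true)) hS')

theorem ptime_sol {n : α → ℕ} {K : α → List NT} (hn : PU n) (hK : PTime K) :
    PTime (fun a => sol (n a) (K a)) := by
  refine PTime.all hn.range ?_
  have hn' : PU (fun p : α × ℕ => n p.1) := hn.comp PTime.fst
  have hK' : PTime (fun p : α × ℕ => K p.1) := hK.comp PTime.fst
  have hi : PTime (fun p : α × ℕ => p.2) := PTime.snd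
  exact PTime.or (PTime.not (ptime_conf₂ hn' (ptime_rset₂ hn' hK'
    (hi.pair (PTime.const false))))) (PTime.not (ptime_conf₂ hn' (ptime_rset₂ hn' hK'
    (hi.pair (PTime.const true)))))

/-! ### the greedy procedure -/

theorem ptime_pick {n : α → ℕ} {Z : α → List NT} {A : α → List (List NT)} (hn : PU n)
    (hZ : PTime Z) (hA : PTime A) : PTime (fun a => pick (n a) (Z a) (A a)) := by
  have h1 : PTime (fun a => (A a).find? (fun K => sol (n a) (K ++ Z a))) := by
    refine PTime.find? hA ?_
    exact ptime_sol (hn.comp PTime.fst) (PTime.append PTime.snd (hZ.comp PTime.fst))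
  have h2 : PTime (fun q : α × List NT => q.2 ++ Z q.1) :=
    PTime.append PTime.snd (hZ.comp PTime.fst)
  refine (PTime.option_cases h1 hZ h2).of_eq fun a => ?_
  unfold pick
  cases (A a).find? (fun K => sol (n a) (K ++ Z a)) <;> rfl

theorem size_grd (n : ℕ) (L : List (List (List NT))) :
    size (enc (grd n L)) ≤ size (enc L) := by
  induction L using List.reverseRecOn with
  | nil => exact le_refl _
  | append_singleton L A ih =>
    have e : grd n (L ++ [A]) = pick n (grd n L) A := by
      unfold grd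
      rw [List.foldl_append, List.foldl_cons, List.foldl_nil]
    rw [e]
    have h1 := size_append L [A]
    have h2 := size_lcons A ([] : List (List (List NT)))
    have h4 : size (enc ([] : List (List (List NT)))) = 1 := by simp [enc_nil]
    rcases pick_cases n (grd n L) A with ⟨h, -⟩ | ⟨K, hK, h, -⟩
    · rw [h]
      omega
    · rw [h]
      have h3 := size_append K (grd n L)
      have h5 := size_le_of_mem hK
      omega

theorem ptime_grd {n : α → ℕ} {L : α → List (List (List NT))} (hn : PU n) (hL : PTime L) :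
    PTime (fun a => grd (n a) (L a)) := by
  obtain ⟨F, hF, _, hFs⟩ := hL.size_le
  have hn' : PU (fun p : α × (List NT × List (List NT)) => n p.1) := hn.comp PTime.fst
  refine PTime.foldl (h := fun a Z A => pick (n a) Z A) hL (PTime.const [])
    (ptime_pick hn' (PTime.fst' PTime.snd) (PTime.snd' PTime.snd)) (B := F) hF ?_
  intro a l₁ l₂ hl
  have h1 := size_grd (n a) l₁
  unfold grd at h1
  have h2 := size_append l₁ l₂
  have h3 := hFs a
  rw [hl] at h3
  have h4 := size_pos (enc l₂)
  change size (enc (l₁.foldl (pick (n a)) [])) ≤ _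
  omega

/-! ### the alternatives -/

theorem ptime_tuples (q : ℕ) {l : α → List ℕ} (hl : PTime l) :
    PTime (fun a => tuples q (l a)) := by
  induction q with
  | zero => exact PTime.const _
  | succ q ih =>
    refine PTime.flatMap (g := fun (a : α) (t : List ℕ) => (l a).map fun i => i :: t) ih ?_
    refine PTime.map (g := fun (q : α × List ℕ) (i : ℕ) => i :: q.2) (hl.comp PTime.fst) ?_
    exact PTime.cons PTime.snd (PTime.snd' PTime.fst)

theorem ptime_ntuples (q : ℕ) {l : α → List ℕ} (hl : PTime l) :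
    PTime (fun a => ntuples q (l a)) := by
  induction q with
  | zero => exact PTime.const _
  | succ q ih =>
    refine PTime.flatMap (g := fun (a : α) (t : List ℕ) =>
      ((l a).filter fun i => decide (i ∉ t)).map fun i => i :: t) ih ?_
    refine PTime.map (g := fun (q : α × List ℕ) (i : ℕ) => i :: q.2)
      (PTime.filter (g := fun (q : α × List ℕ) (i : ℕ) => decide (i ∉ q.2))
        (hl.comp PTime.fst) ?_) ?_
    · exact PTime.notP (PTime.mem PTime.snd (PTime.snd' PTime.fst))
    · exact PTime.cons PTime.snd (PTime.snd' PTime.fst)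

theorem ptime_ind {n : α → ℕ} {t : α → List ℕ} (hn : PU n) (ht : PTime t) :
    PTime (fun a => ind (n a) (t a)) :=
  PTime.map (g := fun (a : α) (i : ℕ) => decide (i ∈ t a)) hn.range
    (PTime.mem PTime.snd (ht.comp PTime.fst))

theorem ptime_rs {x : α → List Bool} {L : α → List ℕ} (hx : PTime x) (hL : PTime L) :
    PTime (fun a => rs (x a) (L a)) :=
  PTime.map (g := fun (a : α) (i : ℕ) => (x a).getD i false) hL
    (PTime.listGetD (hx.comp PTime.fst) PTime.snd (PTime.const false))

theorem ptime_env {C : α → Circuit} {x : α → List Bool} {o : α → ℕ} (hC : PTime C)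
    (hx : PTime x) (ho : PTime o) : PTime (fun a => (C a).env (x a) (o a)) :=
  PTime.listGetD (ptime_run (ptime_gates hC) hx) ho (PTime.const false)

theorem ptime_test (r : ℕ) (ρ : Rec) {C : α → Circuit} {o : α → ℕ} {L : α → List ℕ}
    (hC : PTime C) (ho : PTime o) (hL : PTime L) :
    PTime (fun a => test r ρ (C a) (o a) (L a)) := by
  have hn := pu_n hC
  refine PTime.all (ptime_tuples (2 * r) (hn.add (PU.const 1)).range) ?_
  have hi : PTime (fun p : α × List ℕ => ind (C p.1).n p.2) :=
    ptime_ind (hn.comp PTime.fst) PTime.snd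
  exact ptime_beq₂ (ptime_env (hC.comp PTime.fst) hi (ho.comp PTime.fst))
    (PTime.mem (ptime_rs hi (hL.comp PTime.fst)) (PTime.const ρ.tab))

theorem ptime_mv {L : α → List ℕ} (hL : PTime L) (K : List NT) :
    PTime (fun a => mv (L a) K) := by
  refine PTime.map (g := fun (a : α) (c : NT) => c.map fun p => ((L a).getD p.1 0, p.2))
    (PTime.const K) ?_
  refine PTime.map (g := fun (q : α × NT) (p : ℕ × Bool) => ((L q.1).getD p.1 0, p.2))
    PTime.snd ?_
  have hp : PTime (fun r : (α × NT) × (ℕ × Bool) => r.2) := PTime.snd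
  exact (PTime.listGetD (hL.comp (PTime.fst' PTime.fst)) hp.fst' (PTime.const 0)).pair hp.snd'

theorem ptime_alts (r : ℕ) (Rs : List Rec) {C : α → Circuit} {o : α → ℕ} (hC : PTime C)
    (ho : PTime o) : PTime (fun a => alts r Rs (C a) (o a)) := by
  refine PTime.constFlatMap Rs (f := fun ρ a =>
    ((ntuples ρ.m (List.range (C a).n)).filter fun L => test r ρ (C a) (o a) L).flatMap
      fun L => ρ.comps.map (mv L)) fun ρ _ => ?_
  have hn := pu_n hC
  refine PTime.flatMap (g := fun (_ : α) (L : List ℕ) => ρ.comps.map (mv L))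
    (PTime.filter (g := fun (a : α) (L : List ℕ) => test r ρ (C a) (o a) L)
      (ptime_ntuples ρ.m hn.range) ?_) ?_
  · exact ptime_test r ρ (hC.comp PTime.fst) (ho.comp PTime.fst) PTime.snd
  · exact PTime.constList ρ.comps (f := fun K (q : α × List ℕ) => mv q.2 K) fun K _ =>
      ptime_mv PTime.snd K

theorem ptime_allAlts (r : ℕ) (Rs : List Rec) : PTime (allAlts r Rs) := by
  have hn := pu_n (PTime.id (α := Circuit))
  refine PTime.append (PTime.map (g := fun (C : Circuit) (o : ℕ) => alts r Rs C o)
    (PTime.reverse (ptime_outs PTime.id)) (ptime_alts r Rs PTime.fst PTime.snd)) ?_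
  refine PTime.map (g := fun (_ : Circuit) (i : ℕ) => [[[(i, true)]], [[(i, false)]]])
    hn.range ?_
  have hi : PTime (fun p : Circuit × ℕ => p.2) := PTime.snd
  have hb : ∀ b : Bool, PTime (fun p : Circuit × ℕ => [[(p.2, b)]]) := fun b =>
    ((hi.pair (PTime.const b)).cons (PTime.const [])).cons (PTime.const [])
  exact (hb true).cons ((hb false).cons (PTime.const []))

theorem ptime_solver (r : ℕ) (Rs : List Rec) : PTime (solver r Rs) := by
  have hn := pu_n (PTime.id (α := Circuit))
  have hG := ptime_grd hn (ptime_allAlts r Rs)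
  refine PTime.map (g := fun (C : Circuit) (i : ℕ) =>
    decide ([(i, false)] ∈ grd C.n (allAlts r Rs C))) hn.range ?_
  exact PTime.mem ((PTime.snd.pair (PTime.const false)).cons (PTime.const []))
    (hG.comp PTime.fst)

end

/-- if no function in `Φ` has the pattern, there is a polynomial-time solver -/
theorem easySide {Φ : List BFun} (h : ∀ φ ∈ Φ, ¬ φ.Pattern) : HasSolver (Circuit.OutsIn Φ) := by
  obtain ⟨r, hr⟩ : ∃ r : ℕ, ∀ φ ∈ Φ, φ.k ≤ r := by
    refine ⟨(Φ.map BFun.k).sum, fun φ hφ => ?_⟩
    exact List.single_le_sum (fun _ _ => Nat.zero_le _) _ (List.mem_map_of_mem hφ)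
  obtain ⟨Rs, h1, h2⟩ := recs_exist r
  exact ⟨solver r Rs, (ptime_solver r Rs).isPolyTime, fun C _ hC =>
    solver_correct (fun φ hφ => ⟨hr φ hφ, h φ hφ⟩) h1 h2 hC⟩

end Pool.Agent.MPa0a715.OD
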