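import Pool.Agent.Lib.PolyTime.Converse
import Pool.Agent.Lib.MP_a0a715_lc.Easy
import Pool.Agent.Lib.MP_a0a715_lc_OD.HPT
import Pool.Agent.Lib.MP_a0a715_lc_OD.HOut

/-!
# Functions with pattern: Circuit-FLIP is as hard as without restriction
-/

namespace Pool.Agent.MPa0a715.OD

open Pool.Agent.MPa0a715 Pool.Agent.PolyTime
open Pool.Agent.MPa0a715.TL (nextC bnd terms terms_ok gv_next w_lt z_lt sys_correct dcd
  ptime_nextC pu_bnd ptime_terms ptime_drop ptime_dcd)

/-- number of inputs of the intermediate circuit -/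
def nN (C : Circuit) : ℕ :=
  16 * bnd C.n (nextC C).gates ((nextC C).outs.length - C.n)

/-- conjunctions of the intermediate circuit -/
def nTs (C : Circuit) : List NT :=
  terms C.n (nextC C).gates ((nextC C).outs.length - C.n) ((nextC C).outs.take C.n)
    ((nextC C).outs.drop C.n)

theorem nTs_ok {C : Circuit} (hC : C.Valid) (hn : 0 < C.n) : TOk (nN C) (nTs C) :=
  terms_ok (gv_next hC hn) (w_lt hC hn) (z_lt hC hn)

theorem pu_nN : PU nN := by
  have hN : PTime (fun C : Circuit => nextC C) := ptime_nextC PTime.id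
  have hn := pu_n (PTime.id (α := Circuit))
  have hO := ptime_outs hN
  have hG := ptime_gates hN
  have hz : PTime (fun C : Circuit => (nextC C).outs.drop C.n) := ptime_drop hO hn.toNat
  have hK : PU (fun C : Circuit => (nextC C).outs.length - C.n) :=
    (PU.ofLength hz).of_eq fun C => by rw [List.length_drop]
  exact (PU.const 16).mul (pu_bnd hn hK hG)

theorem ptime_nTs : PTime nTs := by
  have hN : PTime (fun C : Circuit => nextC C) := ptime_nextC PTime.id
  have hn := pu_n (PTime.id (α := Circuit))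
  have hO := ptime_outs hN
  have hG := ptime_gates hN
  have hw : PTime (fun C : Circuit => (nextC C).outs.take C.n) := PTime.take hO hn.toNat
  have hz : PTime (fun C : Circuit => (nextC C).outs.drop C.n) := ptime_drop hO hn.toNat
  have hK : PU (fun C : Circuit => (nextC C).outs.length - C.n) :=
    (PU.ofLength hz).of_eq fun C => by rw [List.length_drop]
  exact ptime_terms hn hK hG hw hz

/-- Circuit-FLIP without restriction reduces to Circuit-FLIP with outputs from `Φ`, if a function
in `Φ` has the pattern -/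
theorem hard {Φ : List BFun} {φ : BFun} (hφ : φ ∈ Φ) (h : φ.Pattern) :
    PLSReduces (fun _ => True) (Circuit.OutsIn Φ) := by
  obtain ⟨β₁, β₂, hO⟩ := uC_outs hφ h
  have hn := pu_n (PTime.id (α := Circuit))
  have hn1 : PTime (fun C : Circuit => decide (C.n ≤ 1)) := PTime.le hn.toNat (PTime.const 1)
  have hd : PTime (fun p : Circuit × List Bool =>
      dcd p.1.n (bnd p.1.n (nextC p.1).gates ((nextC p.1).outs.length - p.1.n))
        (p.2.take (nN p.1))) :=
    (ptime_dcd.comp (PTime.fst.pair (PTime.take PTime.snd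
      (pu_nN.toNat.comp PTime.fst)))).of_eq fun p => rfl
  refine ⟨fun C => if C.n ≤ 1 then ⟨0, [], []⟩ else uC β₁ β₂ (nN C) (nTs C),
    fun p => if p.1.n ≤ 1 then easy p.1 else
      dcd p.1.n (bnd p.1.n (nextC p.1).gates ((nextC p.1).outs.length - p.1.n))
        (p.2.take (nN p.1)), ?_, ?_, ?_⟩
  · exact (PTime.iteP hn1 (PTime.const _) (ptime_uC pu_nN ptime_nTs)).isPolyTime
  · exact (PTime.iteP (hn1.comp PTime.fst) (ptime_easy.comp PTime.fst) hd).isPolyTime
  · intro C hC _
    dsimp only
    split_ifs with h1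
    · exact ⟨⟨fun k hk => absurd hk (Nat.not_lt_zero k), fun o ho => absurd ho
        List.not_mem_nil⟩, fun o ho => absurd ho List.not_mem_nil, fun y _ => easy_small h1⟩
    · have h2 : 0 < C.n := by omega
      have hT := nTs_ok hC h2
      exact ⟨uC_valid hT, hO _ _ hT, fun s hs => sys_correct hC h2 (red_min hT hs)⟩

/-- a solver for the image of a reduction gives a solver -/
theorem solver_of_red {K L : Circuit → Prop} (h : PLSReduces K L) (hL : HasSolver L) :
    HasSolver K := by
  obtain ⟨f, hf, hfC⟩ := hL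
  obtain ⟨g, h, hg, hh, hgh⟩ := h
  have hf' := isPolyTime_iff.1 hf
  have hg' := isPolyTime_iff.1 hg
  have hh' := isPolyTime_iff.1 hh
  refine ⟨fun C => h (C, f (g C)), (hh'.comp (PTime.id.pair (hf'.comp hg'))).isPolyTime, ?_⟩
  intro C hC hK
  obtain ⟨h1, h2, h3⟩ := hgh C hC hK
  exact h3 _ (hfC _ h1 h2)

theorem solver_mono {K L : Circuit → Prop} (h : ∀ C, K C → L C) (hL : HasSolver L) :
    HasSolver K := by
  obtain ⟨f, hf, hfC⟩ := hL
  exact ⟨f, hf, fun C hC hK => hfC C hC (h C hK)⟩

end Pool.Agent.MPa0a715.OD
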