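import Pool.Agent.Lib.MP_a0a715_lc_OD.Rec
import Pool.Agent.Lib.MP_a0a715_lc_OD.Defs

/-!
# The components of the set of zeros of an output
-/

namespace Pool.Agent.MPa0a715.OD

open Pool.Agent.MPa0a715

/-! ### minors of functions without pattern -/

/-- the value for a general assignment -/
def Arg.ev (X : ℕ → Bool) : Arg → Bool
  | .const b => b
  | .lit i b => X i == b

theorem Arg.ev_val (A : Arg) (x : List Bool) : A.ev (fun i => x.getD i false) = A.val x := by
  cases A <;> rfl

/-- extend an assignment of `m` variables to all inputs -/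
def ext {m : ℕ} (p : ℕ → Option (Fin m)) (y : Fin m → Bool) (i : ℕ) : Bool :=
  match p i with
  | none => false
  | some t => y t

theorem pf_minor {φ : BFun} (hφ : ¬ φ.Pattern) {m : ℕ} (p : ℕ → Option (Fin m))
    (σ : Fin φ.k → Arg) : PF fun y : Fin m → Bool => φ.f (fun j => (σ j).ev (ext p y)) = false := by
  classical
  intro g h k u hgk hu hg hgu hhu hku hk
  by_contra hh
  rw [Bool.not_eq_false] at hh
  apply hφ
  set S : (Fin m → Bool) → Fin φ.k → Bool := fun y j => (σ j).ev (ext p y) with hS
  -- the variable of an argument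
  let v : Fin φ.k → Option (Fin m) := fun j => match σ j with
    | .const _ => none
    | .lit i _ => p i
  have hv : ∀ j (y z : Fin m → Bool), (∀ t, v j = some t → y t = z t) → S y j = S z j := by
    intro j y z hyz
    simp only [hS, v] at hyz ⊢
    cases hj : σ j with
    | const b => rfl
    | lit i b =>
      rw [hj] at hyz
      simp only [Arg.ev, ext]
      cases hp : p i with
      | none => rfl
      | some t =>
        have := hyz t hp
        dsimp only
        rw [this]
  have hv' : ∀ j t (y z : Fin m → Bool), v j = some t → y t ≠ z t → S y j = !S z j := by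
    intro j t y z hj hyz
    simp only [hS, v] at hj ⊢
    cases hj' : σ j with
    | const b => simp [hj'] at hj
    | lit i b =>
      rw [hj'] at hj
      change p i = some t at hj
      simp only [Arg.ev, ext]
      rw [hj]
      dsimp only
      revert hyz
      cases y t <;> cases z t <;> cases b <;> simp
  -- the sets of arguments
  have key : ∀ (y : Fin m → Bool) (T : Finset (Fin φ.k)),
      (∀ j, j ∈ T ↔ ∃ t, v j = some t ∧ y t ≠ h t) → S y = chg (S h) T := by
    intro y T hT
    funext j
    unfold chg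
    by_cases hj : j ∈ T
    · rw [if_pos hj]
      obtain ⟨t, h1, h2⟩ := (hT j).1 hj
      exact hv' j t y h h1 h2
    · rw [if_neg hj]
      refine hv j y h fun t ht => ?_
      by_contra hne
      exact hj ((hT j).2 ⟨t, ht, hne⟩)
  let F : (Fin m → Prop) → Finset (Fin φ.k) := fun P =>
    Finset.univ.filter fun j => ∃ t, v j = some t ∧ P t
  have memF : ∀ P j, j ∈ F P ↔ ∃ t, v j = some t ∧ P t := by
    intro P j
    simp only [F, Finset.mem_filter, Finset.mem_univ, true_and]
  have hdis : ∀ P Q : Fin m → Prop, (∀ t, ¬ (P t ∧ Q t)) → Disjoint (F P) (F Q) := by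
    intro P Q hPQ
    rw [Finset.disjoint_left]
    intro j h1 h2
    obtain ⟨t, ht, h1⟩ := (memF P j).1 h1
    obtain ⟨t', ht', h2⟩ := (memF Q j).1 h2
    rw [ht] at ht'
    obtain rfl := Option.some.inj ht'
    exact hPQ t ⟨h1, h2⟩
  refine ⟨S h, F fun t => u t = true, F fun t => g t ≠ h t, F fun t => k t ≠ h t, ?_, ?_, ?_, hh,
    ?_, ?_, ?_, ?_, ?_⟩
  · refine hdis _ _ fun t ht => ?_
    have := hu t ht.1
    rcases hgk t with h1 | h1
    · exact ht.2 h1.symm
    · exact ht.2 (this.trans h1.symm)
  · refine hdis _ _ fun t ht => ?_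
    have := hu t ht.1
    rcases hgk t with h1 | h1
    · exact ht.2 (this.symm.trans h1.symm)
    · exact ht.2 h1.symm
  · refine hdis _ _ fun t ht => ?_
    rcases hgk t with h1 | h1
    · exact ht.1 h1.symm
    · exact ht.2 h1.symm
  · rw [← key (xr h u) _ ?_]
    · exact hhu
    · intro j
      rw [memF]
      refine exists_congr fun t => and_congr_right fun _ => ?_
      unfold xr
      cases h t <;> cases u t <;> simp
  · rw [← key g _ (memF _)]
    exact hg
  · rw [← key k _ (memF _)]
    exact hk
  · rw [← key (xr g u) _ ?_]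
    · exact hgu
    · intro j
      rw [Finset.mem_union, memF, memF, ← exists_or]
      refine exists_congr fun t => ?_
      rw [← and_or_left]
      refine and_congr_right fun _ => ?_
      have h1 := hu t
      have h2 := hgk t
      unfold xr
      revert h1 h2
      cases h t <;> cases u t <;> cases g t <;> cases k t <;> simp
  · rw [← key (xr k u) _ ?_]
    · exact hku
    · intro j
      rw [Finset.mem_union, memF, memF, ← exists_or]
      refine exists_congr fun t => ?_
      rw [← and_or_left]
      refine and_congr_right fun _ => ?_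
      have h1 := hu t
      have h2 := hgk t
      unfold xr
      revert h1 h2
      cases h t <;> cases u t <;> cases g t <;> cases k t <;> simp

/-! ### tuples -/

/-- all lists of length `q` with entries in `l` -/
def tuples : ℕ → List ℕ → List (List ℕ)
  | 0, _ => [[]]
  | q + 1, l => (tuples q l).flatMap fun t => l.map fun i => i :: t

theorem mem_tuples {q : ℕ} {l t : List ℕ} : t ∈ tuples q l ↔ t.length = q ∧ ∀ i ∈ t, i ∈ l := by
  induction q generalizing t with
  | zero =>
    unfold tuples
    rw [List.mem_singleton]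
    constructor
    · rintro rfl
      simp
    · rintro ⟨h, -⟩
      exact List.length_eq_zero_iff.1 h
  | succ q ih =>
    unfold tuples
    rw [List.mem_flatMap]
    constructor
    · rintro ⟨s, hs, ht⟩
      obtain ⟨i, hi, rfl⟩ := List.mem_map.1 ht
      obtain ⟨h1, h2⟩ := ih.1 hs
      refine ⟨by rw [List.length_cons, h1], ?_⟩
      intro j hj
      rcases List.mem_cons.1 hj with rfl | hj
      · exact hi
      · exact h2 j hj
    · rintro ⟨h1, h2⟩
      cases t with
      | nil => simp at h1
      | cons i s =>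
        refine ⟨s, ih.2 ⟨by simpa using h1, fun j hj => h2 j (List.mem_cons_of_mem _ hj)⟩,
          List.mem_map_of_mem (h2 i List.mem_cons_self)⟩

/-- all lists of length `q` with distinct entries in `l` -/
def ntuples : ℕ → List ℕ → List (List ℕ)
  | 0, _ => [[]]
  | q + 1, l => (ntuples q l).flatMap fun t => (l.filter fun i => decide (i ∉ t)).map fun i =>
      i :: t

theorem mem_ntuples {q : ℕ} {l t : List ℕ} :
    t ∈ ntuples q l ↔ t.length = q ∧ t.Nodup ∧ ∀ i ∈ t, i ∈ l := by
  induction q generalizing t with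
  | zero =>
    unfold ntuples
    rw [List.mem_singleton]
    constructor
    · rintro rfl
      simp
    · rintro ⟨h, -⟩
      exact List.length_eq_zero_iff.1 h
  | succ q ih =>
    unfold ntuples
    rw [List.mem_flatMap]
    constructor
    · rintro ⟨s, hs, ht⟩
      obtain ⟨i, hi, rfl⟩ := List.mem_map.1 ht
      rw [List.mem_filter, decide_eq_true_eq] at hi
      obtain ⟨h1, h2, h3⟩ := ih.1 hs
      refine ⟨by rw [List.length_cons, h1], List.nodup_cons.2 ⟨hi.2, h2⟩, ?_⟩
      intro j hj
      rcases List.mem_cons.1 hj with rfl | hj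
      · exact hi.1
      · exact h3 j hj
    · rintro ⟨h1, h2, h3⟩
      cases t with
      | nil => simp at h1
      | cons i s =>
        rw [List.nodup_cons] at h2
        refine ⟨s, ih.2 ⟨by simpa using h1, h2.2, fun j hj => h3 j (List.mem_cons_of_mem _ hj)⟩,
          List.mem_map_of_mem (List.mem_filter.2 ⟨h3 i List.mem_cons_self, ?_⟩)⟩
        rw [decide_eq_true_eq]
        exact h2.1

/-- the input with ones exactly at the places in the list -/
def ind (n : ℕ) (t : List ℕ) : List Bool := (List.range n).map fun i => decide (i ∈ t)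

theorem length_ind (n : ℕ) (t : List ℕ) : (ind n t).length = n := by
  unfold ind
  simp

theorem ind_getD {n : ℕ} {t : List ℕ} {i : ℕ} (hi : i < n) :
    (ind n t).getD i false = decide (i ∈ t) := by
  unfold ind
  rw [List.getD_eq_getElem _ _ (by simpa using hi), List.getElem_map, List.getElem_range]

/-- restriction to the inputs in `L` -/
def rs (x : List Bool) (L : List ℕ) : List Bool := L.map fun i => x.getD i false

theorem length_rs (x : List Bool) (L : List ℕ) : (rs x L).length = L.length := by
  unfold rs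
  simp

theorem rs_getD {x : List Bool} {L : List ℕ} {t : ℕ} (ht : t < L.length) :
    (rs x L).getD t false = x.getD (L.getD t 0) false := by
  unfold rs
  rw [List.getD_eq_getElem _ _ (by simpa using ht), List.getElem_map,
    List.getD_eq_getElem L _ ht]

/-- the output wire `o` agrees with the function given by the description, on all inputs with
few ones -/
def test (r : ℕ) (ρ : Rec) (C : Circuit) (o : ℕ) (L : List ℕ) : Bool :=
  (tuples (2 * r) (List.range (C.n + 1))).all fun t =>
    C.env (ind C.n t) o == decide (rs (ind C.n t) L ∈ ρ.tab)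

/-- the clauses, for the inputs in the list -/
def mv (L : List ℕ) (K : List NT) : List NT := K.map fun c => c.map fun p => (L.getD p.1 0, p.2)

theorem ok_mv {m : ℕ} {L : List ℕ} {K : List NT} (hL : L.length = m)
    (hK : ∀ c ∈ K, ∀ p ∈ c, p.1 < m) (x : List Bool) : Ok (mv L K) x ↔ Ok K (rs x L) := by
  unfold Ok mv
  rw [List.forall_mem_map]
  refine forall₂_congr fun c hc => ?_
  rw [List.all_map]
  have : (c.all ((lv fun i => x.getD i false) ∘ fun p => (L.getD p.1 0, p.2))) =
      c.all (lv fun i => (rs x L).getD i false) := by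
    rw [Bool.eq_iff_iff, List.all_eq_true, List.all_eq_true]
    refine forall₂_congr fun p hp => ?_
    simp only [Function.comp_apply, lv]
    rw [rs_getD (by rw [hL]; exact hK c hc p hp)]
  rw [this]

/-- the components of the set of zeros of the output wire `o` -/
def alts (r : ℕ) (Rs : List Rec) (C : Circuit) (o : ℕ) : List (List NT) :=
  Rs.flatMap fun ρ => ((ntuples ρ.m (List.range C.n)).filter fun L => test r ρ C o L).flatMap
    fun L => ρ.comps.map (mv L)

/-- the output is a function of few inputs -/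
def FewOut (Φ : List BFun) (C : Circuit) (o : ℕ) : Prop :=
  ∃ φ ∈ Φ, ∃ σ : Fin φ.k → Arg, (∀ j, (σ j).Ok C.n) ∧
    ∀ x : List Bool, x.length = C.n → C.env x o = φ.f fun j => (σ j).val x

/-- the inputs used by an argument -/
def Arg.used : Arg → List ℕ
  | .const _ => []
  | .lit i _ => [i]

/-- the inputs used -/
def usedL {k : ℕ} (σ : Fin k → Arg) : List ℕ := (List.ofFn fun j => (σ j).used).flatten

theorem usedL_length {k : ℕ} (σ : Fin k → Arg) : (usedL σ).length ≤ k := by
  unfold usedL
  rw [List.length_flatten, List.map_ofFn]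
  have : ∀ (k : ℕ) (f : Fin k → ℕ), (∀ j, f j ≤ 1) → (List.ofFn f).sum ≤ k := by
    intro k
    induction k with
    | zero => intro f _; simp
    | succ k ih =>
      intro f hf
      rw [List.ofFn_succ, List.sum_cons]
      have h1 := hf 0
      have h2 := ih (fun j => f j.succ) fun j => hf _
      omega
  refine this k _ fun j => ?_
  simp only [Function.comp_apply]
  cases σ j <;> simp [Arg.used]

theorem mem_usedL {k : ℕ} {σ : Fin k → Arg} {i : ℕ} : i ∈ usedL σ ↔ ∃ j b, σ j = .lit i b := by
  unfold usedL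
  rw [List.mem_flatten]
  constructor
  · rintro ⟨l, hl, hi⟩
    obtain ⟨j, rfl⟩ := List.mem_ofFn' _ _ |>.1 hl
    cases hj : σ j with
    | const b => simp [hj, Arg.used] at hi
    | lit i' b =>
      simp only [hj, Arg.used, List.mem_singleton] at hi
      subst hi
      exact ⟨j, b, hj⟩
  · rintro ⟨j, b, hj⟩
    exact ⟨(σ j).used, (List.mem_ofFn' _ _).2 ⟨j, rfl⟩, by simp [hj, Arg.used]⟩

theorem val_congr {k : ℕ} {σ : Fin k → Arg} {x y : List Bool}
    (h : ∀ i ∈ usedL σ, x.getD i false = y.getD i false) (j : Fin k) :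
    (σ j).val x = (σ j).val y := by
  cases hj : σ j with
  | const b => rfl
  | lit i b =>
    simp only [Arg.val]
    rw [h i (mem_usedL.2 ⟨j, b, hj⟩)]

section
variable {r : ℕ} {Rs : List Rec} {Φ : List BFun} {C : Circuit} {o : ℕ}

/-- a successful test shows that the functions agree -/
theorem test_spec (hΦ : ∀ φ ∈ Φ, φ.k ≤ r) (ho : FewOut Φ C o) {ρ : Rec} (hρ : ρ.m ≤ r)
    {L : List ℕ} (hL : L.length = ρ.m) (hLn : ∀ i ∈ L, i < C.n)
    (ht : test r ρ C o L = true) {x : List Bool} (hx : x.length = C.n) :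
    C.env x o = decide (rs x L ∈ ρ.tab) := by
  obtain ⟨φ, hφ, σ, hσ, hval⟩ := ho
  set S := usedL σ ++ L with hS
  set t0 := S.filter fun i => x.getD i false with ht0
  have hlen : t0.length ≤ 2 * r := by
    have h1 := usedL_length σ
    have h2 := hΦ φ hφ
    have h3 : t0.length ≤ S.length := List.length_filter_le _ _
    rw [hS, List.length_append] at h3
    omega
  set t := t0 ++ List.replicate (2 * r - t0.length) C.n with htdef
  have hSn : ∀ i ∈ S, i < C.n := by
    intro i hi
    rcases List.mem_append.1 hi with hi | hi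
    · obtain ⟨j, b, hj⟩ := mem_usedL.1 hi
      have := hσ j
      rw [hj] at this
      exact this
    · exact hLn i hi
  have htm : t ∈ tuples (2 * r) (List.range (C.n + 1)) := by
    rw [mem_tuples]
    refine ⟨by rw [htdef, List.length_append, List.length_replicate]; omega, ?_⟩
    intro i hi
    rw [List.mem_range]
    rcases List.mem_append.1 hi with hi | hi
    · have := hSn i (List.mem_filter.1 hi).1
      omega
    · have := (List.mem_replicate.1 hi).2
      omega
  have hagree : ∀ i ∈ S, x.getD i false = (ind C.n t).getD i false := by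
    intro i hi
    have hin := hSn i hi
    rw [ind_getD hin, Bool.eq_iff_iff, decide_eq_true_eq, htdef, List.mem_append, ht0,
      List.mem_filter]
    constructor
    · intro h
      exact Or.inl ⟨hi, h⟩
    · rintro (h | h)
      · exact h.2
      · have := (List.mem_replicate.1 h).2
        omega
  unfold test at ht
  rw [List.all_eq_true] at ht
  have h1 := ht t htm
  rw [beq_iff_eq] at h1
  have h2 : C.env x o = C.env (ind C.n t) o := by
    rw [hval x hx, hval _ (length_ind _ _)]
    congr 1
    funext j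
    exact val_congr (fun i hi => hagree i (List.mem_append_left _ hi)) j
  have h3 : rs x L = rs (ind C.n t) L := by
    unfold rs
    exact List.map_congr_left fun i hi => hagree i (List.mem_append_right _ hi)
  rw [h2, h1, h3]

theorem mem_alts {K : List NT} : K ∈ alts r Rs C o ↔ ∃ ρ ∈ Rs, ∃ L : List ℕ,
    (L.length = ρ.m ∧ L.Nodup ∧ ∀ i ∈ L, i < C.n) ∧ test r ρ C o L = true ∧
    ∃ K' ∈ ρ.comps, K = mv L K' := by
  unfold alts
  simp only [List.mem_flatMap, List.mem_filter, mem_ntuples, List.mem_map, List.mem_range]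
  constructor
  · rintro ⟨ρ, hρ, L, ⟨h1, h2⟩, K', hK', rfl⟩
    exact ⟨ρ, hρ, L, h1, h2, K', hK', rfl⟩
  · rintro ⟨ρ, hρ, L, h1, h2, K', hK', rfl⟩
    exact ⟨ρ, hρ, L, ⟨h1, h2⟩, K', hK', rfl⟩

theorem alts_short (hR : ∀ ρ ∈ Rs, ρ.Good ∧ ρ.m ≤ r) {K : List NT} (hK : K ∈ alts r Rs C o) :
    ∀ c ∈ K, c.length ≤ 2 ∧ ∀ p ∈ c, p.1 < C.n := by
  obtain ⟨ρ, hρ, L, ⟨h1, h2, h3⟩, -, K', hK', rfl⟩ := mem_alts.1 hK
  intro c hc
  unfold mv at hc
  obtain ⟨c', hc', rfl⟩ := List.mem_map.1 hc
  obtain ⟨h4, h5⟩ := (hR ρ hρ).1.short K' hK' c' hc'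
  refine ⟨by rw [List.length_map]; exact h4, ?_⟩
  intro p hp
  obtain ⟨q, hq, rfl⟩ := List.mem_map.1 hp
  refine h3 _ ?_
  have := h5 q hq
  rw [List.getD_eq_getElem _ _ (by omega)]
  exact List.getElem_mem _

theorem alts_zero (hΦ : ∀ φ ∈ Φ, φ.k ≤ r) (hR : ∀ ρ ∈ Rs, ρ.Good ∧ ρ.m ≤ r)
    (ho : FewOut Φ C o) {K : List NT} (hK : K ∈ alts r Rs C o) {x : List Bool}
    (hx : x.length = C.n) (hok : Ok K x) : C.env x o = false := by
  obtain ⟨ρ, hρ, L, ⟨h1, h2, h3⟩, ht, K', hK', rfl⟩ := mem_alts.1 hK
  obtain ⟨hg, hm⟩ := hR ρ hρ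
  rw [ok_mv h1 fun c hc => (hg.short K' hK' c hc).2] at hok
  have := hg.zero K' hK' (rs x L) (by rw [length_rs, h1]) hok
  rw [test_spec hΦ ho hm h1 h3 ht hx, decide_eq_false this]

theorem alts_step (hΦ : ∀ φ ∈ Φ, φ.k ≤ r) (hR : ∀ ρ ∈ Rs, ρ.Good ∧ ρ.m ≤ r)
    (ho : FewOut Φ C o) {K : List NT} (hK : K ∈ alts r Rs C o) {x : List Bool}
    (hx : x.length = C.n) (hok : Ok K x) {i : ℕ} (hi : i < C.n)
    (hf : C.env (flip x i) o = false) : Ok K (flip x i) := by
  obtain ⟨ρ, hρ, L, ⟨h1, h2, h3⟩, ht, K', hK', rfl⟩ := mem_alts.1 hK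
  obtain ⟨hg, hm⟩ := hR ρ hρ
  have hsh : ∀ c ∈ K', ∀ p ∈ c, p.1 < ρ.m := fun c hc => (hg.short K' hK' c hc).2
  rw [ok_mv h1 hsh] at hok ⊢
  rw [test_spec hΦ ho hm h1 h3 ht (by rw [length_flip]; exact hx), decide_eq_false_iff_not]
    at hf
  by_cases hiL : i ∈ L
  · obtain ⟨t, htL, rfl⟩ := List.getElem_of_mem hiL
    have e : rs (flip x L[t]) L = flip (rs x L) t := by
      refine ext_getD (by rw [length_flip, length_rs, length_rs]) fun s hs => ?_
      rw [length_rs] at hs
      rw [getD_flip _ _ _ (by rw [length_rs]; exact hs), rs_getD hs, rs_getD hs,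
        List.getD_eq_getElem L _ hs, getD_flip _ _ _ (by rw [hx]; exact h3 _ (List.getElem_mem _))]
      by_cases hst : t = s
      · subst hst
        rw [if_pos rfl, if_pos rfl]
      · rw [if_neg hst, if_neg]
        intro e'
        exact hst ((List.Nodup.getElem_inj_iff h2).1 e')
    rw [e] at hf ⊢
    exact hg.step K' hK' _ (by rw [length_rs, h1]) hok t (by omega) hf
  · have e : rs (flip x i) L = rs x L := by
      unfold rs
      refine List.map_congr_left fun j hj => ?_
      rw [getD_flip _ _ _ (by rw [hx]; exact h3 j hj), if_neg]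
      rintro rfl
      exact hiL hj
    rw [e]
    exact hok

theorem alts_cover (hΦ : ∀ φ ∈ Φ, φ.k ≤ r ∧ ¬ φ.Pattern) (hR : ∀ ρ ∈ Rs, ρ.Good ∧ ρ.m ≤ r)
    (hR' : ∀ m ≤ r, ∀ g : (Fin m → Bool) → Bool, (PF fun y => g y = false) → ∃ ρ ∈ Rs, ρ.m = m ∧
      ∀ y : List Bool, y.length = m → (y ∈ ρ.tab ↔ g (fn m y) = true))
    (ho : FewOut Φ C o) {x : List Bool} (hx : x.length = C.n) (hf : C.env x o = false) :
    ∃ K ∈ alts r Rs C o, Ok K x := by
  have ho' := ho
  obtain ⟨φ, hφ, σ, hσ, hval⟩ := ho
  set L := (usedL σ).dedup with hLdef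
  have hLm : L.length ≤ r := by
    have h1 := usedL_length σ
    have h2 := (hΦ φ hφ).1
    have h3 : L.length ≤ (usedL σ).length := (List.dedup_sublist _).length_le
    omega
  have hLn : ∀ i ∈ L, i < C.n := by
    intro i hi
    rw [hLdef, List.mem_dedup] at hi
    obtain ⟨j, b, hj⟩ := mem_usedL.1 hi
    have := hσ j
    rw [hj] at this
    exact this
  have hLnd : L.Nodup := List.nodup_dedup _
  let p : ℕ → Option (Fin L.length) := fun i =>
    if h : L.idxOf i < L.length then some ⟨L.idxOf i, h⟩ else none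
  obtain ⟨ρ, hρ, hρm, hρt⟩ := hR' L.length hLm
    (fun y => φ.f (fun j => (σ j).ev (ext p y))) (pf_minor (hΦ φ hφ).2 p σ)
  have hgx : ∀ x : List Bool, x.length = C.n →
      φ.f (fun j => (σ j).ev (ext p (fn L.length (rs x L)))) = C.env x o := by
    intro x hx
    rw [hval x hx]
    congr 1
    funext j
    cases hj : σ j with
    | const b => rfl
    | lit i b =>
      have hi : i ∈ L := by
        rw [hLdef, List.mem_dedup]
        exact mem_usedL.2 ⟨j, b, hj⟩
      have hidx : L.idxOf i < L.length := List.idxOf_lt_length_iff.2 hi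
      have hp : p i = some ⟨L.idxOf i, hidx⟩ := dif_pos hidx
      simp only [Arg.ev, Arg.val, ext, hp, fn]
      rw [rs_getD hidx, List.getD_eq_getElem L _ hidx, List.getElem_idxOf]
  have htab : ∀ x : List Bool, x.length = C.n → C.env x o = decide (rs x L ∈ ρ.tab) := by
    intro x hx
    rw [← hgx x hx, Bool.eq_iff_iff, decide_eq_true_eq, hρt (rs x L) (length_rs _ _)]
  have htest : test r ρ C o L = true := by
    unfold test
    rw [List.all_eq_true]
    intro t _
    rw [beq_iff_eq]
    exact htab _ (length_ind _ _)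
  rw [htab x hx, decide_eq_false_iff_not] at hf
  obtain ⟨hg, hm⟩ := hR ρ hρ
  obtain ⟨K', hK', hok⟩ := hg.cover (rs x L) (by rw [length_rs, hρm]) hf
  refine ⟨mv L K', mem_alts.2 ⟨ρ, hρ, L, ⟨hρm.symm, hLnd, hLn⟩, htest, K', hK', rfl⟩, ?_⟩
  rw [ok_mv hρm.symm fun c hc => (hg.short K' hK' c hc).2]
  exact hok

end

end Pool.Agent.MPa0a715.OD
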