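import Pool.Agent.Lib.MP_a0a715_lc_OD.Sys

/-!
# The simulating system is correct
-/

namespace Pool.Agent.MPa0a715.OD

section
variable {β₁ β₂ : Bool}

theorem lv_mp (X : VV → Bool) (ρ : ℕ → VV × Bool) (p : ℕ × Bool) :
    lv X ((ρ p.1).1, (ρ p.1).2 == p.2) = lv (fun i => lv X (ρ i)) p := by
  unfold lv
  dsimp only
  generalize X (ρ p.1).1 = a
  generalize (ρ p.1).2 = b
  generalize p.2 = c
  cases a <;> cases b <;> cases c <;> rfl

theorem cv_mp (X : VV → Bool) (ρ : ℕ → VV × Bool) (c : Cnd ℕ) :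
    cv β₁ β₂ X (mp ρ c) = cv β₁ β₂ (fun i => lv X (ρ i)) c := by
  obtain ⟨t, L⟩ := c
  match t, L with
  | false, L =>
    change (L.map _).all (lv X) = L.all _
    rw [List.all_map]
    congr 1
    funext p
    exact lv_mp X ρ p
  | true, [] => rfl
  | true, [a] => rfl
  | true, [a, b] => rfl
  | true, [a, b, c] =>
    change gval _ _ _ _ _ = gval _ _ _ _ _
    rw [lv_mp, lv_mp, lv_mp]
  | true, a :: b :: c :: d :: L => rfl

theorem imp_map {X X' : VV → Bool} {ρ : ℕ → VV × Bool} {e e' : ℕ → Bool} {L : List (Cnd ℕ)}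
    (h : ∀ c ∈ L, cv β₁ β₂ X (mp ρ c) = cv β₁ β₂ e c)
    (h' : ∀ c ∈ L, cv β₁ β₂ X' (mp ρ c) = cv β₁ β₂ e' c) :
    imp β₁ β₂ X X' (L.map (mp ρ)) = imp β₁ β₂ e e' L := by
  induction L with
  | nil => rfl
  | cons c L ih =>
    rw [List.map_cons, imp_cons, imp_cons, h c List.mem_cons_self, h' c List.mem_cons_self,
      ih (fun c hc => h c (List.mem_cons_of_mem _ hc)) fun c hc =>
        h' c (List.mem_cons_of_mem _ hc)]

theorem Ni_map {X X' : VV → Bool} {ρ : ℕ → VV × Bool} {e e' : ℕ → Bool} {L : List (Cnd ℕ)}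
    (h : ∀ c ∈ L, cv β₁ β₂ X (mp ρ c) = cv β₁ β₂ e c)
    (h' : ∀ c ∈ L, cv β₁ β₂ X' (mp ρ c) = cv β₁ β₂ e' c) :
    Ni β₁ β₂ X X' (L.map (mp ρ)) ↔ Ni β₁ β₂ e e' L := by
  unfold Ni
  rw [List.forall_mem_map]
  exact forall₂_congr fun c hc => by rw [h c hc, h' c hc]

end

theorem hard_idx : ∀ c ∈ hardL, ∀ p ∈ c.2, p.1 < 3 ∨ (7 ≤ p.1 ∧ p.1 ≤ 11) := by decide

theorem soft_idx : ∀ c ∈ softL, ∀ p ∈ c.2, 3 ≤ p.1 ∧ p.1 ≤ 13 := by decide

/-- the conjunctions are in order -/
def UOk (N : ℕ) (Us : List NT) : Prop :=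
  ∀ U ∈ Us, U.length ≤ 3 ∧ (U.map Prod.fst).Nodup ∧ ∀ p ∈ U, p.1 < N

section
variable {Us : List NT} {β₁ β₂ : Bool}

theorem rho_lt {k i : ℕ} (h : i < 3) : rho Us k i = ((0, (rt Us k i).1), (rt Us k i).2) := by
  unfold rho
  rw [if_pos h]

theorem rho_mid {k i : ℕ} (h : 3 ≤ i) (h' : i < 5) :
    rho Us k i = ((4, (rt Us k (i - 3)).1), false) := by
  unfold rho
  rw [if_neg (by omega), if_pos h']

theorem rho_ge {k i : ℕ} (h : 5 ≤ i) : rho Us k i = ((i, k), true) := by
  unfold rho
  rw [if_neg (by omega), if_neg (by omega)]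

theorem rho_kind (k i : ℕ) : (rho Us k i).1.1 = if i < 3 then 0 else if i < 5 then 4 else i := by
  unfold rho
  split_ifs <;> rfl

/-- kinds which do not occur in the important conditions of gadgets -/
def Out (κ : ℕ) : Prop := κ ≠ 0 ∧ (κ < 7 ∨ 11 < κ)

theorem av_hd {κ k : ℕ} (h : Out κ) : Av κ (hd Us k) := by
  intro c hc p hp
  obtain ⟨c', hc', rfl⟩ := List.mem_map.1 hc
  obtain ⟨p', hp', rfl⟩ := List.mem_map.1 hp
  change (rho Us k p'.1).1.1 ≠ κ
  rw [rho_kind]
  have := hard_idx c' hc' p' hp'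
  unfold Out at h
  split_ifs <;> omega

theorem up_kind {U : NT} {p : VV × Bool} (hp : p ∈ up U) : p.1.1 = 0 := by
  obtain ⟨q, _, rfl⟩ := List.mem_map.1 hp
  rfl

theorem av_blk {κ q : ℕ} (h : Out κ) : Av κ (blk Us q) := by
  unfold blk
  split_ifs
  · exact (av_hd h).append ((av_hd h).append (av_hd h))
  · intro c hc
    exact absurd hc List.not_mem_nil
  · intro c hc p hp
    rw [List.mem_singleton] at hc
    subst hc
    rw [up_kind hp]
    exact Ne.symm h.1

theorem av_pA {κ : ℕ} (h : Out κ) : Av κ (pA Us) := by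
  intro c hc
  obtain ⟨q, _, hc⟩ := List.mem_flatMap.1 hc
  exact av_blk h c hc

theorem restL_kind {k : ℕ} {p : VV × Bool} (hp : p ∈ restL Us k) : p.1.1 = 0 := up_kind hp

theorem fixL_kind {k : ℕ} {p : VV × Bool} (hp : p ∈ fixL Us k) : p.1.1 = 0 ∨ p.1.1 = 1 := by
  unfold fixL at hp
  split_ifs at hp
  · rcases List.mem_append.1 hp with hp | hp
    · exact Or.inl (up_kind hp)
    · obtain ⟨q, _, rfl⟩ := List.mem_map.1 hp
      exact Or.inr rfl
  · simp only [List.mem_cons, List.not_mem_nil, or_false] at hp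
    rcases hp with rfl | rfl <;> exact Or.inl rfl

theorem selL_kind {k : ℕ} {p : VV × Bool} (hp : p ∈ selL k) : p.1.1 = 2 := by
  rcases List.mem_cons.1 hp with rfl | hp
  · rfl
  · obtain ⟨q, _, rfl⟩ := List.mem_map.1 hp
    rfl

theorem naL_kind {k : ℕ} {p : VV × Bool} (hp : p ∈ naL Us k) : p.1.1 = 3 := by
  obtain ⟨q, _, rfl⟩ := List.mem_map.1 hp
  rfl

theorem mcaL_kind {k : ℕ} {p : VV × Bool} (hp : p ∈ mcaL Us k) : p.1.1 = 4 ∨ p.1.1 = 0 := by
  unfold mcaL at hp
  simp only [List.mem_cons, List.not_mem_nil, or_false] at hp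
  rcases hp with rfl | rfl
  · exact Or.inl rfl
  · exact Or.inr rfl

theorem mcbL_kind {k : ℕ} {p : VV × Bool} (hp : p ∈ mcbL Us k) : p.1.1 = 4 ∨ p.1.1 = 0 := by
  unfold mcbL at hp
  simp only [List.mem_cons, List.not_mem_nil, or_false] at hp
  rcases hp with rfl | rfl
  · exact Or.inl rfl
  · exact Or.inr rfl

variable {N : ℕ} {X : VV → Bool}

/-- local minimum -/
def Mn (β₁ β₂ : Bool) (N : ℕ) (Us : List NT) (X : VV → Bool) : Prop :=
  ∀ v : VV, v.1 < 14 → v.2 < N + 3 * Us.length + 1 →
    imp β₁ β₂ X (flv X v) (conds Us N) = false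

section
variable (hX : Mn β₁ β₂ N Us X)

include hX

theorem rest_eq {k : ℕ} (hk : k < 3 * Us.length) : X (1, k) = (restL Us k).all (lv X) := by
  refine gate_right (m := 3 * Us.length) hk (av_pA (Us := Us) ⟨by omega, by omega⟩) ?_
    (hX (1, k) (by simp) (by dsimp only; omega))
  intro k _ p hp
  rw [restL_kind hp]
  omega

theorem fix_eq {k : ℕ} (hk : k < 3 * Us.length) : X (2, k) = (fixL Us k).all (lv X) := by
  have h := hX (2, k) (by simp) (by dsimp only; omega)
  unfold conds at h
  rw [← List.append_assoc] at h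
  refine gate_right hk (Av.append (av_pA ⟨by omega, by omega⟩) (av_pG (by omega) ?_)) ?_ h
  · intro k _ p hp
    rw [restL_kind hp]
    omega
  · intro k _ p hp
    have := fixL_kind hp
    omega

theorem sel_eq {k : ℕ} (hk : k < 3 * Us.length) : X (3, k) = (selL k).all (lv X) := by
  have h := hX (3, k) (by simp) (by dsimp only; omega)
  unfold conds at h
  rw [← List.append_assoc, ← List.append_assoc] at h
  refine gate_right hk (Av.append (Av.append (av_pA ⟨by omega, by omega⟩)
    (av_pG (by omega) ?_)) (av_pG (by omega) ?_)) ?_ h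
  · intro k _ p hp
    rw [restL_kind hp]
    omega
  · intro k _ p hp
    have := fixL_kind hp
    omega
  · intro k _ p hp
    have := selL_kind hp
    omega

theorem na_eq {x : ℕ} (hx : x < N) : X (4, x) = (naL Us x).all (lv X) := by
  have h := hX (4, x) (by simp) (by dsimp only; omega)
  unfold conds at h
  rw [← List.append_assoc, ← List.append_assoc, ← List.append_assoc] at h
  refine gate_right hx (Av.append (Av.append (Av.append (av_pA ⟨by omega, by omega⟩)
    (av_pG (by omega) ?_)) (av_pG (by omega) ?_)) (av_pG (by omega) ?_)) ?_ h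
  · intro k _ p hp
    rw [restL_kind hp]
    omega
  · intro k _ p hp
    have := fixL_kind hp
    omega
  · intro k _ p hp
    have := selL_kind hp
    omega
  · intro k _ p hp
    have := naL_kind hp
    omega

theorem mca_eq {k : ℕ} (hk : k < 3 * Us.length) : X (5, k) = (mcaL Us k).all (lv X) := by
  have h := hX (5, k) (by simp) (by dsimp only; omega)
  unfold conds at h
  rw [← List.append_assoc, ← List.append_assoc, ← List.append_assoc,
    ← List.append_assoc] at h
  refine gate_right hk (Av.append (Av.append (Av.append (Av.append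
    (av_pA ⟨by omega, by omega⟩) (av_pG (by omega) ?_)) (av_pG (by omega) ?_))
    (av_pG (by omega) ?_)) (av_pG (by omega) ?_)) ?_ h
  · intro k _ p hp
    rw [restL_kind hp]
    omega
  · intro k _ p hp
    have := fixL_kind hp
    omega
  · intro k _ p hp
    have := selL_kind hp
    omega
  · intro k _ p hp
    have := naL_kind hp
    omega
  · intro k _ p hp
    have := mcaL_kind hp
    omega

theorem mcb_eq {k : ℕ} (hk : k < 3 * Us.length) : X (6, k) = (mcbL Us k).all (lv X) := by
  have h := hX (6, k) (by simp) (by dsimp only; omega)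
  unfold conds at h
  rw [← List.append_assoc, ← List.append_assoc, ← List.append_assoc,
    ← List.append_assoc, ← List.append_assoc] at h
  refine gate_right hk (Av.append (Av.append (Av.append (Av.append (Av.append
    (av_pA ⟨by omega, by omega⟩) (av_pG (by omega) ?_)) (av_pG (by omega) ?_))
    (av_pG (by omega) ?_)) (av_pG (by omega) ?_)) (av_pG (by omega) ?_)) ?_ h
  · intro k _ p hp
    rw [restL_kind hp]
    omega
  · intro k _ p hp
    have := fixL_kind hp
    omega
  · intro k _ p hp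
    have := selL_kind hp
    omega
  · intro k _ p hp
    have := naL_kind hp
    omega
  · intro k _ p hp
    have := mcaL_kind hp
    omega
  · intro k _ p hp
    have := mcbL_kind hp
    omega

end

/-! ### the gadgets -/

/-- the state of the gadget -/
def en (Us : List NT) (X : VV → Bool) (k : ℕ) : ℕ → Bool := fun i => lv X (rho Us k i)

theorem en_flip_aux {k i : ℕ} (hi : 7 ≤ i) :
    en Us (flv X (i, k)) k = flv (en Us X k) i := by
  funext j
  by_cases hj : j = i
  · subst hj
    rw [flv_self]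
    unfold en
    rw [rho_ge (by omega)]
    simp only [lv, flv_self]
    cases X (j, k) <;> rfl
  · rw [flv_ne _ hj]
    unfold en lv
    rw [flv_ne]
    intro e
    have h1 := congrArg Prod.fst e
    rw [rho_kind] at h1
    dsimp only at h1
    split_ifs at h1 <;> omega

theorem ni_gadget {k : ℕ} {v : VV} (h : ∀ i, i < 3 ∨ (7 ≤ i ∧ i ≤ 11) → (rho Us k i).1 ≠ v) :
    Ni β₁ β₂ X (flv X v) (hd Us k) := by
  refine ni_of_eq fun c hc p hp => ?_
  obtain ⟨c', hc', rfl⟩ := List.mem_map.1 hc
  obtain ⟨p', hp', rfl⟩ := List.mem_map.1 hp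
  exact h _ (hard_idx c' hc' p' hp')

theorem ni_gadget_s {k : ℕ} {v : VV} (h : ∀ i, 3 ≤ i → i ≤ 13 → (rho Us k i).1 ≠ v) :
    Ni β₁ β₂ X (flv X v) (sd Us k) := by
  refine ni_of_eq fun c hc p hp => ?_
  obtain ⟨c', hc', rfl⟩ := List.mem_map.1 hc
  obtain ⟨p', hp', rfl⟩ := List.mem_map.1 hp
  have := soft_idx c' hc' p' hp'
  exact h _ this.1 this.2

theorem rho_ne_aux {k k' i j : ℕ} (hi : 7 ≤ i) (hk : k' ≠ k) : (rho Us k' j).1 ≠ (i, k) := by
  intro e
  have h1 := congrArg Prod.fst e
  have h2 := congrArg Prod.snd e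
  rw [rho_kind] at h1
  dsimp only at h1 h2
  split_ifs at h1 with h3 h4
  · omega
  · omega
  · rw [rho_ge (by omega)] at h2
    exact hk h2

/-- in a local minimum the gadgets are in local minima -/
theorem gadget_min (hX : Mn β₁ β₂ N Us X) {q r : ℕ} (hq : q < Us.length) (hr : r < 3)
    (h3 : (Us.getD q []).length = 3) {i : ℕ} (hi : 7 ≤ i) (hi' : i ≤ 13) :
    imp β₁ β₂ (en Us X (3 * q + r)) (flv (en Us X (3 * q + r)) i) (hardL ++ softL) = false := by
  by_contra hcon
  rw [Bool.not_eq_false] at hcon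
  obtain ⟨k, hk⟩ : ∃ k, k = 3 * q + r := ⟨_, rfl⟩
  rw [← hk] at hcon
  have hmin := hX (i, k) (by dsimp only; omega) (by dsimp only; omega)
  suffices h : imp β₁ β₂ X (flv X (i, k)) (conds Us N) = true by
    rw [h] at hmin
    exact absurd hmin (by simp)
  have hH : ∀ c ∈ hardL, cv β₁ β₂ X (mp (rho Us k) c) = cv β₁ β₂ (en Us X k) c :=
    fun c _ => cv_mp X _ c
  have hH' : ∀ c ∈ hardL, cv β₁ β₂ (flv X (i, k)) (mp (rho Us k) c) =
      cv β₁ β₂ (flv (en Us X k) i) c := fun c _ => by
    rw [cv_mp, ← en_flip_aux hi]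
    rfl
  have hS : ∀ c ∈ softL, cv β₁ β₂ X (mp (rho Us k) c) = cv β₁ β₂ (en Us X k) c :=
    fun c _ => cv_mp X _ c
  have hS' : ∀ c ∈ softL, cv β₁ β₂ (flv X (i, k)) (mp (rho Us k) c) =
      cv β₁ β₂ (flv (en Us X k) i) c := fun c _ => by
    rw [cv_mp, ← en_flip_aux hi]
    rfl
  have hno : ∀ k', k' ≠ k → Ni β₁ β₂ X (flv X (i, k)) (hd Us k') := fun k' hk' =>
    ni_gadget fun j _ => rho_ne_aux hi hk'
  have hnoS : ∀ k', k' ≠ k → Ni β₁ β₂ X (flv X (i, k)) (sd Us k') := fun k' hk' =>
    ni_gadget_s fun j _ _ => rho_ne_aux hi hk'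
  have hblk : ∀ j, j ≠ q → Ni β₁ β₂ X (flv X (i, k)) (blk Us j) := by
    intro j hj
    unfold blk
    split_ifs
    · exact (hno _ (by omega)).append ((hno _ (by omega)).append (hno _ (by omega)))
    · intro c hc
      exact absurd hc List.not_mem_nil
    · refine ni_of_eq fun c hc p hp e => ?_
      rw [List.mem_singleton] at hc
      subst hc
      have := up_kind hp
      rw [e] at this
      dsimp only at this
      omega
  have hsbk : ∀ j, j ≠ q → Ni β₁ β₂ X (flv X (i, k)) (sbk Us j) := by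
    intro j hj
    unfold sbk
    split_ifs
    · exact (hnoS _ (by omega)).append ((hnoS _ (by omega)).append (hnoS _ (by omega)))
    · intro c hc
      exact absurd hc List.not_mem_nil
  rcases imp_append_cases hcon with h1 | ⟨h1, h2⟩
  · unfold conds
    refine imp_left (imp_flatMap hq (fun j hj => hblk j (by omega)) ?_)
    have h4 : imp β₁ β₂ X (flv X (i, k)) (hd Us k) = true := by
      unfold hd
      rw [imp_map hH hH', h1]
    unfold blk
    rw [if_pos h3]
    have hr' : r = 0 ∨ r = 1 ∨ r = 2 := by omega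
    rcases hr' with rfl | rfl | rfl
    · rw [hk] at h4 ⊢
      exact imp_left h4
    · refine imp_right (hno _ (by omega)) (imp_left ?_)
      rw [hk] at h4 ⊢
      exact h4
    · refine imp_right (hno _ (by omega)) (imp_right (hno _ (by omega)) ?_)
      rw [hk] at h4 ⊢
      exact h4
  · have h4 : Ni β₁ β₂ X (flv X (i, k)) (hd Us k) := by
      unfold hd
      rw [Ni_map hH hH']
      exact h1
    have h5 : imp β₁ β₂ X (flv X (i, k)) (sd Us k) = true := by
      unfold sd
      rw [imp_map hS hS', h2]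
    have hnk : ∀ k', Ni β₁ β₂ X (flv X (i, k)) (hd Us k') := by
      intro k'
      by_cases e : k' = k
      · rw [e]
        exact h4
      · exact hno k' e
    unfold conds
    refine imp_right ?_ (imp_right (Av.ni (av_pG (by omega) ?_)) (imp_right
      (Av.ni (av_pG (by omega) ?_)) (imp_right (Av.ni (av_pG (by omega) ?_)) (imp_right
      (Av.ni (av_pG (by omega) ?_)) (imp_right (Av.ni (av_pG (by omega) ?_)) (imp_right
      (Av.ni (av_pG (by omega) ?_)) ?_))))))
    · unfold pA
      refine Ni.flatMap fun j _ => ?_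
      by_cases e : j = q
      · rw [e]
        unfold blk
        rw [if_pos h3]
        exact (hnk _).append ((hnk _).append (hnk _))
      · exact hblk j e
    · intro k _ p hp
      rw [restL_kind hp]
      omega
    · intro k _ p hp
      have := fixL_kind hp
      omega
    · intro k _ p hp
      have := selL_kind hp
      omega
    · intro k _ p hp
      have := naL_kind hp
      omega
    · intro k _ p hp
      have := mcaL_kind hp
      omega
    · intro k _ p hp
      have := mcbL_kind hp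
      omega
    · refine imp_flatMap hq (fun j hj => hsbk j (by omega)) ?_
      unfold sbk
      rw [if_pos h3]
      have hr' : r = 0 ∨ r = 1 ∨ r = 2 := by omega
      rcases hr' with rfl | rfl | rfl
      · rw [hk] at h5 ⊢
        exact imp_left h5
      · refine imp_right (hnoS _ (by omega)) (imp_left ?_)
        rw [hk] at h5 ⊢
        exact h5
      · refine imp_right (hnoS _ (by omega)) (imp_right (hnoS _ (by omega)) ?_)
        rw [hk] at h5 ⊢
        exact h5

end

end Pool.Agent.MPa0a715.OD
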