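import Pool.Agent.Lib.MP_a0a715_lc_OD.Corr

/-!
# Local minima of the simulating system
-/

namespace Pool.Agent.MPa0a715.OD

section
variable {Us : List NT} {β₁ β₂ : Bool} {N : ℕ} {X : VV → Bool}

theorem lv_true {V : Type} {X : V → Bool} {p : V × Bool} : lv X p = true ↔ X p.1 = p.2 := by
  unfold lv
  simp

theorem all_up {U : NT} : (up U).all (lv X) = true ↔ ∀ p ∈ U, X (0, p.1) = p.2 := by
  unfold up
  rw [List.all_eq_true, List.forall_mem_map]
  exact forall₂_congr fun p _ => lv_true

section
variable (hX : Mn β₁ β₂ N Us X)

include hX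

theorem rest_iff {k : ℕ} (hk : k < 3 * Us.length) : X (1, k) = true ↔
    ∀ p ∈ uu Us k, p.1 ≠ (rt Us k 0).1 → X (0, p.1) = p.2 := by
  rw [rest_eq hX hk]
  unfold restL
  rw [all_up]
  simp only [List.mem_filter, decide_eq_true_eq, and_imp]

theorem fix_iff {k : ℕ} (hk : k < 3 * Us.length) : X (2, k) = true ↔
    okp Us k = true ∧ (∀ p ∈ uu Us k, X (0, p.1) = p.2) ∧ ∀ k' < 3 * (k / 3),
      okp Us k' = true → rt Us k' 0 = ((rt Us k 0).1, !(rt Us k 0).2) → X (1, k') = false := by
  rw [fix_eq hX hk]
  unfold fixL
  by_cases h : okp Us k = true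
  · rw [if_pos h, List.all_append, Bool.and_eq_true, all_up]
    refine ⟨fun ⟨h1, h2⟩ => ⟨h, h1, ?_⟩, fun ⟨_, h1, h2⟩ => ⟨h1, ?_⟩⟩
    · intro k' hk' h3 h4
      rw [List.all_eq_true, List.forall_mem_map] at h2
      have := h2 k' (by
        rw [List.mem_filter, List.mem_range, Bool.and_eq_true, decide_eq_true_eq]
        exact ⟨hk', h3, h4⟩)
      exact lv_true.1 this
    · rw [List.all_eq_true, List.forall_mem_map]
      intro k' hk'
      rw [List.mem_filter, List.mem_range, Bool.and_eq_true, decide_eq_true_eq] at hk'
      exact lv_true.2 (h2 k' hk'.1 hk'.2.1 hk'.2.2)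
  · rw [if_neg h]
    refine ⟨fun h1 => ?_, fun h1 => absurd h1.1 h⟩
    exfalso
    simp only [List.all_cons, List.all_nil, lv, Bool.and_true, Bool.and_eq_true] at h1
    revert h1
    cases X (0, 0) <;> simp

theorem sel_iff {k : ℕ} (hk : k < 3 * Us.length) : X (3, k) = true ↔
    X (2, k) = true ∧ ∀ k' < k, X (2, k') = false := by
  rw [sel_eq hX hk]
  unfold selL
  rw [List.all_cons, Bool.and_eq_true, lv_true, List.all_eq_true, List.forall_mem_map]
  refine and_congr_right fun _ => ?_
  simp only [List.mem_range]
  exact forall₂_congr fun k' _ => lv_true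

theorem na_iff {x : ℕ} (hx : x < N) : X (4, x) = false ↔
    ∃ k < 3 * Us.length, okp Us k = true ∧ (rt Us k 0).1 = x ∧ X (3, k) = true := by
  rw [na_eq hX hx, ← Bool.not_eq_true]
  unfold naL
  rw [List.all_eq_true, List.forall_mem_map]
  simp only [List.mem_filter, List.mem_range, Bool.and_eq_true, decide_eq_true_eq, lv_true]
  push Not
  simp only [ne_eq, Bool.not_eq_false]
  constructor
  · rintro ⟨k, ⟨h1, h2, h3⟩, h4⟩
    exact ⟨k, h1, h2, h3, h4⟩
  · rintro ⟨k, h1, h2, h3, h4⟩
    exact ⟨k, ⟨h1, h2, h3⟩, h4⟩

theorem sel_unique {k k' : ℕ} (hk : k < 3 * Us.length) (hk' : k' < 3 * Us.length)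
    (h : X (3, k) = true) (h' : X (3, k') = true) : k = k' := by
  rw [sel_iff hX hk] at h
  rw [sel_iff hX hk'] at h'
  rcases Nat.lt_trichotomy k k' with h1 | h1 | h1
  · have := h'.2 k h1
    rw [h.1] at this
    exact absurd this (by simp)
  · exact h1
  · have := h.2 k' h1
    rw [h'.1] at this
    exact absurd this (by simp)

theorem na_unique {x y : ℕ} (hx : x < N) (hy : y < N) (h : X (4, x) = false)
    (h' : X (4, y) = false) : x = y := by
  obtain ⟨k, h1, _, h3, h4⟩ := (na_iff hX hx).1 h
  obtain ⟨k', h1', _, h3', h4'⟩ := (na_iff hX hy).1 h'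
  have := sel_unique hX h1 h1' h4 h4'
  subst this
  rw [← h3, ← h3']

end

/-! ### positions in conjunctions of length three -/

theorem uu_eq {q r : ℕ} (hr : r < 3) : uu Us (3 * q + r) = Us.getD q [] := by
  unfold uu
  congr 1
  omega

theorem mem_Us {q : ℕ} (hq : q < Us.length) : Us.getD q [] ∈ Us := by
  rw [List.getD_eq_getElem _ _ hq]
  exact List.getElem_mem hq

theorem rt_mem3 {q r j : ℕ} (hr : r < 3) (h3 : (Us.getD q []).length = 3) :
    rt Us (3 * q + r) j ∈ Us.getD q [] := by
  unfold rt
  have h : (3 * q + r + j) % 3 < (Us.getD q []).length := by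
    rw [h3]
    exact Nat.mod_lt _ (by omega)
  rw [uu_eq hr, List.getD_eq_getElem _ _ h]
  exact List.getElem_mem h

theorem rt_inj (hU : UOk N Us) {q r i j : ℕ} (hq : q < Us.length) (hr : r < 3)
    (h3 : (Us.getD q []).length = 3) (hi : i < 3) (hj : j < 3)
    (h : (rt Us (3 * q + r) i).1 = (rt Us (3 * q + r) j).1) : i = j := by
  have hn := (hU _ (mem_Us hq)).2.1
  unfold rt at h
  rw [uu_eq hr] at h
  generalize Us.getD q [] = U at h hn h3
  have h1 : (3 * q + r + i) % 3 < U.length := by
    rw [h3]
    exact Nat.mod_lt _ (by omega)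
  have h2 : (3 * q + r + j) % 3 < U.length := by
    rw [h3]
    exact Nat.mod_lt _ (by omega)
  rw [List.getD_eq_getElem _ _ h1, List.getD_eq_getElem _ _ h2] at h
  have h4 : (U.map Prod.fst)[(3 * q + r + i) % 3]'(by rw [List.length_map]; exact h1) =
      (U.map Prod.fst)[(3 * q + r + j) % 3]'(by rw [List.length_map]; exact h2) := by
    rw [List.getElem_map, List.getElem_map]
    exact h
  have h5 := (List.Nodup.getElem_inj_iff hn).1 h4
  omega

/-- the position of a literal -/
theorem exists_pos (hU : UOk N Us) {q : ℕ} (hq : q < Us.length) {p : ℕ × Bool}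
    (hp : p ∈ Us.getD q []) : ∃ r < 3, okp Us (3 * q + r) = true ∧ rt Us (3 * q + r) 0 = p := by
  obtain ⟨r, hr, hrp⟩ := List.getElem_of_mem hp
  have hl := (hU _ (mem_Us hq)).1
  have h3 : r < 3 := by omega
  refine ⟨r, h3, ?_, ?_⟩
  · unfold okp
    rw [uu_eq h3, decide_eq_true_eq]
    omega
  · unfold rt
    have e : (3 * q + r + 0) % 3 = r := by omega
    rw [uu_eq h3, e, List.getD_eq_getElem _ _ hr, hrp]

theorem uniq_var (hU : UOk N Us) {q : ℕ} (hq : q < Us.length) {p p' : ℕ × Bool}
    (hp : p ∈ Us.getD q []) (hp' : p' ∈ Us.getD q []) (h : p.1 = p'.1) : p = p' :=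
  List.inj_on_of_nodup_map (hU _ (mem_Us hq)).2.1 hp hp' h

/-- the modes of the gadgets are consistent -/
theorem vm_en (hU : UOk N Us) (hX : Mn β₁ β₂ N Us X) {q r : ℕ} (hq : q < Us.length)
    (hr : r < 3) (h3 : (Us.getD q []).length = 3) : vm (en Us X (3 * q + r)) = true := by
  obtain ⟨k, hk⟩ : ∃ k, k = 3 * q + r := ⟨_, rfl⟩
  have hk3 : k < 3 * Us.length := by omega
  have hlt : ∀ j, (rt Us k j).1 < N := fun j => by
    rw [hk]
    exact (hU _ (mem_Us hq)).2.2 _ (rt_mem3 hr h3)
  have hne : ∀ i j, i < 3 → j < 3 → i ≠ j → ¬ (X (4, (rt Us k i).1) = false ∧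
      X (4, (rt Us k j).1) = false) := by
    rintro i j hi hj hij ⟨h1, h2⟩
    have := na_unique hX (hlt i) (hlt j) h1 h2
    rw [hk] at this
    exact hij (rt_inj hU hq hr h3 hi hj this)
  rw [← hk]
  have e0 : en Us X k 0 = (X (0, (rt Us k 0).1) == (rt Us k 0).2) := by
    unfold en
    rw [rho_lt (by omega)]
    rfl
  have e3 : en Us X k 3 = (X (4, (rt Us k 0).1) == false) := by
    unfold en
    rw [rho_mid (by omega) (by omega)]
    rfl
  have e4 : en Us X k 4 = (X (4, (rt Us k 1).1) == false) := by
    unfold en
    rw [rho_mid (by omega) (by omega)]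
    rfl
  have e5 : en Us X k 5 = ((X (4, (rt Us k 2).1) == false) &&
      (X (0, (rt Us k 0).1) == !(rt Us k 0).2)) := by
    unfold en
    rw [rho_ge (by omega)]
    change (X (5, k) == true) = _
    rw [mca_eq hX hk3]
    unfold mcaL
    simp [lv]
  have e6 : en Us X k 6 = ((X (4, (rt Us k 2).1) == false) &&
      (X (0, (rt Us k 0).1) == (rt Us k 0).2)) := by
    unfold en
    rw [rho_ge (by omega)]
    change (X (6, k) == true) = _
    rw [mcb_eq hX hk3]
    unfold mcbL
    simp [lv]
  have h01 := hne 0 1 (by omega) (by omega) (by omega)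
  have h02 := hne 0 2 (by omega) (by omega) (by omega)
  have h12 := hne 1 2 (by omega) (by omega) (by omega)
  unfold vm
  rw [e0, e3, e4, e5, e6]
  revert h01 h02 h12
  generalize X (4, (rt Us k 0).1) = a
  generalize X (4, (rt Us k 1).1) = b
  generalize X (4, (rt Us k 2).1) = c
  generalize X (0, (rt Us k 0).1) = d
  generalize (rt Us k 0).2 = e
  cases a <;> cases b <;> cases c <;> cases d <;> cases e <;> simp

/-- flipping the variable of one of the three literals -/
theorem en_flip {k x j : ℕ} (hj : j < 3) (hx : (rt Us k j).1 = x)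
    (hinj : ∀ i < 3, (rt Us k i).1 = x → i = j) :
    en Us (flv X (0, x)) k = flv (en Us X k) j := by
  funext i
  by_cases hij : i = j
  · subst hij
    rw [flv_self]
    unfold en
    rw [rho_lt hj, hx]
    simp only [lv, flv_self]
    generalize X (0, x) = a
    generalize (rt Us k i).2 = b
    cases a <;> cases b <;> rfl
  · rw [flv_ne _ hij]
    unfold en lv
    rw [flv_ne]
    intro e
    have h1 := congrArg Prod.fst e
    rw [rho_kind] at h1
    dsimp only at h1
    split_ifs at h1 with h3 h4
    · rw [rho_lt h3] at e
      exact hij (hinj i h3 (congrArg Prod.snd e))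
    · omega

/-- truth of a conjunction -/
def tU (X : VV → Bool) (U : NT) : Prop := U ≠ [] ∧ ∀ p ∈ U, X (0, p.1) = p.2

/-- the main theorem on the system: in a local minimum, no flip improves the list of
conjunctions -/
theorem main (hU : UOk N Us) (hX : Mn β₁ β₂ N Us X) {x q : ℕ} (hq : q < Us.length)
    (h1 : tU X (Us.getD q [])) (h2 : ¬ tU (flv X (0, x)) (Us.getD q []))
    (h3 : ∀ q' < q, tU (flv X (0, x)) (Us.getD q' []) → tU X (Us.getD q' [])) : False := by
  -- there is a position where flipping is an improvement
  have hex : ∃ k, k < 3 * Us.length ∧ X (2, k) = true := by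
    have hx : ∃ p ∈ Us.getD q [], p.1 = x := by
      by_contra hcon
      push Not at hcon
      apply h2
      refine ⟨h1.1, fun p hp => ?_⟩
      rw [flv_ne _ (fun e => hcon p hp (congrArg Prod.snd e))]
      exact h1.2 p hp
    obtain ⟨p, hp, hpx⟩ := hx
    obtain ⟨r, hr, hok, hrt⟩ := exists_pos hU hq hp
    refine ⟨3 * q + r, by omega, ?_⟩
    rw [fix_iff hX (by omega)]
    refine ⟨hok, ?_, ?_⟩
    · rw [uu_eq hr]
      exact h1.2
    · intro k' hk' hok' hrt'
      rw [hrt] at hrt'
      by_contra hcon
      rw [Bool.not_eq_false, rest_iff hX (by omega)] at hcon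
      have hq' : k' / 3 < q := by omega
      have hk'e : k' = 3 * (k' / 3) + k' % 3 := by omega
      have huu : uu Us k' = Us.getD (k' / 3) [] := rfl
      have hmem : rt Us k' 0 ∈ Us.getD (k' / 3) [] := by
        unfold rt
        unfold okp at hok'
        rw [decide_eq_true_eq] at hok'
        have e : (k' + 0) % 3 < (uu Us k').length := hok'
        rw [List.getD_eq_getElem _ _ e]
        exact List.getElem_mem e
      have h4 : tU (flv X (0, x)) (Us.getD (k' / 3) []) := by
        refine ⟨fun e => ?_, fun p' hp' => ?_⟩
        · rw [e] at hmem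
          exact absurd hmem List.not_mem_nil
        · by_cases hpp : p'.1 = x
          · have h5 : p' = rt Us k' 0 := by
              refine uniq_var hU (by omega) hp' hmem ?_
              rw [hrt']
              dsimp only
              rw [hpp, hpx]
            rw [h5, hrt']
            dsimp only
            rw [hpx, flv_self]
            congr 1
            rw [← hpx]
            exact h1.2 p hp
          · rw [flv_ne _ (fun e => hpp (congrArg Prod.snd e))]
            refine hcon p' hp' ?_
            rw [hrt']
            dsimp only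
            rw [hpx]
            exact hpp
      have h5 := (h3 _ hq' h4).2 _ hmem
      rw [hrt'] at h5
      dsimp only at h5
      rw [h1.2 p hp] at h5
      revert h5
      cases p.2 <;> simp
  -- the first such position
  obtain ⟨k, ⟨hk, hfix⟩, hmin⟩ : ∃ k, (k < 3 * Us.length ∧ X (2, k) = true) ∧
      ∀ k' < k, ¬ (k' < 3 * Us.length ∧ X (2, k') = true) :=
    ⟨Nat.find hex, Nat.find_spec hex, fun k' h => Nat.find_min hex h⟩
  have hsel : X (3, k) = true := by
    rw [sel_iff hX hk]
    refine ⟨hfix, fun k' hk' => ?_⟩
    have := hmin k' hk'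
    rw [← Bool.not_eq_true]
    exact fun h => this ⟨by omega, h⟩
  obtain ⟨hok, hlit, hrest⟩ := (fix_iff hX hk).1 hfix
  obtain ⟨q0, hq0⟩ : ∃ q0, q0 = k / 3 := ⟨_, rfl⟩
  obtain ⟨r0, hr0⟩ : ∃ r0, r0 = k % 3 := ⟨_, rfl⟩
  have hr3 : r0 < 3 := by omega
  have hke : k = 3 * q0 + r0 := by omega
  have hq0' : q0 < Us.length := by omega
  have huu : uu Us k = Us.getD q0 [] := by rw [hke, uu_eq hr3]
  obtain ⟨x0, hx0⟩ : ∃ x0, x0 = (rt Us k 0).1 := ⟨_, rfl⟩
  have hmem0 : rt Us k 0 ∈ Us.getD q0 [] := by
    rw [← huu]
    unfold rt
    unfold okp at hok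
    rw [decide_eq_true_eq] at hok
    have e : (k + 0) % 3 < (uu Us k).length := hok
    rw [List.getD_eq_getElem _ _ e]
    exact List.getElem_mem e
  have hxN : x0 < N := by
    rw [hx0]
    exact (hU _ (mem_Us hq0')).2.2 _ hmem0
  have hna : X (4, x0) = false := (na_iff hX hxN).2 ⟨k, hk, hok, hx0.symm, hsel⟩
  have hXx : X (0, x0) = (rt Us k 0).2 := by
    rw [hx0]
    exact hlit _ (by rw [huu]; exact hmem0)
  -- flipping the variable is an improvement
  have hmin0 := hX (0, x0) (by simp) (by dsimp only; omega)
  suffices h : imp β₁ β₂ X (flv X (0, x0)) (conds Us N) = true by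
    rw [h] at hmin0
    exact absurd hmin0 (by simp)
  unfold conds
  refine imp_left (imp_flatMap hq0' ?_ ?_)
  · -- more important conjunctions
    intro q' hq'
    have hq'' : q' < Us.length := by omega
    -- what we know about literals which become true
    have hopp : ∀ p ∈ Us.getD q' [], p.1 = x0 → X (0, p.1) ≠ p.2 →
        ∃ p' ∈ Us.getD q' [], p'.1 ≠ x0 ∧ X (0, p'.1) ≠ p'.2 := by
      intro p hp hpx hne
      obtain ⟨r, hr, hok', hrt'⟩ := exists_pos hU hq'' hp
      have h4 := hrest (3 * q' + r) (by omega) hok' (by
        rw [hrt']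
        refine Prod.ext ?_ ?_
        · dsimp only
          rw [hpx, hx0]
        · dsimp only
          rw [← hXx]
          rw [hpx] at hne
          revert hne
          cases X (0, x0) <;> cases p.2 <;> simp)
      rw [← Bool.not_eq_true, rest_iff hX (by omega), hrt', uu_eq hr] at h4
      push Not at h4
      obtain ⟨p', hp', h5, h6⟩ := h4
      exact ⟨p', hp', by rw [← hpx]; exact h5, h6⟩
    unfold blk
    split_ifs with hl3 hl0
    · -- three gadgets
      have hgad : ∀ r < 3, Ni β₁ β₂ X (flv X (0, x0)) (hd Us (3 * q' + r)) := by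
        intro r hr
        by_cases hocc : ∃ j < 3, (rt Us (3 * q' + r) j).1 = x0
        · obtain ⟨j, hj, hjx⟩ := hocc
          have hinj : ∀ i < 3, (rt Us (3 * q' + r) i).1 = x0 → i = j := fun i hi hix =>
            rt_inj hU hq'' hr hl3 hi hj (by rw [hix, hjx])
          have hg := gadget (vm_en hU hX hq'' hr hl3) fun i hi hi' =>
            gadget_min hX hq'' hr hl3 hi hi'
          unfold hd
          rw [Ni_map (e := en Us X (3 * q' + r)) (e' := flv (en Us X (3 * q' + r)) j)
            (fun c _ => cv_mp X _ c) (fun c _ => by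
              rw [cv_mp, ← en_flip hj hjx hinj]
              rfl)]
          rw [← ni_iff]
          have hen : ∀ i < 3, en Us X (3 * q' + r) i = true ↔
              X (0, (rt Us (3 * q' + r) i).1) = (rt Us (3 * q' + r) i).2 := by
            intro i hi
            unfold en
            rw [rho_lt hi, lv_true]
          -- another false literal
          have hother : en Us X (3 * q' + r) j = false →
              ∃ i < 3, i ≠ j ∧ en Us X (3 * q' + r) i = false := by
            intro hf
            rw [← Bool.not_eq_true, hen j hj] at hf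
            obtain ⟨p', hp', h5, h6⟩ := hopp _ (rt_mem3 hr hl3) hjx hf
            obtain ⟨m, hm, hmp⟩ := List.getElem_of_mem hp'
            obtain ⟨i, hi, him⟩ : ∃ i < 3, (3 * q' + r + i) % 3 = m := by
              rcases Nat.lt_or_ge m r with h | h
              · exact ⟨m + 3 - r, by omega, by omega⟩
              · exact ⟨m - r, by omega, by omega⟩
            have hpi : rt Us (3 * q' + r) i = p' := by
              unfold rt
              rw [uu_eq hr, him, List.getD_eq_getElem _ _ hm, hmp]
            refine ⟨i, hi, ?_, ?_⟩
            · intro e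
              rw [e] at hpi
              exact h5 (by rw [← hpi, hjx])
            · rw [← Bool.not_eq_true, hen i hi, hpi]
              exact h6
          have hk3 : 3 * q' + r < 3 * Us.length := by omega
          have hj' : j = 0 ∨ j = 1 ∨ j = 2 := by omega
          rcases hj' with rfl | rfl | rfl
          · refine hg.2.1 ?_
            cases hc : en Us X (3 * q' + r) 0 with
            | true => exact Or.inl rfl
            | false =>
              right
              obtain ⟨i, hi, hi0, hif⟩ := hother hc
              refine ⟨?_, ?_⟩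
              · unfold en
                rw [rho_mid (by omega) (by omega), lv_true]
                dsimp only
                rw [hjx]
                exact hna
              · have hi' : i = 1 ∨ i = 2 := by omega
                rcases hi' with rfl | rfl
                · exact Or.inl hif
                · exact Or.inr hif
          · refine hg.2.2.1 ?_
            cases hc : en Us X (3 * q' + r) 1 with
            | true => exact Or.inl rfl
            | false =>
              right
              obtain ⟨i, hi, hi0, hif⟩ := hother hc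
              refine ⟨?_, ?_⟩
              · unfold en
                rw [rho_mid (by omega) (by omega), lv_true]
                dsimp only
                rw [hjx]
                exact hna
              · have hi' : i = 0 ∨ i = 2 := by omega
                rcases hi' with rfl | rfl
                · exact Or.inl hif
                · exact Or.inr hif
          · refine hg.2.2.2 ?_
            cases hc : en Us X (3 * q' + r) 2 with
            | true => exact Or.inl rfl
            | false =>
              right
              obtain ⟨i, hi, hi0, hif⟩ := hother hc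
              refine ⟨?_, ?_⟩
              · have e5 : en Us X (3 * q' + r) 5 = (mcaL Us (3 * q' + r)).all (lv X) := by
                  unfold en
                  rw [rho_ge (by omega), ← mca_eq hX hk3]
                  unfold lv
                  cases X (5, 3 * q' + r) <;> rfl
                have e6 : en Us X (3 * q' + r) 6 = (mcbL Us (3 * q' + r)).all (lv X) := by
                  unfold en
                  rw [rho_ge (by omega), ← mcb_eq hX hk3]
                  unfold lv
                  cases X (6, 3 * q' + r) <;> rfl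
                rw [e5, e6]
                unfold mcaL mcbL lv
                simp only [List.all_cons, List.all_nil, Bool.and_true, hjx, hna]
                generalize X (0, (rt Us (3 * q' + r) 0).1) = a
                generalize (rt Us (3 * q' + r) 0).2 = b
                cases a <;> cases b <;> simp
              · have hi' : i = 0 ∨ i = 1 := by omega
                rcases hi' with rfl | rfl
                · exact Or.inl hif
                · exact Or.inr hif
        · push Not at hocc
          refine ni_gadget fun i hi e => ?_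
          rcases hi with hi | hi
          · rw [rho_lt hi] at e
            exact hocc i hi (congrArg Prod.snd e)
          · have h4 := congrArg Prod.fst e
            rw [rho_kind] at h4
            dsimp only at h4
            split_ifs at h4 <;> omega
      exact (hgad 0 (by omega)).append ((hgad 1 (by omega)).append (hgad 2 (by omega)))
    · intro c hc
      exact absurd hc List.not_mem_nil
    · -- short conjunctions
      intro c hc h4
      rw [List.mem_singleton] at hc
      subst hc
      change (up (Us.getD q' [])).all (lv (flv X (0, x0))) = true at h4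
      change (up (Us.getD q' [])).all (lv X) = true
      rw [all_up] at h4 ⊢
      by_contra hcon
      push Not at hcon
      obtain ⟨p, hp, hpX⟩ := hcon
      by_cases hpx : p.1 = x0
      · obtain ⟨p', hp', h5, h6⟩ := hopp p hp hpx hpX
        have h7 := h4 p' hp'
        rw [flv_ne _ (fun e => h5 (congrArg Prod.snd e))] at h7
        exact h6 h7
      · have h7 := h4 p hp
        rw [flv_ne _ (fun e => hpx (congrArg Prod.snd e))] at h7
        exact hpX h7
  · -- the conjunction itself
    rw [huu] at hlit
    unfold blk
    split_ifs with hl3 hl0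
    · -- literals are all true
      have hall : ∀ r < 3, ∀ i < 3, en Us X (3 * q0 + r) i = true := by
        intro r hr i hi
        unfold en
        rw [rho_lt hi, lv_true]
        exact hlit _ (rt_mem3 hr hl3)
      have hocc : ∀ r < 3, ∃ j < 3, (rt Us (3 * q0 + r) j).1 = x0 ∧
          (3 * q0 + r + j) % 3 = r0 := by
        intro r hr
        obtain ⟨j, hj, hjm⟩ : ∃ j < 3, (3 * q0 + r + j) % 3 = r0 := by
          rcases Nat.lt_or_ge r0 r with h | h
          · exact ⟨r0 + 3 - r, by omega, by omega⟩
          · exact ⟨r0 - r, by omega, by omega⟩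
        refine ⟨j, hj, ?_, hjm⟩
        have e0 : (k + 0) % 3 = r0 := by omega
        rw [hx0]
        unfold rt
        rw [uu_eq hr, huu, hjm, e0]
      have hgad : ∀ r < 3, Ni β₁ β₂ X (flv X (0, x0)) (hd Us (3 * q0 + r)) := by
        intro r hr
        obtain ⟨j, hj, hjx, _⟩ := hocc r hr
        have hinj : ∀ i < 3, (rt Us (3 * q0 + r) i).1 = x0 → i = j := fun i hi hix =>
          rt_inj hU hq0' hr hl3 hi hj (by rw [hix, hjx])
        have hg := gadget (vm_en hU hX hq0' hr hl3) fun i hi hi' =>
          gadget_min hX hq0' hr hl3 hi hi'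
        unfold hd
        rw [Ni_map (e := en Us X (3 * q0 + r)) (e' := flv (en Us X (3 * q0 + r)) j)
          (fun c _ => cv_mp X _ c) (fun c _ => by
            rw [cv_mp, ← en_flip hj hjx hinj]
            rfl)]
        rw [← ni_iff]
        have hj' : j = 0 ∨ j = 1 ∨ j = 2 := by omega
        rcases hj' with rfl | rfl | rfl
        · exact hg.2.1 (Or.inl (hall r hr 0 (by omega)))
        · exact hg.2.2.1 (Or.inl (hall r hr 1 (by omega)))
        · exact hg.2.2.2 (Or.inl (hall r hr 2 (by omega)))
      have himp : ∀ r < 3, (r + 2) % 3 = r0 →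
          imp β₁ β₂ X (flv X (0, x0)) (hd Us (3 * q0 + r)) = true := by
        intro r hr hrr
        obtain ⟨j, hj, hjx, hjm⟩ := hocc r hr
        have hj2 : j = 2 := by omega
        subst hj2
        have hinj : ∀ i < 3, (rt Us (3 * q0 + r) i).1 = x0 → i = 2 := fun i hi hix =>
          rt_inj hU hq0' hr hl3 hi hj (by rw [hix, hjx])
        have hg := gadget (vm_en hU hX hq0' hr hl3) fun i hi hi' =>
          gadget_min hX hq0' hr hl3 hi hi'
        unfold hd
        rw [imp_map (e := en Us X (3 * q0 + r)) (e' := flv (en Us X (3 * q0 + r)) 2)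
          (fun c _ => cv_mp X _ c) (fun c _ => by
            rw [cv_mp, ← en_flip hj hjx hinj]
            rfl)]
        exact hg.1 (hall r hr 0 (by omega)) (hall r hr 1 (by omega)) (hall r hr 2 (by omega))
      have hr' : r0 = 0 ∨ r0 = 1 ∨ r0 = 2 := by omega
      rcases hr' with h | h | h
      · exact imp_right (hgad 0 (by omega)) (imp_left (himp 1 (by omega) (by omega)))
      · exact imp_right (hgad 0 (by omega)) (imp_right (hgad 1 (by omega))
          (himp 2 (by omega) (by omega)))
      · exact imp_left (himp 0 (by omega) (by omega))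
    · rw [List.length_eq_zero_iff] at hl0
      rw [hl0] at hmem0
      exact absurd hmem0 List.not_mem_nil
    · refine imp_head ?_ ?_
      · change (up (Us.getD q0 [])).all (lv X) = true
        rw [all_up]
        exact hlit
      · change (up (Us.getD q0 [])).all (lv (flv X (0, x0))) = false
        rw [← Bool.not_eq_true, all_up]
        intro h4
        have h5 := h4 _ hmem0
        rw [← hx0, flv_self, hXx] at h5
        revert h5
        cases (rt Us k 0).2 <;> simp

end

end Pool.Agent.MPa0a715.OD
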