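import Mathlib

/-!
# The gadget for a conjunction of three literals
-/

namespace Pool.Agent.MPa0a715.OD

/-- the function with pattern, of three arguments; the two booleans are its unknown values -/
def gval (β₁ β₂ c a b : Bool) : Bool :=
  if a && b then (if c then β₂ else β₁) else !(c || a || b)

/-- conditions: conjunctions of literals, or the function applied to three literals -/
abbrev Cnd (V : Type) := Bool × List (V × Bool)

section
variable {V : Type}

/-- value of a literal -/
def lv (X : V → Bool) (p : V × Bool) : Bool := X p.1 == p.2

/-- value of a condition -/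
def cv (β₁ β₂ : Bool) (X : V → Bool) : Cnd V → Bool
  | (false, L) => L.all (lv X)
  | (true, [c, a, b]) => gval β₁ β₂ (lv X c) (lv X a) (lv X b)
  | (true, _) => false

/-- the values of the first condition that changes go from true to false -/
def imp (β₁ β₂ : Bool) (X X' : V → Bool) : List (Cnd V) → Bool
  | [] => false
  | c :: L => if cv β₁ β₂ X c then (!cv β₁ β₂ X' c) || imp β₁ β₂ X X' L
      else (!cv β₁ β₂ X' c) && imp β₁ β₂ X X' L

/-- no condition becomes true -/
def ni (β₁ β₂ : Bool) (X X' : V → Bool) (L : List (Cnd V)) : Bool :=
  L.all fun c => !(cv β₁ β₂ X' c) || cv β₁ β₂ X c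

end

/-- the important conditions of the gadget; the variables are `0, 1, 2` (the three literals),
`3, ..., 6` (the modes), `7, ..., 13` (the variables of the gadget) -/
def hardL : List (Cnd ℕ) :=
  [(false, [(8, true), (9, true)]), (false, [(10, true), (11, true)]),
   (false, [(8, true), (0, true)]), (false, [(10, true), (1, true)]),
   (true, [(7, true), (8, true), (9, true)]), (true, [(7, false), (10, true), (11, true)]),
   (false, [(9, true), (2, true)]), (false, [(11, true), (2, true)])]

/-- the unimportant conditions of the gadget -/
def softL : List (Cnd ℕ) :=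
  [(false, [(3, true), (7, false)]), (false, [(3, true), (8, true)]),
   (false, [(3, true), (10, false)]), (false, [(3, true), (11, false)]),
   (false, [(4, true), (7, true)]), (false, [(4, true), (10, true)]),
   (false, [(4, true), (8, false)]), (false, [(4, true), (9, false)]),
   (false, [(5, true), (9, true)]), (false, [(5, true), (8, false)]),
   (false, [(6, true), (11, true)]), (false, [(6, true), (10, false)]),
   (false, [(12, true), (5, false)]), (false, [(12, true), (9, false)]),
   (false, [(12, false)]),
   (false, [(13, true), (6, false)]), (false, [(13, true), (11, false)]),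
   (false, [(13, false)]),
   (false, [(12, true), (11, false)]), (false, [(12, true), (7, false)]),
   (false, [(13, true), (9, false)]), (false, [(13, true), (7, true)]),
   (false, [(5, true), (7, true)]), (false, [(5, true), (11, true)]),
   (false, [(6, true), (7, false)]), (false, [(6, true), (9, true)])]

/-- state given by the bits of a number -/
def ev (x : ℕ) (i : ℕ) : Bool := x.testBit i

/-- flip one bit -/
def fb (x : ℕ) (i : ℕ) : ℕ := x ^^^ (2 ^ i)

/-- what we need -/
def good (β₁ β₂ : Bool) (x : ℕ) : Bool :=
  (!(ev x 0 && ev x 1 && ev x 2) || imp β₁ β₂ (ev x) (ev (fb x 2)) hardL) &&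
  (!(ev x 0 || (ev x 3 && (!ev x 1 || !ev x 2))) || ni β₁ β₂ (ev x) (ev (fb x 0)) hardL) &&
  (!(ev x 1 || (ev x 4 && (!ev x 0 || !ev x 2))) || ni β₁ β₂ (ev x) (ev (fb x 1)) hardL) &&
  (!(ev x 2 || ((ev x 5 || ev x 6) && (!ev x 0 || !ev x 1))) ||
    ni β₁ β₂ (ev x) (ev (fb x 2)) hardL)

/-- the flip that is an improvement -/
def wit (ma mb a b z sa sc tb tc h k : Bool) : ℕ :=
  if sa && sc then 8 else if tb && tc then 10 else if sa && a then 8 else if tb && b then 10 else
  if !z && !sa && !sc then 7 else if z && !tb && !tc then 11 else
  if ma then (if z then 8 else if tb || tc then 7 else if !b then 10 else 11) else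
  if mb then (if !z then 10 else if sa || sc then 7 else if !a then 8 else 9) else
  if a then (if h then 12 else if tc then (if !z then 11 else if !k then 13 else
    if sc then 7 else 9) else if k then 13 else if z then 9 else if !tb then 10 else 7) else
  (if k then 13 else if sc then (if z then 9 else if !h then 12 else
    if tb || tc then 7 else 11) else if h then 12 else if !z then 11 else if !sa then 8 else 7)

/-- the modes are consistent -/
def vm (X : ℕ → Bool) : Bool :=
  !(X 3 && X 4) && !(X 3 && (X 5 || X 6)) && !(X 4 && (X 5 || X 6)) && (!X 5 || !X 0) &&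
    (!X 6 || X 0)

/-- the values of the function with pattern are known -/
def kn (X : ℕ → Bool) : Bool := !(X 8 && X 9) && !(X 10 && X 11)

/-- the check -/
def chk (x : ℕ) : Bool :=
  !vm (ev x) || !kn (ev x) || good false false x ||
    (let y := fb x (wit (ev x 3) (ev x 4) (ev x 0) (ev x 1)
      (ev x 7) (ev x 8) (ev x 9) (ev x 10) (ev x 11) (ev x 12) (ev x 13))
     kn (ev y) && imp false false (ev x) (ev y) (hardL ++ softL))

theorem gadget_aux : ∀ j < 128, ∀ i < 128, chk (i + 128 * j) = true := by
  decide +kernel

end Pool.Agent.MPa0a715.OD
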