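import Pool.Agent.Lib.MP_a0a715_lc_OD.Local

/-!
# The gadget for a conjunction of three literals: general states
-/

namespace Pool.Agent.MPa0a715.OD

section
variable {V : Type} {β₁ β₂ γ₁ γ₂ : Bool}

theorem cv_congr {c : Cnd V} {X Y : V → Bool} (h : ∀ p ∈ c.2, X p.1 = Y p.1) :
    cv β₁ β₂ X c = cv β₁ β₂ Y c := by
  have hl : ∀ p ∈ c.2, lv X p = lv Y p := fun p hp => by
    unfold lv
    rw [h p hp]
  obtain ⟨t, L⟩ := c
  dsimp only at hl
  match t, L, hl with
  | false, L, hl =>
    change L.all (lv X) = L.all (lv Y)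
    rw [Bool.eq_iff_iff, List.all_eq_true, List.all_eq_true]
    exact forall₂_congr fun p hp => by rw [hl p hp]
  | true, [], _ => rfl
  | true, [a], _ => rfl
  | true, [a, b], _ => rfl
  | true, [a, b, c], hl =>
    change gval _ _ (lv X a) (lv X b) (lv X c) = gval _ _ (lv Y a) (lv Y b) (lv Y c)
    rw [hl a (by simp), hl b (by simp), hl c (by simp)]
  | true, a :: b :: c :: d :: L, _ => rfl

theorem imp_congr {X X' Y Y' : V → Bool} {L : List (Cnd V)}
    (h : ∀ c ∈ L, cv β₁ β₂ X c = cv γ₁ γ₂ Y c) (h' : ∀ c ∈ L, cv β₁ β₂ X' c = cv γ₁ γ₂ Y' c) :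
    imp β₁ β₂ X X' L = imp γ₁ γ₂ Y Y' L := by
  induction L with
  | nil => rfl
  | cons c L ih =>
    unfold imp
    rw [h c List.mem_cons_self, h' c List.mem_cons_self,
      ih (fun c hc => h c (List.mem_cons_of_mem _ hc)) fun c hc =>
        h' c (List.mem_cons_of_mem _ hc)]

theorem ni_congr {X X' Y Y' : V → Bool} {L : List (Cnd V)}
    (h : ∀ c ∈ L, cv β₁ β₂ X c = cv γ₁ γ₂ Y c) (h' : ∀ c ∈ L, cv β₁ β₂ X' c = cv γ₁ γ₂ Y' c) :
    ni β₁ β₂ X X' L = ni γ₁ γ₂ Y Y' L := by
  unfold ni
  rw [Bool.eq_iff_iff, List.all_eq_true, List.all_eq_true]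
  exact forall₂_congr fun c hc => by rw [h c hc, h' c hc]

theorem imp_head {X X' : V → Bool} {c : Cnd V} {L : List (Cnd V)} (h : cv β₁ β₂ X c = true)
    (h' : cv β₁ β₂ X' c = false) : imp β₁ β₂ X X' (c :: L) = true := by
  unfold imp
  rw [h, h']
  rfl

theorem imp_tail {X X' : V → Bool} {c : Cnd V} {L : List (Cnd V)}
    (h : cv β₁ β₂ X' c = true → cv β₁ β₂ X c = true) (h' : imp β₁ β₂ X X' L = true) :
    imp β₁ β₂ X X' (c :: L) = true := by
  unfold imp
  rw [h']
  revert h
  cases cv β₁ β₂ X c <;> cases cv β₁ β₂ X' c <;> simp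

end

/-- flip one variable -/
def flv {V : Type} [DecidableEq V] (X : V → Bool) (a : V) : V → Bool :=
  Function.update X a (!X a)

theorem flv_self {V : Type} [DecidableEq V] (X : V → Bool) (a : V) : flv X a a = !X a := by
  simp [flv]

theorem flv_ne {V : Type} [DecidableEq V] (X : V → Bool) {a b : V} (h : b ≠ a) :
    flv X a b = X b := by simp [flv, h]

theorem kn_cv {β₁ β₂ : Bool} {X : ℕ → Bool} (h : kn X = true) {c : Cnd ℕ}
    (hc : c ∈ hardL ++ softL) : cv β₁ β₂ X c = cv false false X c := by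
  obtain ⟨t, L⟩ := c
  cases t with
  | false => rfl
  | true =>
    have : L = [(7, true), (8, true), (9, true)] ∨ L = [(7, false), (10, true), (11, true)] := by
      simpa [hardL, softL] using hc
    unfold kn at h
    rcases this with rfl | rfl
    · simp only [cv, lv, gval]
      revert h
      cases X 8 <;> cases X 9 <;> simp
    · simp only [cv, lv, gval]
      revert h
      cases X 10 <;> cases X 11 <;> simp

theorem lists_lt : ∀ c ∈ hardL ++ softL, ∀ p ∈ c.2, p.1 < 14 := by decide

/-- the number with given bits -/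
def num14 (e : ℕ → Bool) : ℕ := Nat.ofBits (fun i : Fin 14 => e i)

theorem ev_num {e : ℕ → Bool} {i : ℕ} (hi : i < 14) : ev (num14 e) i = e i := by
  unfold ev num14
  rw [Nat.testBit_ofBits_lt _ _ hi]

theorem ev_fb {e : ℕ → Bool} {i j : ℕ} (hi : i < 14) (hj : j < 14) :
    ev (fb (num14 e) j) i = flv e j i := by
  unfold fb
  have : ev (num14 e ^^^ 2 ^ j) i = (ev (num14 e) i ^^ decide (j = i)) := by
    unfold ev
    rw [Nat.testBit_xor, Nat.testBit_two_pow]
  rw [this, ev_num hi]
  by_cases h : i = j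
  · subst h
    rw [flv_self]
    simp
  · rw [flv_ne _ h]
    have : ¬ j = i := fun h' => h h'.symm
    simp [this]

theorem chk_all {x : ℕ} (hx : x < 2 ^ 14) : chk x = true := by
  have h := gadget_aux (x / 128) (by omega) (x % 128) (by omega)
  rwa [Nat.mod_add_div] at h

theorem cv_num {β₁ β₂ : Bool} {e : ℕ → Bool} {c : Cnd ℕ} (hc : c ∈ hardL ++ softL) :
    cv β₁ β₂ (ev (num14 e)) c = cv β₁ β₂ e c :=
  cv_congr fun p hp => ev_num (lists_lt c hc p hp)

theorem cv_fb {β₁ β₂ : Bool} {e : ℕ → Bool} {j : ℕ} (hj : j < 14) {c : Cnd ℕ}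
    (hc : c ∈ hardL ++ softL) :
    cv β₁ β₂ (ev (fb (num14 e) j)) c = cv β₁ β₂ (flv e j) c :=
  cv_congr fun p hp => ev_fb (lists_lt c hc p hp) hj

theorem wit_mem (ma mb a b z sa sc tb tc h k : Bool) :
    7 ≤ wit ma mb a b z sa sc tb tc h k ∧ wit ma mb a b z sa sc tb tc h k ≤ 13 := by
  revert ma mb a b z sa sc tb tc h k
  decide +kernel

/-- the properties of the gadget -/
theorem gadget {β₁ β₂ : Bool} {e : ℕ → Bool} (hv : vm e = true)
    (hl : ∀ i, 7 ≤ i → i ≤ 13 → imp β₁ β₂ e (flv e i) (hardL ++ softL) = false) :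
    (e 0 = true → e 1 = true → e 2 = true → imp β₁ β₂ e (flv e 2) hardL = true) ∧
    ((e 0 = true ∨ (e 3 = true ∧ (e 1 = false ∨ e 2 = false))) →
      ni β₁ β₂ e (flv e 0) hardL = true) ∧
    ((e 1 = true ∨ (e 4 = true ∧ (e 0 = false ∨ e 2 = false))) →
      ni β₁ β₂ e (flv e 1) hardL = true) ∧
    ((e 2 = true ∨ ((e 5 = true ∨ e 6 = true) ∧ (e 0 = false ∨ e 1 = false))) →
      ni β₁ β₂ e (flv e 2) hardL = true) := by
  have h89 : (e 8 && e 9) = false := by
    by_contra hcon
    rw [Bool.not_eq_false, Bool.and_eq_true] at hcon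
    have := hl 8 (by omega) (by omega)
    rw [hardL, List.cons_append, imp_head] at this
    · exact absurd this (by simp)
    · simp [cv, lv, hcon.1, hcon.2]
    · simp [cv, lv, hcon.1, flv_self]
  have h1011 : (e 10 && e 11) = false := by
    by_contra hcon
    rw [Bool.not_eq_false, Bool.and_eq_true] at hcon
    have := hl 10 (by omega) (by omega)
    have e8 : flv e 10 8 = e 8 := flv_ne _ (by decide)
    have e9 : flv e 10 9 = e 9 := flv_ne _ (by decide)
    rw [hardL, List.cons_append, imp_tail] at this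
    · exact absurd this (by simp)
    · simp only [cv, lv, e8, e9, List.all_cons, List.all_nil]
      exact id
    · rw [List.cons_append, imp_head]
      · simp [cv, lv, hcon.1, hcon.2]
      · simp [cv, lv, hcon.1, flv_self]
  have hkn : kn e = true := by
    unfold kn
    rw [h89, h1011]
    rfl
  have hsub : ∀ c ∈ hardL, c ∈ hardL ++ softL := fun c hc => List.mem_append_left _ hc
  -- flips of the first three variables
  have hk : ∀ j < 3, kn (flv e j) = true := by
    intro j hj
    have : ∀ i, 3 ≤ i → flv e j i = e i := fun i hi => flv_ne _ (by omega)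
    unfold kn
    rw [this 8 (by omega), this 9 (by omega), this 10 (by omega), this 11 (by omega)]
    exact hkn
  have hi : ∀ j < 3, imp β₁ β₂ e (flv e j) hardL =
      imp false false (ev (num14 e)) (ev (fb (num14 e) j)) hardL := by
    intro j hj
    refine imp_congr (fun c hc => ?_) fun c hc => ?_
    · rw [cv_num (hsub c hc), kn_cv hkn (hsub c hc)]
    · rw [cv_fb (by omega) (hsub c hc), kn_cv (hk j hj) (hsub c hc)]
  have hn : ∀ j < 3, ni β₁ β₂ e (flv e j) hardL =
      ni false false (ev (num14 e)) (ev (fb (num14 e) j)) hardL := by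
    intro j hj
    refine ni_congr (fun c hc => ?_) fun c hc => ?_
    · rw [cv_num (hsub c hc), kn_cv hkn (hsub c hc)]
    · rw [cv_fb (by omega) (hsub c hc), kn_cv (hk j hj) (hsub c hc)]
  have hc := chk_all (x := num14 e) (Nat.ofBits_lt_two_pow _)
  have hvm : vm (ev (num14 e)) = true := by
    rw [← hv]
    unfold vm
    rw [ev_num (by omega), ev_num (by omega), ev_num (by omega), ev_num (by omega),
      ev_num (by omega)]
  have hkn' : kn (ev (num14 e)) = true := by
    rw [← hkn]
    unfold kn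
    rw [ev_num (by omega), ev_num (by omega), ev_num (by omega), ev_num (by omega)]
  unfold chk at hc
  rw [hvm, hkn'] at hc
  simp only [Bool.not_true, Bool.false_or] at hc
  rw [Bool.or_eq_true] at hc
  rcases hc with hc | hc
  · unfold good at hc
    simp only [ev_num (show 0 < 14 by omega), ev_num (show 1 < 14 by omega),
      ev_num (show 2 < 14 by omega), ev_num (show 3 < 14 by omega),
      ev_num (show 4 < 14 by omega), ev_num (show 5 < 14 by omega),
      ev_num (show 6 < 14 by omega), Bool.and_eq_true] at hc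
    obtain ⟨⟨⟨h1, h2⟩, h3⟩, h4⟩ := hc
    rw [hi 2 (by omega), hn 0 (by omega), hn 1 (by omega), hn 2 (by omega)]
    refine ⟨?_, ?_, ?_, ?_⟩
    · intro a1 a2 a3
      rw [a1, a2, a3] at h1
      simpa using h1
    · intro a1
      rcases a1 with a1 | ⟨a1, a2 | a2⟩ <;> rw [a1] at h2
      · simpa using h2
      · rw [a2] at h2
        simpa using h2
      · rw [a2] at h2
        simpa using h2
    · intro a1
      rcases a1 with a1 | ⟨a1, a2 | a2⟩ <;> rw [a1] at h3
      · simpa using h3
      · rw [a2] at h3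
        simpa using h3
      · rw [a2] at h3
        simpa using h3
    · intro a1
      rcases a1 with a1 | ⟨a1 | a1, a2 | a2⟩ <;> rw [a1] at h4
      · simpa using h4
      · rw [a2] at h4
        simpa using h4
      · rw [a2] at h4
        simpa using h4
      · rw [a2] at h4
        simpa using h4
      · rw [a2] at h4
        simpa using h4
  · exfalso
    obtain ⟨w, hw⟩ : ∃ w, w = wit (ev (num14 e) 3) (ev (num14 e) 4) (ev (num14 e) 0)
      (ev (num14 e) 1) (ev (num14 e) 7) (ev (num14 e) 8) (ev (num14 e) 9) (ev (num14 e) 10)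
      (ev (num14 e) 11) (ev (num14 e) 12) (ev (num14 e) 13) := ⟨_, rfl⟩
    rw [← hw] at hc
    have hwm : 7 ≤ w ∧ w ≤ 13 := by
      rw [hw]
      exact wit_mem _ _ _ _ _ _ _ _ _ _ _
    rw [Bool.and_eq_true] at hc
    have hk2 : kn (flv e w) = true := by
      rw [← hc.1]
      unfold kn
      rw [ev_fb (by omega) (by omega), ev_fb (by omega) (by omega),
        ev_fb (by omega) (by omega), ev_fb (by omega) (by omega)]
    have h5 := hl w hwm.1 hwm.2
    have h6 : imp β₁ β₂ e (flv e w) (hardL ++ softL) =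
        imp false false (ev (num14 e)) (ev (fb (num14 e) w)) (hardL ++ softL) := by
      refine imp_congr (fun c hc => ?_) fun c hc => ?_
      · rw [cv_num hc, kn_cv hkn hc]
      · rw [cv_fb (by omega) hc, kn_cv hk2 hc]
    rw [h6, hc.2] at h5
    exact absurd h5 (by simp)

end Pool.Agent.MPa0a715.OD
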