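import Mathlib

/-!
# Relations without the pattern: connected components are closed under majority
-/

namespace Pool.Agent.MPa0a715.OD

section
variable {ι : Type} [DecidableEq ι]

/-- flip one coordinate -/
def fl (x : ι → Bool) (i : ι) : ι → Bool := Function.update x i (!x i)

/-- flip the coordinates in `u` -/
def xr (x u : ι → Bool) : ι → Bool := fun i => xor (x i) (u i)

theorem fl_self (x : ι → Bool) (i : ι) : fl x i i = !x i := by simp [fl]

theorem fl_ne (x : ι → Bool) {i j : ι} (h : j ≠ i) : fl x i j = x j := by simp [fl, h]

theorem fl_fl (x : ι → Bool) (i : ι) : fl (fl x i) i = x := by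
  funext j
  by_cases h : j = i
  · subst h
    rw [fl_self, fl_self, Bool.not_not]
  · rw [fl_ne _ h, fl_ne _ h]

theorem xr_xr (x u : ι → Bool) : xr (xr x u) u = x := by
  funext i
  simp [xr]

/-- the relation does not contain the pattern -/
def PF (R : (ι → Bool) → Prop) : Prop :=
  ∀ g h k u : ι → Bool, (∀ i, h i = g i ∨ h i = k i) → (∀ i, u i = true → g i = k i) →
    R g → R (xr g u) → R (xr h u) → R (xr k u) → R k → R h

/-- there is a path from `x` to `y` inside `R` which changes every coordinate at most once -/
inductive Geo (R : (ι → Bool) → Prop) : (ι → Bool) → (ι → Bool) → Prop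
  | refl (x : ι → Bool) (h : R x) : Geo R x x
  | step (x y : ι → Bool) (j : ι) (h : R x) (hj : x j ≠ y j) (hg : Geo R (fl x j) y) : Geo R x y

variable {R : (ι → Bool) → Prop}

theorem Geo.left {x y : ι → Bool} (h : Geo R x y) : R x := by
  cases h <;> assumption

theorem Geo.right {x y : ι → Bool} (h : Geo R x y) : R y := by
  induction h with
  | refl x h => exact h
  | step x y j h hj hg ih => exact ih

theorem Geo.block (hR : PF R) {x y : ι → Bool} (h : Geo R x y) : ∀ g u : ι → Bool,
    xr g u = x → (∀ i, u i = true → x i = y i) → R g → R (xr y u) → Geo R g (xr y u) := by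
  induction h with
  | refl x h =>
    intro g u hx _ hg _
    rw [← hx, xr_xr]
    exact Geo.refl g hg
  | step x y j h hj hgeo ih =>
    intro g u hx hu hg hy
    have huj : u j = false := by
      by_contra hcon
      rw [Bool.not_eq_false] at hcon
      exact hj (hu j hcon)
    have hgj : g j = x j := by
      rw [← hx]
      simp [xr, huj]
    have hyj : xr y u j = y j := by simp [xr, huj]
    have hxf : xr (fl g j) u = fl x j := by
      funext i
      by_cases hi : i = j
      · subst hi
        rw [fl_self]
        simp [xr, fl_self, hgj, huj]
      · rw [fl_ne _ hi, ← hx]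
        simp only [xr, fl_ne _ hi]
    have hRh : R (fl g j) := by
      refine hR g (fl g j) (xr y u) u ?_ ?_ hg ?_ ?_ ?_ hy
      · intro i
        by_cases hi : i = j
        · right
          subst hi
          rw [fl_self, hgj, hyj]
          revert hj
          cases x i <;> cases y i <;> simp
        · left
          rw [fl_ne _ hi]
      · intro i hi
        have := hu i hi
        rw [← hx] at this
        simp only [xr, hi] at this ⊢
        rw [← this]
        simp
      · rw [hx]
        exact h
      · rw [hxf]
        exact hgeo.left
      · rw [xr_xr]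
        exact hgeo.right
    refine Geo.step g _ j hg ?_ (ih (fl g j) u hxf ?_ hRh hy)
    · rw [hgj, hyj]
      exact hj
    · intro i hi
      by_cases hij : i = j
      · subst hij
        rw [huj] at hi
        exact absurd hi (by simp)
      · rw [fl_ne _ hij]
        exact hu i hi

theorem Geo.adj_ne (hR : PF R) {x y : ι → Bool} (h : Geo R x y) {i : ι} (hi : y i ≠ x i)
    (hy : R (fl y i)) : Geo R x (fl y i) := by
  induction h with
  | refl x h => exact absurd rfl hi
  | step x y j h hj hg ih =>
    by_cases hij : j = i
    · subst hij
      obtain ⟨u, hu⟩ : ∃ u : ι → Bool, u = fun k => decide (k = j) := ⟨_, rfl⟩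
      have hxu : ∀ z : ι → Bool, xr z u = fl z j := by
        intro z
        funext k
        by_cases hk : k = j
        · subst hk
          rw [fl_self]
          simp [xr, hu]
        · rw [fl_ne _ hk]
          simp [xr, hu, hk]
      have := hg.block hR x u (hxu x) (by
        intro k hk
        rw [hu] at hk
        have hk' : k = j := of_decide_eq_true hk
        subst hk'
        rw [fl_self]
        revert hj
        cases x k <;> cases y k <;> simp) h (by rw [hxu]; exact hy)
      rw [hxu] at this
      exact this
    · refine Geo.step x _ j h ?_ (ih ?_ hy)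
      · rw [fl_ne _ hij]
        exact hj
      · rw [fl_ne _ (Ne.symm hij)]
        exact hi

theorem Geo.adj_eq {x y : ι → Bool} (h : Geo R x y) {i : ι} (hi : y i = x i)
    (hy : R (fl y i)) : Geo R x (fl y i) := by
  induction h with
  | refl x h =>
    refine Geo.step x _ i h ?_ (Geo.refl _ hy)
    rw [fl_self]
    cases x i <;> simp
  | step x y j h hj hg ih =>
    have hij : j ≠ i := by
      intro e
      rw [e] at hj
      exact hj hi.symm
    refine Geo.step x _ j h ?_ (ih ?_ hy)
    · rw [fl_ne _ hij]
      exact hj
    · rw [fl_ne _ (Ne.symm hij)]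
      exact hi

theorem Geo.adj (hR : PF R) {x y : ι → Bool} (h : Geo R x y) {i : ι} (hy : R (fl y i)) :
    Geo R x (fl y i) := by
  by_cases hi : y i = x i
  · exact h.adj_eq hi hy
  · exact h.adj_ne hR hi hy

theorem Geo.symm (hR : PF R) {x y : ι → Bool} (h : Geo R x y) : Geo R y x := by
  induction h with
  | refl x h => exact Geo.refl x h
  | step x y j h hj hg ih =>
    have := ih.adj hR (i := j) (by rw [fl_fl]; exact h)
    rwa [fl_fl] at this

theorem Geo.trans (hR : PF R) {x y z : ι → Bool} (h : Geo R x y) (h' : Geo R y z) :
    Geo R x z := by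
  induction h' with
  | refl y _ => exact h
  | step y z j _ _ hg ih => exact ih (h.adj hR hg.left)

/-- majority -/
def mj (x y z : ι → Bool) : ι → Bool := fun i => (x i && y i) || (x i && z i) || (y i && z i)

variable [Fintype ι]

/-- the number of coordinates where the three points do not agree -/
def nn (x y z : ι → Bool) : ℕ := (Finset.univ.filter fun i => ¬ (x i = y i ∧ y i = z i)).card

theorem nn_lt {x y z x' y' z' : ι → Bool}
    (h : ∀ i, x i = y i → y i = z i → x' i = y' i ∧ y' i = z' i)
    (h' : ∃ i, ¬ (x i = y i ∧ y i = z i) ∧ x' i = y' i ∧ y' i = z' i) :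
    nn x' y' z' < nn x y z := by
  unfold nn
  refine Finset.card_lt_card ?_
  rw [Finset.ssubset_iff_of_subset]
  · obtain ⟨i, h1, h2⟩ := h'
    exact ⟨i, by simpa using h1, by simpa using h2⟩
  · intro i hi
    simp only [Finset.mem_filter, Finset.mem_univ, true_and] at hi ⊢
    intro hcon
    exact hi (h i hcon.1 hcon.2)

/-- the point opposite to the majority with respect to the first two points -/
def op (x y z : ι → Bool) : ι → Bool := fun i => if x i = y i then x i else !z i

theorem star (hR : PF R) {x y z : ι → Bool} {N : ℕ} (hN : nn x y z = N)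
    (IH : ∀ x' y' z' : ι → Bool, nn x' y' z' < N → Geo R x' y' → Geo R x' z' →
      Geo R x' (mj x' y' z')) (hxz : Geo R x z) {cur : ι → Bool} (h : Geo R cur y) :
    Geo R x cur → (∀ i, cur i ≠ x i → y i ≠ x i ∧ z i = x i) →
      Geo R x (mj x y z) ∨ Geo R x (op x y z) := by
  obtain ⟨y0, hy0⟩ : ∃ y0, y0 = y := ⟨y, rfl⟩
  rw [← hy0] at h
  induction h with
  | refl cur h =>
    intro _ hinv
    subst hy0
    left
    have : mj x cur z = x := by
      funext i
      unfold mj
      by_cases hi : cur i = x i
      · rw [hi]
        cases x i <;> simp
      · have := (hinv i hi).2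
        rw [this]
        cases x i <;> simp
    rw [this]
    exact Geo.refl x hxz.left
  | step cur y1 j h hj hg ih =>
    intro hcur hinv
    subst hy0
    have hcx : cur j = x j := by
      by_contra hcon
      have := (hinv j hcon).1
      revert hcon this hj
      cases cur j <;> cases x j <;> cases y1 j <;> simp
    have hxy : x j ≠ y1 j := by rw [← hcx]; exact hj
    have hcur' : Geo R x (fl cur j) := hcur.adj hR hg.left
    by_cases hzj : z j = x j
    · refine ih rfl hcur' ?_
      intro i hi
      by_cases hij : i = j
      · subst hij
        exact ⟨Ne.symm hxy, hzj⟩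
      · rw [fl_ne _ hij] at hi
        exact hinv i hi
    · -- the median of the next point
      have hyz : y1 j = z j := by
        revert hzj hxy
        cases x j <;> cases y1 j <;> cases z j <;> simp
      have hagree : ∀ i, x i = y1 i → cur i = x i := by
        intro i hi
        by_contra hcon
        exact (hinv i hcon).1 hi.symm
      obtain ⟨q, hq⟩ : ∃ q, q = mj (fl cur j) y1 z := ⟨_, rfl⟩
      have h1 : Geo R (fl cur j) q := by
        rw [hq]
        refine IH _ _ _ ?_ hg ((hcur'.symm hR).trans hR hxz)
        rw [← hN]
        refine nn_lt ?_ ⟨j, ?_, ?_, ?_⟩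
        · intro i hi1 hi2
          have hij : i ≠ j := by
            intro e
            rw [e] at hi1
            exact hxy hi1
          rw [fl_ne _ hij, hagree i hi1]
          exact ⟨hi1, hi2⟩
        · intro hcon
          exact hxy hcon.1
        · rw [fl_self, hcx]
          revert hxy
          cases x j <;> cases y1 j <;> simp
        · exact hyz
      have hxq : Geo R x q := hcur'.trans hR h1
      have hqi : ∀ i, q i = if x i ≠ y1 i ∧ z i = x i ∧ cur i = x i then x i else
          if x i ≠ y1 i ∧ z i = x i then y1 i else (mj x y1 z) i := by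
        intro i
        rw [hq]
        unfold mj
        by_cases hij : i = j
        · subst hij
          rw [fl_self, hcx, if_neg (fun h => hzj h.2.1), if_neg (fun h => hzj h.2)]
          revert hxy hzj
          cases x i <;> cases y1 i <;> cases z i <;> simp
        · rw [fl_ne _ hij]
          by_cases hc : cur i = x i
          · rw [hc]
            by_cases h2 : x i ≠ y1 i ∧ z i = x i
            · rw [if_pos ⟨h2.1, h2.2, rfl⟩, h2.2]
              cases x i <;> simp
            · rw [if_neg (fun h => h2 ⟨h.1, h.2.1⟩), if_neg h2]
          · obtain ⟨h2, h3⟩ := hinv i hc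
            rw [if_neg (fun h => hc h.2.2), if_pos ⟨Ne.symm h2, h3⟩, h3]
            revert hc h2
            cases cur i <;> cases x i <;> cases y1 i <;> simp
      have hmq : mj x q z = mj x y1 z := by
        funext i
        have := hqi i
        unfold mj at this ⊢
        rw [this]
        split_ifs with h2 h3
        · rw [h2.2.1]
          cases x i <;> simp
        · rfl
        · cases x i <;> cases y1 i <;> cases z i <;> simp
      by_cases hex : ∃ i, x i ≠ y1 i ∧ z i = x i ∧ cur i = x i
      · left
        rw [← hmq]
        refine IH _ _ _ ?_ hxq hxz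
        rw [← hN]
        obtain ⟨i, h2, h3, h4⟩ := hex
        refine nn_lt ?_ ⟨i, ?_, ?_, ?_⟩
        · intro k hk1 hk2
          have := hqi k
          rw [if_neg (fun h => h.1 hk1), if_neg (fun h => h.1 hk1)] at this
          have h5 : q k = x k := by
            rw [this]
            unfold mj
            rw [← hk2, ← hk1]
            cases x k <;> simp
          rw [h5]
          exact ⟨rfl, by rw [hk1, hk2]⟩
        · intro hcon
          exact h2 hcon.1
        · rw [hqi i, if_pos ⟨h2, h3, h4⟩]
        · rw [hqi i, if_pos ⟨h2, h3, h4⟩, h3]
      · right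
        have : op x y1 z = cur := by
          funext i
          unfold op
          by_cases hi : x i = y1 i
          · rw [if_pos hi, hagree i hi]
          · rw [if_neg hi]
            by_cases hzi : z i = x i
            · have hc : cur i ≠ x i := fun hc => hex ⟨i, hi, hzi, hc⟩
              rw [hzi]
              revert hc
              cases cur i <;> cases x i <;> simp
            · have hc : cur i = x i := by
                by_contra hcon
                exact hzi (hinv i hcon).2
              rw [hc]
              revert hzi
              cases z i <;> cases x i <;> simp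
        rw [this]
        exact hcur

/-- connected components are closed under majority -/
theorem geo_mj (hR : PF R) : ∀ (N : ℕ) (x y z : ι → Bool), nn x y z = N → Geo R x y →
    Geo R x z → Geo R x (mj x y z) := by
  intro N
  induction N using Nat.strong_induction_on with
  | _ N ih =>
    intro x y z hN hxy hxz
    have IH : ∀ x' y' z' : ι → Bool, nn x' y' z' < N → Geo R x' y' → Geo R x' z' →
        Geo R x' (mj x' y' z') := fun x' y' z' h h1 h2 => ih _ h x' y' z' rfl h1 h2
    have hyx := hxy.symm hR
    have hzx := hxz.symm hR
    have hyz := hyx.trans hR hxz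
    rcases star hR hN IH hxz hxy (Geo.refl x hxy.left) (fun i h => absurd rfl h) with h1 | h1
    · exact h1
    have hN' : nn z x y = N := by
      rw [← hN]
      unfold nn
      congr 1
      ext i
      simp only [Finset.mem_filter, Finset.mem_univ, true_and, not_iff_not]
      constructor
      · rintro ⟨h1, h2⟩
        exact ⟨h2, by rw [h1, h2]⟩
      · rintro ⟨h1, h2⟩
        exact ⟨by rw [h1, h2], h1⟩
    have hmj : mj z x y = mj x y z := by
      funext i
      unfold mj
      cases x i <;> cases y i <;> cases z i <;> rfl
    rcases star hR hN' IH (hzx.trans hR hxy) hzx (Geo.refl z hzx.left)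
      (fun i h => absurd rfl h) with h2 | h2
    · rw [hmj] at h2
      exact hxz.trans hR h2
    -- both opposite points belong to the component
    obtain ⟨m, hm⟩ : ∃ m, m = mj x y z := ⟨_, rfl⟩
    obtain ⟨u, hu⟩ : ∃ u : ι → Bool, u = xr x m := ⟨_, rfl⟩
    have hmi : ∀ i, m i = ((x i && y i) || (x i && z i) || (y i && z i)) := fun i => by
      rw [hm]; rfl
    have e1 : xr z u = op z x y := by
      funext i
      simp only [xr, op, hu, hmi]
      cases x i <;> cases y i <;> cases z i <;> rfl
    have e2 : xr m u = x := by
      funext i
      simp only [xr, hu, hmi]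
      cases x i <;> cases y i <;> cases z i <;> rfl
    have e3 : xr y u = op x y z := by
      funext i
      simp only [xr, op, hu, hmi]
      cases x i <;> cases y i <;> cases z i <;> rfl
    have hRm : R m := by
      refine hR z m y u ?_ ?_ hxz.right ?_ ?_ ?_ hxy.right
      · intro i
        rw [hmi]
        cases x i <;> cases y i <;> cases z i <;> simp
      · intro i
        simp only [hu, xr, hmi]
        cases x i <;> cases y i <;> cases z i <;> simp
      · rw [e1]
        exact h2.right
      · rw [e2]
        exact hxy.left
      · rw [e3]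
        exact h1.right
    have h3 := h1.block hR m u e2 (by
      intro i
      simp only [hu, xr, hmi, op]
      cases x i <;> cases y i <;> cases z i <;> simp) hRm (by
      rw [← e3, xr_xr]
      exact hxy.right)
    rw [← e3, xr_xr] at h3
    rw [← hm]
    exact hxy.trans hR (h3.symm hR)

omit [DecidableEq ι] in
/-- sets closed under majority are determined by their projections to pairs -/
theorem mem_of_pairs {K : Set (ι → Bool)} (hK : ∀ x ∈ K, ∀ y ∈ K, ∀ z ∈ K, mj x y z ∈ K)
    (hne : K.Nonempty) {x : ι → Bool} (hx : ∀ i j, ∃ k ∈ K, k i = x i ∧ k j = x j) : x ∈ K := by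
  classical
  have key : ∀ (n : ℕ) (s : Finset ι), s.card = n → ∃ k ∈ K, ∀ i ∈ s, k i = x i := by
    intro n
    induction n using Nat.strong_induction_on with
    | _ n ih =>
      intro s hs
      by_cases h3 : 2 < s.card
      · obtain ⟨a, b, c, ha, hb, hc, hab, hac, hbc⟩ := Finset.two_lt_card_iff.1 h3
        have he : ∀ d ∈ s, ∃ k ∈ K, ∀ i ∈ s.erase d, k i = x i := fun d hd =>
          ih (s.card - 1) (by omega) _ (Finset.card_erase_of_mem hd)
        obtain ⟨ka, hka, ha'⟩ := he a ha
        obtain ⟨kb, hkb, hb'⟩ := he b hb
        obtain ⟨kc, hkc, hc'⟩ := he c hc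
        refine ⟨mj ka kb kc, hK _ hka _ hkb _ hkc, fun i hi => ?_⟩
        unfold mj
        by_cases h1 : i = a
        · subst h1
          rw [hb' i (Finset.mem_erase.2 ⟨hab, hi⟩), hc' i (Finset.mem_erase.2 ⟨hac, hi⟩)]
          cases ka i <;> cases x i <;> simp
        · rw [ha' i (Finset.mem_erase.2 ⟨h1, hi⟩)]
          by_cases h2 : i = b
          · subst h2
            rw [hc' i (Finset.mem_erase.2 ⟨hbc, hi⟩)]
            cases kb i <;> cases x i <;> simp
          · rw [hb' i (Finset.mem_erase.2 ⟨h2, hi⟩)]
            cases kc i <;> cases x i <;> simp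
      · have h4 : s.card ≤ 2 := by omega
        rcases Nat.lt_or_eq_of_le h4 with h5 | h5
        · rcases Nat.lt_or_eq_of_le (Nat.le_of_lt_succ h5) with h6 | h6
          · have : s = ∅ := Finset.card_eq_zero.1 (by omega)
            obtain ⟨k, hk⟩ := hne
            exact ⟨k, hk, by simp [this]⟩
          · obtain ⟨a, rfl⟩ := Finset.card_eq_one.1 h6
            obtain ⟨k, hk, h7, _⟩ := hx a a
            exact ⟨k, hk, by simpa using h7⟩
        · obtain ⟨a, b, _, rfl⟩ := Finset.card_eq_two.1 h5
          obtain ⟨k, hk, h7, h8⟩ := hx a b
          refine ⟨k, hk, ?_⟩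
          intro i hi
          simp only [Finset.mem_insert, Finset.mem_singleton] at hi
          rcases hi with rfl | rfl
          · exact h7
          · exact h8
  obtain ⟨k, hk, h⟩ := key _ Finset.univ rfl
  have : k = x := funext fun i => h i (Finset.mem_univ i)
  rw [← this]
  exact hk

end

end Pool.Agent.MPa0a715.OD
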