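import Pool.Agent.Lib.MP_a0a715_lc_OD.Med
import Pool.Agent.Lib.MP_a0a715_lc_OD.DC

/-!
# The components of the set of zeros of a function without pattern
-/

namespace Pool.Agent.MPa0a715.OD

open Pool.Agent.MPa0a715

/-- the point satisfies the clauses; a clause is a forbidden conjunction -/
def Ok (K : List NT) (y : List Bool) : Prop :=
  ∀ c ∈ K, c.all (lv fun i => y.getD i false) = false

/-- a table of a function of `m` arguments, and descriptions of components of the set of zeros -/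
structure Rec where
  m : ℕ
  tab : List (List Bool)
  comps : List (List NT)

/-- the description is right -/
structure Rec.Good (ρ : Rec) : Prop where
  short : ∀ K ∈ ρ.comps, ∀ c ∈ K, c.length ≤ 2 ∧ ∀ p ∈ c, p.1 < ρ.m
  zero : ∀ K ∈ ρ.comps, ∀ y : List Bool, y.length = ρ.m → Ok K y → y ∉ ρ.tab
  step : ∀ K ∈ ρ.comps, ∀ y : List Bool, y.length = ρ.m → Ok K y → ∀ i < ρ.m,
    flip y i ∉ ρ.tab → Ok K (flip y i)
  cover : ∀ y : List Bool, y.length = ρ.m → y ∉ ρ.tab → ∃ K ∈ ρ.comps, Ok K y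

/-- the point as a function -/
def fn (m : ℕ) (y : List Bool) : Fin m → Bool := fun i => y.getD i false

theorem fn_ofFn {m : ℕ} (y : Fin m → Bool) : fn m (List.ofFn y) = y := by
  funext i
  unfold fn
  rw [List.getD_eq_getElem _ _ (by simp), List.getElem_ofFn]

theorem ofFn_fn {m : ℕ} {y : List Bool} (hy : y.length = m) : List.ofFn (fn m y) = y := by
  refine List.ext_getElem (by simp [hy]) fun i h1 h2 => ?_
  rw [List.getElem_ofFn]
  unfold fn
  rw [List.getD_eq_getElem _ _ h2]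

theorem fn_flip {m : ℕ} {y : List Bool} (hy : y.length = m) (i : Fin m) :
    fn m (flip y i) = fl (fn m y) i := by
  funext j
  unfold fn
  rw [getD_flip _ _ _ (by rw [hy]; exact j.2)]
  by_cases h : j = i
  · subst h
    rw [if_pos rfl, fl_self]
  · rw [if_neg fun e => h (Fin.ext e.symm), fl_ne _ h]

open Classical in
/-- the clauses of a set of points -/
noncomputable def cl (m : ℕ) (K : Set (Fin m → Bool)) : List NT :=
  ((Finset.univ : Finset ((Fin m × Bool) × (Fin m × Bool))).filter fun q =>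
    ∀ y ∈ K, ¬ (y q.1.1 = q.1.2 ∧ y q.2.1 = q.2.2)).toList.map fun q =>
      [(q.1.1.val, q.1.2), (q.2.1.val, q.2.2)]

theorem mem_cl {m : ℕ} {K : Set (Fin m → Bool)} {c : NT} : c ∈ cl m K ↔
    ∃ (i j : Fin m) (b d : Bool), (∀ y ∈ K, ¬ (y i = b ∧ y j = d)) ∧
      c = [(i.val, b), (j.val, d)] := by
  unfold cl
  simp only [List.mem_map, Finset.mem_toList, Finset.mem_filter, Finset.mem_univ, true_and]
  constructor
  · rintro ⟨⟨⟨i, b⟩, ⟨j, d⟩⟩, h, rfl⟩
    exact ⟨i, j, b, d, h, rfl⟩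
  · rintro ⟨i, j, b, d, h, rfl⟩
    exact ⟨⟨⟨i, b⟩, ⟨j, d⟩⟩, h, rfl⟩

/-- a set closed under majority is described by its clauses -/
theorem ok_cl {m : ℕ} {K : Set (Fin m → Bool)} (hne : K.Nonempty)
    (hK : ∀ x ∈ K, ∀ y ∈ K, ∀ z ∈ K, mj x y z ∈ K) {y : List Bool} :
    Ok (cl m K) y ↔ fn m y ∈ K := by
  constructor
  · intro h
    refine mem_of_pairs hK hne fun i j => ?_
    by_contra hcon
    push Not at hcon
    have h1 := h [(i.val, fn m y i), (j.val, fn m y j)] (mem_cl.2 ⟨i, j, _, _, fun z hz h2 =>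
      hcon z hz h2.1 h2.2, rfl⟩)
    simp [lv, fn] at h1
  · intro h c hc
    obtain ⟨i, j, b, d, h1, rfl⟩ := mem_cl.1 hc
    have h2 := h1 _ h
    by_contra hcon
    rw [Bool.not_eq_false] at hcon
    simp only [lv, List.all_cons, List.all_nil, Bool.and_true, Bool.and_eq_true,
      beq_iff_eq] at hcon
    exact h2 hcon

/-- the component of a point -/
def comp {m : ℕ} (R : (Fin m → Bool) → Prop) (y0 : Fin m → Bool) : Set (Fin m → Bool) :=
  {y | Geo R y0 y}

theorem comp_mj {m : ℕ} {R : (Fin m → Bool) → Prop} (hR : PF R) (y0 : Fin m → Bool) :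
    ∀ x ∈ comp R y0, ∀ y ∈ comp R y0, ∀ z ∈ comp R y0, mj x y z ∈ comp R y0 := by
  intro x hx y hy z hz
  have hx' : Geo R y0 x := hx
  have h1 : Geo R x y := (hx'.symm hR).trans hR hy
  have h2 : Geo R x z := (hx'.symm hR).trans hR hz
  exact hx'.trans hR (geo_mj hR _ x y z rfl h1 h2)

theorem ok_comp {m : ℕ} {R : (Fin m → Bool) → Prop} (hR : PF R) {y0 : Fin m → Bool} (h0 : R y0)
    {y : List Bool} : Ok (cl m (comp R y0)) y ↔ Geo R y0 (fn m y) :=
  ok_cl (K := comp R y0) ⟨y0, Geo.refl y0 h0⟩ (comp_mj hR y0)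

theorem rec_exists (m : ℕ) (g : (Fin m → Bool) → Bool) (hg : PF fun y => g y = false) :
    ∃ ρ : Rec, ρ.Good ∧ ρ.m = m ∧
      ∀ y : List Bool, y.length = m → (y ∈ ρ.tab ↔ g (fn m y) = true) := by
  classical
  set R : (Fin m → Bool) → Prop := fun y => g y = false with hRdef
  set tab : List (List Bool) :=
    ((Finset.univ : Finset (Fin m → Bool)).filter fun y => g y = true).toList.map List.ofFn
    with htab
  have mem_tab : ∀ y : List Bool, y.length = m → (y ∈ tab ↔ g (fn m y) = true) := by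
    intro y hy
    rw [htab]
    simp only [List.mem_map, Finset.mem_toList, Finset.mem_filter, Finset.mem_univ, true_and]
    constructor
    · rintro ⟨z, hz, rfl⟩
      rw [fn_ofFn]
      exact hz
    · intro h
      exact ⟨fn m y, h, ofFn_fn hy⟩
  have nmem : ∀ y : List Bool, y.length = m → (y ∉ tab ↔ R (fn m y)) := by
    intro y hy
    rw [mem_tab y hy, Bool.not_eq_true]
  refine ⟨⟨m, tab, ((Finset.univ : Finset (Fin m → Bool)).filter fun y => R y).toList.map
    fun y0 => cl m (comp R y0)⟩, ⟨?_, ?_, ?_, ?_⟩, rfl, mem_tab⟩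
  · intro K hK c hc
    obtain ⟨y0, -, rfl⟩ := List.mem_map.1 hK
    obtain ⟨i, j, b, d, -, rfl⟩ := mem_cl.1 hc
    refine ⟨le_refl _, ?_⟩
    intro p hp
    simp only [List.mem_cons, List.not_mem_nil, or_false] at hp
    rcases hp with rfl | rfl
    · exact i.2
    · exact j.2
  · intro K hK y hy hok
    obtain ⟨y0, hy0, rfl⟩ := List.mem_map.1 hK
    simp only [Finset.mem_toList, Finset.mem_filter, Finset.mem_univ, true_and] at hy0
    rw [ok_comp hg hy0] at hok
    exact (nmem y hy).2 hok.right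
  · intro K hK y hy hok i hi hf
    obtain ⟨y0, hy0, rfl⟩ := List.mem_map.1 hK
    simp only [Finset.mem_toList, Finset.mem_filter, Finset.mem_univ, true_and] at hy0
    rw [ok_comp hg hy0] at hok ⊢
    have h1 := (nmem (flip y i) (by rw [length_flip]; exact hy)).1 hf
    have h2 := fn_flip hy ⟨i, hi⟩
    change fn m (flip y i) = _ at h2
    rw [h2] at h1 ⊢
    exact Geo.adj hg hok h1
  · intro y hy hf
    have h1 := (nmem y hy).1 hf
    refine ⟨_, List.mem_map_of_mem (a := fn m y) ?_, ?_⟩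
    · simp only [Finset.mem_toList, Finset.mem_filter, Finset.mem_univ, true_and]
      exact h1
    · rw [ok_comp hg h1]
      exact Geo.refl _ h1

/-- finitely many descriptions suffice for all functions without pattern -/
theorem recs_exist (r : ℕ) : ∃ l : List Rec, (∀ ρ ∈ l, ρ.Good ∧ ρ.m ≤ r) ∧
    ∀ m ≤ r, ∀ g : (Fin m → Bool) → Bool, (PF fun y => g y = false) → ∃ ρ ∈ l, ρ.m = m ∧
      ∀ y : List Bool, y.length = m → (y ∈ ρ.tab ↔ g (fn m y) = true) := by
  classical
  choose F hF1 hF2 hF3 using rec_exists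
  let I := Σ m : Fin (r + 1), {g : (Fin m.val → Bool) → Bool // PF fun y => g y = false}
  refine ⟨(Finset.univ : Finset I).toList.map fun q => F q.1.val q.2.1 q.2.2, ?_, ?_⟩
  · intro ρ hρ
    obtain ⟨q, -, rfl⟩ := List.mem_map.1 hρ
    refine ⟨hF1 _ _ _, ?_⟩
    rw [hF2]
    have := q.1.2
    omega
  · intro m hm g hg
    refine ⟨_, List.mem_map_of_mem (a := (⟨⟨m, by omega⟩, ⟨g, hg⟩⟩ : I)) (by simp), ?_, ?_⟩
    · exact hF2 _ _ _
    · exact hF3 m g hg

end Pool.Agent.MPa0a715.OD
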